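import Pool.Agent.Hhelper97.Sturm.TraceMap

set_option autoImplicit false

namespace Pool.Agent.Hhelper97.Sturm

open Set

/-! ### Elementary intermediate value lemmas -/

/-- Selecting preimages monotonically. -/
lemma exists_mono_section {f : ℝ → ℝ} (hf : Continuous f) {l r : ℝ} (hlr : l ≤ r)
    (hl : f l = -2) (hr : f r = 2) :
    ∃ e : ℝ → ℝ, (∀ c ∈ Icc (-2 : ℝ) 2, e c ∈ Icc l r ∧ f (e c) = c) ∧
      StrictMonoOn e (Icc (-2 : ℝ) 2) := by
  set S : ℝ → Set ℝ := fun c => {E | E ∈ Icc l r ∧ c ≤ f E} with hS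
  have hclosed : ∀ c, IsClosed (S c) := fun c =>
    isClosed_Icc.inter (isClosed_le continuous_const hf)
  have hbdd : ∀ c, BddBelow (S c) := fun c => ⟨l, fun E hE => hE.1.1⟩
  have hne : ∀ c ∈ Icc (-2 : ℝ) 2, (S c).Nonempty := fun c hc =>
    ⟨r, ⟨hlr, le_refl r⟩, by rw [hr]; exact hc.2⟩
  have hmem : ∀ c ∈ Icc (-2 : ℝ) 2, sInf (S c) ∈ S c := fun c hc =>
    (hclosed c).csInf_mem (hne c hc) (hbdd c)
  have hval : ∀ c ∈ Icc (-2 : ℝ) 2, f (sInf (S c)) = c := by
    intro c hc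
    obtain ⟨⟨h1, h2⟩, h3⟩ := hmem c hc
    have hc' : c ∈ Icc (f l) (f (sInf (S c))) := ⟨by rw [hl]; exact hc.1, h3⟩
    obtain ⟨E, hE, hfE⟩ := intermediate_value_Icc h1 hf.continuousOn hc'
    have hES : E ∈ S c := ⟨⟨hE.1, hE.2.trans h2⟩, hfE.ge⟩
    have : sInf (S c) ≤ E := csInf_le (hbdd c) hES
    have hEeq : E = sInf (S c) := le_antisymm hE.2 this
    rw [← hEeq, hfE]
  refine ⟨fun c => sInf (S c), fun c hc => ⟨(hmem c hc).1, hval c hc⟩, ?_⟩
  intro c hc c' hc' hcc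
  have h1 : sInf (S c) ≤ sInf (S c') := by
    apply csInf_le_csInf (hbdd c) (hne c' hc')
    intro E hE
    exact ⟨hE.1, hcc.le.trans hE.2⟩
  have h2 : sInf (S c) ≠ sInf (S c') := by
    intro h
    have e1 := hval c hc
    have e2 := hval c' hc'
    simp only [h] at e1
    rw [e2] at e1
    exact hcc.ne' e1
  exact lt_of_le_of_ne h1 h2

lemma exists_anti_section {f : ℝ → ℝ} (hf : Continuous f) {l r : ℝ} (hlr : l ≤ r)
    (hl : f l = 2) (hr : f r = -2) :
    ∃ e : ℝ → ℝ, (∀ c ∈ Icc (-2 : ℝ) 2, e c ∈ Icc l r ∧ f (e c) = c) ∧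
      StrictAntiOn e (Icc (-2 : ℝ) 2) := by
  obtain ⟨e, he1, he2⟩ := exists_mono_section (f := fun x => - f x) hf.neg hlr
    (by simp [hl]) (by simp [hr])
  refine ⟨fun c => e (-c), ?_, ?_⟩
  · intro c hc
    have hc' : -c ∈ Icc (-2 : ℝ) 2 := ⟨by linarith [hc.2], by linarith [hc.1]⟩
    obtain ⟨h1, h2⟩ := he1 (-c) hc'
    exact ⟨h1, by simpa using h2⟩
  · intro c hc c' hc' hcc
    have h1 : -c ∈ Icc (-2 : ℝ) 2 := ⟨by linarith [hc.2], by linarith [hc.1]⟩
    have h2 : -c' ∈ Icc (-2 : ℝ) 2 := ⟨by linarith [hc'.2], by linarith [hc'.1]⟩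
    exact he2 h2 h1 (by linarith)

/-- Sub-band with decreasing endpoint values. -/
lemma exists_subband_anti {g : ℝ → ℝ} (hg : Continuous g) {u v : ℝ} (huv : u ≤ v)
    (hu : 2 < g u) (hv : g v < -2) :
    ∃ l r, u < l ∧ l < r ∧ r < v ∧ (∀ E ∈ Icc l r, |g E| ≤ 2) ∧ g l = 2 ∧ g r = -2 := by
  -- first point where g ≤ -2
  set S : Set ℝ := {E | E ∈ Icc u v ∧ g E ≤ -2} with hS
  have hSc : IsClosed S := isClosed_Icc.inter (isClosed_le hg continuous_const)
  have hSb : BddBelow S := ⟨u, fun E hE => hE.1.1⟩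
  have hSn : S.Nonempty := ⟨v, ⟨huv, le_refl v⟩, hv.le⟩
  obtain ⟨⟨hr1, hr2⟩, hr3⟩ := hSc.csInf_mem hSn hSb
  set r := sInf S with hr
  have hgr : g r = -2 := by
    have : (-2 : ℝ) ∈ Icc (g r) (g u) := ⟨hr3, by linarith⟩
    obtain ⟨E, hE, hgE⟩ := intermediate_value_Icc' hr1 hg.continuousOn this
    have hES : E ∈ S := ⟨⟨hE.1, hE.2.trans hr2⟩, hgE.le⟩
    have hEr : r ≤ E := csInf_le hSb hES
    have : E = r := le_antisymm hE.2 hEr
    rw [← this, hgE]
  have hgt : ∀ E, u ≤ E → E < r → -2 < g E := by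
    intro E h1 h2
    by_contra h
    push Not at h
    have : r ≤ E := csInf_le hSb ⟨⟨h1, (h2.le).trans hr2⟩, h⟩
    linarith
  -- last point in [u, r] where g ≥ 2
  set T : Set ℝ := {E | E ∈ Icc u r ∧ 2 ≤ g E} with hT
  have hTc : IsClosed T := isClosed_Icc.inter (isClosed_le continuous_const hg)
  have hTb : BddAbove T := ⟨r, fun E hE => hE.1.2⟩
  have hTn : T.Nonempty := ⟨u, ⟨le_refl u, hr1⟩, hu.le⟩
  obtain ⟨⟨hl1, hl2⟩, hl3⟩ := hTc.csSup_mem hTn hTb
  set l := sSup T with hl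
  have hgl : g l = 2 := by
    have : (2 : ℝ) ∈ Icc (g r) (g l) := ⟨by linarith, hl3⟩
    obtain ⟨E, hE, hgE⟩ := intermediate_value_Icc' hl2 hg.continuousOn this
    have hET : E ∈ T := ⟨⟨hl1.trans hE.1, hE.2⟩, hgE.ge⟩
    have hEl : E ≤ l := le_csSup hTb hET
    have : E = l := le_antisymm hEl hE.1
    rw [← this, hgE]
  have hlt : ∀ E, l < E → E ≤ r → g E < 2 := by
    intro E h1 h2
    by_contra h
    push Not at h
    have : E ≤ l := le_csSup hTb ⟨⟨hl1.trans h1.le, h2⟩, h⟩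
    linarith
  have hul : u < l := by
    rcases hl1.lt_or_eq with h | h
    · exact h
    · rw [← h] at hgl; linarith
  have hlr : l < r := by
    rcases hl2.lt_or_eq with h | h
    · exact h
    · rw [h] at hgl; linarith
  have hrv : r < v := by
    rcases hr2.lt_or_eq with h | h
    · exact h
    · rw [h] at hgr; linarith
  refine ⟨l, r, hul, hlr, hrv, ?_, hgl, hgr⟩
  intro E hE
  rw [abs_le]
  constructor
  · rcases hE.2.lt_or_eq with h | h
    · exact (hgt E (hul.le.trans hE.1) h).le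
    · rw [h, hgr]
  · rcases hE.1.lt_or_eq with h | h
    · exact (hlt E h hE.2).le
    · rw [← h, hgl]

lemma exists_subband {g : ℝ → ℝ} (hg : Continuous g) {u v : ℝ} (huv : u ≤ v)
    (hu : 2 < |g u|) (hv : 2 < |g v|) (hs : g u * g v < 0) :
    ∃ l r, u < l ∧ l < r ∧ r < v ∧ (∀ E ∈ Icc l r, |g E| ≤ 2) ∧
      ((g l = 2 ∧ g r = -2) ∨ (g l = -2 ∧ g r = 2)) := by
  rcases lt_or_gt_of_ne (show g u ≠ 0 by intro h; simp [h] at hs) with h | h
  · have hu' : g u < -2 := by rw [abs_of_neg h] at hu; linarith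
    have hvpos : 0 < g v := by by_contra hc; push Not at hc; nlinarith
    have hv' : 2 < g v := by rwa [abs_of_pos hvpos] at hv
    obtain ⟨l, r, h1, h2, h3, h4, h5, h6⟩ := exists_subband_anti (g := fun x => - g x) hg.neg huv
      (by linarith) (by linarith)
    refine ⟨l, r, h1, h2, h3, ?_, Or.inr ⟨by linarith, by linarith⟩⟩
    intro E hE
    simpa using h4 E hE
  · have hu' : 2 < g u := by rwa [abs_of_pos h] at hu
    have hvneg : g v < 0 := by by_contra hc; push Not at hc; nlinarith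
    have hv' : g v < -2 := by rw [abs_of_neg hvneg] at hv; linarith
    obtain ⟨l, r, h1, h2, h3, h4, h5, h6⟩ := exists_subband_anti hg huv hu' hv'
    exact ⟨l, r, h1, h2, h3, h4, Or.inl ⟨h5, h6⟩⟩

/-! ### Chebyshev nodes -/

lemma sin_mul_tt (θ y z : ℝ) (n : ℕ) :
    Real.sin θ * tt (2 * Real.cos θ) y z n
      = Real.sin (n * θ) * z - Real.sin ((n - 1) * θ) * y := by
  induction n using Nat.twoStepInduction with
  | zero => simp [Real.sin_neg]
  | one => simp
  | more n ih1 ih2 =>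
    rw [tt_add_two, mul_sub, ih1]
    have : Real.sin θ * (2 * Real.cos θ * tt (2 * Real.cos θ) y z (n + 1))
        = 2 * Real.cos θ * (Real.sin θ * tt (2 * Real.cos θ) y z (n + 1)) := by ring
    rw [this, ih2]
    push_cast
    have e1 : Real.sin ((n + 2 : ℝ) * θ) = 2 * Real.cos θ * Real.sin ((n + 1 : ℝ) * θ)
        - Real.sin (n * θ) := by
      have h1 : (n + 2 : ℝ) * θ = (n + 1 : ℝ) * θ + θ := by ring
      have h2 : (n : ℝ) * θ = (n + 1 : ℝ) * θ - θ := by ring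
      rw [h1, h2, Real.sin_add, Real.sin_sub]; ring
    have e2 : Real.sin ((n + 2 - 1 : ℝ) * θ) = 2 * Real.cos θ * Real.sin ((n + 1 - 1 : ℝ) * θ)
        - Real.sin ((n - 1 : ℝ) * θ) := by
      have h1 : (n + 2 - 1 : ℝ) * θ = (n : ℝ) * θ + θ := by ring
      have h2 : (n - 1 : ℝ) * θ = (n : ℝ) * θ - θ := by ring
      have h3 : (n + 1 - 1 : ℝ) * θ = (n : ℝ) * θ := by ring
      rw [h1, h2, h3, Real.sin_add, Real.sin_sub]; ring
    rw [e1, e2]; ring

/-- values at half-integer Chebyshev nodes -/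
lemma tt_node {a : ℕ} (ha : 1 ≤ a) (j : ℕ) (y z θ : ℝ) (hθ : θ = (j + 1 / 2) * Real.pi / a) :
    Real.sin θ * tt (2 * Real.cos θ) y z a = (-1) ^ j * (z - Real.cos θ * y) ∧
    Real.sin θ * tt (2 * Real.cos θ) y z (a + 1) = (-1) ^ j * (Real.cos θ * z - y) := by
  have ha' : (a : ℝ) ≠ 0 := by positivity
  have h1 : (a : ℝ) * θ = j * Real.pi + Real.pi / 2 := by
    rw [hθ]; field_simp
  have hs : Real.sin ((a : ℝ) * θ) = (-1) ^ j := by
    rw [h1, Real.sin_add_pi_div_two, Real.cos_nat_mul_pi]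
  have hc : Real.cos ((a : ℝ) * θ) = 0 := by
    rw [h1, Real.cos_add_pi_div_two, Real.sin_nat_mul_pi, neg_zero]
  constructor
  · rw [sin_mul_tt, show ((a : ℝ) - 1) * θ = a * θ - θ by ring, Real.sin_sub, hs, hc]
    ring
  · rw [sin_mul_tt]
    push_cast
    rw [show ((a : ℝ) + 1 - 1) * θ = a * θ by ring, show ((a : ℝ) + 1) * θ = a * θ + θ by ring,
      Real.sin_add, hs, hc]
    ring

/-- For `λ > 4` no three consecutive `x, t_p, t_{p+1}` are all bounded by 2. -/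
lemma FV_big {lam : ℝ} (hlam : 4 < lam) {d : ℕ → ℕ} {k p : ℕ} {E : ℝ}
    (hx : |Xk E lam d k| ≤ 2) : 2 < |Tk E lam d k p| ∨ 2 < |Tk E lam d k (p + 1)| := by
  by_contra h
  push Not at h
  obtain ⟨h1, h2⟩ := h
  have h3 := FV' E lam d k p
  set x := Xk E lam d k
  set t := Tk E lam d k p
  set t' := Tk E lam d k (p + 1)
  have hx' := abs_le.mp hx
  have ht := abs_le.mp h1
  have ht' := abs_le.mp h2
  have e1 : x ^ 2 ≤ 4 := by nlinarith
  have e2 : t ^ 2 ≤ 4 := by nlinarith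
  have e3 : t' ^ 2 ≤ 4 := by nlinarith
  have e4 : -(x * t' * t) ≤ 8 := by
    have : |x * t' * t| ≤ 8 := by
      rw [abs_mul, abs_mul]
      calc |x| * |t'| * |t| ≤ 2 * 2 * 2 := by gcongr
        _ = 8 := by norm_num
    linarith [neg_abs_le (x * t' * t)]
  nlinarith

/-- A band at level `k` (of type III). -/
structure Band (lam : ℝ) (d : ℕ → ℕ) (k : ℕ) (l r : ℝ) : Prop where
  lt : l < r
  hX : ∀ E ∈ Icc l r, |Xk E lam d k| ≤ 2
  hY : ∀ E ∈ Icc l r, |Yk E lam d k| ≤ 2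
  hend : (Xk l lam d k = 2 ∧ Xk r lam d k = -2) ∨ (Xk l lam d k = -2 ∧ Xk r lam d k = 2)

lemma Band.hZ {lam : ℝ} (hlam : 4 < lam) {d : ℕ → ℕ} {k : ℕ} {l r : ℝ} (h : Band lam d k l r)
    {E : ℝ} (hE : E ∈ Icc l r) : 2 < |Zk E lam d k| := by
  rcases FV_big (p := 0) hlam (h.hX E hE) with h1 | h1
  · exact absurd (h.hY E hE) (not_le.mpr (by simpa using h1))
  · simpa using h1

/-- `z_k` has constant sign on a band -/
lemma Band.Z_mul_pos {lam : ℝ} (hlam : 4 < lam) {d : ℕ → ℕ} {k : ℕ} {l r : ℝ}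
    (h : Band lam d k l r) {E F : ℝ} (hE : E ∈ Icc l r) (hF : F ∈ Icc l r) :
    0 < Zk E lam d k * Zk F lam d k := by
  by_contra hcon
  push Not at hcon
  have hcont : ContinuousOn (fun E => Zk E lam d k) (Icc l r) := (continuous_Zk lam d k).continuousOn
  have h0 : (0 : ℝ) ∈ (fun E => Zk E lam d k) '' (Icc l r) := by
    have hpre : IsPreconnected ((fun E => Zk E lam d k) '' (Icc l r)) :=
      isPreconnected_Icc.image _ hcont
    have hord := hpre.ordConnected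
    rcases le_total (Zk E lam d k) 0 with h1 | h1
    · have h2 : 0 ≤ Zk F lam d k := by
        by_contra hc
        push Not at hc
        have : Zk E lam d k ≠ 0 := by
          intro h0; have := h.hZ hlam hE; rw [h0] at this; simp at this; linarith
        have : Zk E lam d k < 0 := lt_of_le_of_ne h1 this
        nlinarith
      exact hord.out ⟨E, hE, rfl⟩ ⟨F, hF, rfl⟩ ⟨h1, h2⟩
    · have h2 : Zk F lam d k ≤ 0 := by
        by_contra hc
        push Not at hc
        have : Zk E lam d k ≠ 0 := by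
          intro h0; have := h.hZ hlam hE; rw [h0] at this; simp at this; linarith
        have : 0 < Zk E lam d k := lt_of_le_of_ne h1 (Ne.symm this)
        nlinarith
      exact hord.out ⟨F, hF, rfl⟩ ⟨E, hE, rfl⟩ ⟨h2, h1⟩
  obtain ⟨G, hG, hG0⟩ := h0
  have := h.hZ hlam hG
  simp only at hG0
  rw [hG0] at this
  simp at this
  linarith

/-- Properties at a Chebyshev node. -/
lemma Band.node {lam : ℝ} (hlam : 4 < lam) {d : ℕ → ℕ} {k : ℕ} {l r : ℝ}
    (h : Band lam d k l r) (ha : 1 ≤ d k) {j : ℕ} (hj : j < d k) {E : ℝ} (hE : E ∈ Icc l r)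
    (hx : Xk E lam d k = 2 * Real.cos ((j + 1 / 2) * Real.pi / d k)) :
    0 < (-1) ^ j * Tk E lam d k (d k) * Zk E lam d k ∧
    |Tk E lam d k (d k + 1)| < |Tk E lam d k (d k)| ∧ 2 < |Tk E lam d k (d k)| := by
  set a := d k with hadef
  set θ := ((j : ℝ) + 1 / 2) * Real.pi / a with hθ
  have ha' : (0 : ℝ) < a := by exact_mod_cast ha
  have hθ0 : 0 < θ := by positivity
  have hθpi : θ < Real.pi := by
    rw [hθ, div_lt_iff₀ ha']
    have : (j : ℝ) + 1 ≤ a := by exact_mod_cast hj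
    nlinarith [Real.pi_pos]
  have hsin : 0 < Real.sin θ := Real.sin_pos_of_pos_of_lt_pi hθ0 hθpi
  have hcos : Real.cos θ ^ 2 < 1 := by nlinarith [Real.sin_sq_add_cos_sq θ, sq_nonneg (Real.sin θ)]
  obtain ⟨e1, e2⟩ := tt_node ha j (Yk E lam d k) (Zk E lam d k) θ hθ
  rw [← hx] at e1 e2
  change Real.sin θ * Tk E lam d k a = _ at e1
  change Real.sin θ * Tk E lam d k (a + 1) = _ at e2
  have hZ := h.hZ hlam hE
  have hY := h.hY E hE
  set y := Yk E lam d k
  set z := Zk E lam d k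
  set t := Tk E lam d k a
  set t' := Tk E lam d k (a + 1)
  set c := Real.cos θ
  have hc1 : |c| < 1 := by rw [← sq_lt_one_iff_abs_lt_one]; exact hcos
  have hcy : |c * y| ≤ 2 := by
    rw [abs_mul]
    nlinarith [abs_nonneg c, abs_nonneg y]
  have hpos : 0 < (z - c * y) * z := by
    have h1 : z * z = |z| * |z| := (abs_mul_abs_self z).symm
    have h2 : c * y * z ≤ 2 * |z| := by
      calc c * y * z ≤ |c * y * z| := le_abs_self _
        _ = |c * y| * |z| := abs_mul _ _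
        _ ≤ 2 * |z| := by gcongr
    nlinarith
  have hsq : ((-1 : ℝ) ^ j) * ((-1) ^ j) = 1 := by
    rw [← mul_pow]; simp
  have ht : 0 < (-1) ^ j * t * z := by
    have : Real.sin θ * ((-1) ^ j * t * z) = (z - c * y) * z := by
      calc Real.sin θ * ((-1) ^ j * t * z) = (-1) ^ j * (Real.sin θ * t) * z := by ring
        _ = ((-1) ^ j * (-1) ^ j) * (z - c * y) * z := by rw [e1]; ring
        _ = _ := by rw [hsq]; ring
    have h3 : 0 < Real.sin θ * ((-1) ^ j * t * z) := by rw [this]; exact hpos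
    exact (mul_pos_iff_of_pos_left hsin).mp h3
  have hlt : |t'| < |t| := by
    have h1 : (Real.sin θ * t') ^ 2 < (Real.sin θ * t) ^ 2 := by
      rw [e1, e2, mul_pow, mul_pow]
      have hone : ((-1 : ℝ) ^ j) ^ 2 = 1 := by rw [sq]; exact hsq
      rw [hone, one_mul, one_mul]
      have hzy : y ^ 2 < z ^ 2 := by
        rw [sq_lt_sq]; linarith
      nlinarith
    rw [mul_pow, mul_pow] at h1
    have h2 : t' ^ 2 < t ^ 2 := by
      have : 0 < Real.sin θ ^ 2 := by positivity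
      exact lt_of_mul_lt_mul_left h1 this.le
    exact sq_lt_sq.mp h2
  refine ⟨ht, hlt, ?_⟩
  rcases FV_big (p := a) hlam (h.hX E hE) with h1 | h1
  · exact h1
  · exact h1.trans hlt

lemma cos_node_anti {a : ℕ} (ha : 1 ≤ a) {i j : ℕ} (hij : i < j) (hj : j < a) :
    Real.cos ((j + 1 / 2) * Real.pi / a) < Real.cos ((i + 1 / 2) * Real.pi / a) := by
  have ha' : (0 : ℝ) < a := by exact_mod_cast ha
  have hij' : (i : ℝ) + 1 ≤ j := by exact_mod_cast hij
  have hja : (j : ℝ) + 1 ≤ a := by exact_mod_cast hj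
  apply Real.cos_lt_cos_of_nonneg_of_le_pi
  · positivity
  · rw [div_le_iff₀ ha']; nlinarith [Real.pi_pos]
  · rw [div_lt_div_iff_of_pos_right ha']; nlinarith [Real.pi_pos]

/-- The ordered nodes in a band. -/
lemma Band.exists_nodes {lam : ℝ} (hlam : 4 < lam) {d : ℕ → ℕ} {k : ℕ} {l r : ℝ}
    (h : Band lam d k l r) (ha : 1 ≤ d k) :
    ∃ u : ℕ → ℝ, (∀ j < d k, u j ∈ Icc l r ∧ 2 < |Tk (u j) lam d k (d k)| ∧
        |Tk (u j) lam d k (d k + 1)| < |Tk (u j) lam d k (d k)|) ∧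
      (∀ i j, i < j → j < d k → u i < u j) ∧
      (∀ j, j + 1 < d k → Tk (u j) lam d k (d k) * Tk (u (j + 1)) lam d k (d k) < 0) := by
  set a := d k with hadef
  have hcosmem : ∀ j : ℕ, 2 * Real.cos ((j + 1 / 2) * Real.pi / a) ∈ Icc (-2 : ℝ) 2 := by
    intro j
    have h1 := Real.neg_one_le_cos (((j : ℝ) + 1 / 2) * Real.pi / a)
    have h2 := Real.cos_le_one (((j : ℝ) + 1 / 2) * Real.pi / a)
    exact ⟨by linarith, by linarith⟩
  -- abstract alternation from node property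
  have halt : ∀ (i j : ℕ) (E F : ℝ), (i = j + 1 ∨ j = i + 1) → i < a → j < a →
      E ∈ Icc l r → F ∈ Icc l r →
      Xk E lam d k = 2 * Real.cos ((i + 1 / 2) * Real.pi / a) →
      Xk F lam d k = 2 * Real.cos ((j + 1 / 2) * Real.pi / a) →
      Tk E lam d k a * Tk F lam d k a < 0 := by
    intro i j E F hij hi hj hE hF hxE hxF
    have n1 := (h.node hlam ha hi hE hxE).1
    have n2 := (h.node hlam ha hj hF hxF).1
    have n3 := h.Z_mul_pos hlam hE hF
    have n4 : 0 < ((-1 : ℝ) ^ i * Tk E lam d k a * Zk E lam d k)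
        * ((-1) ^ j * Tk F lam d k a * Zk F lam d k) := mul_pos n1 n2
    have n5 : ((-1 : ℝ) ^ i * Tk E lam d k a * Zk E lam d k)
        * ((-1) ^ j * Tk F lam d k a * Zk F lam d k)
        = ((-1 : ℝ) ^ i * (-1) ^ j) * ((Tk E lam d k a * Tk F lam d k a)
          * (Zk E lam d k * Zk F lam d k)) := by ring
    have n6 : ((-1 : ℝ) ^ i * (-1) ^ j) = -1 := by
      rcases hij with rfl | rfl
      · rw [pow_succ]
        have : ((-1 : ℝ) ^ j) * ((-1) ^ j) = 1 := by rw [← mul_pow]; simp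
        linear_combination (-1 : ℝ) * this
      · rw [pow_succ]
        have : ((-1 : ℝ) ^ i) * ((-1) ^ i) = 1 := by rw [← mul_pow]; simp
        linear_combination (-1 : ℝ) * this
    rw [n5, n6] at n4
    nlinarith
  rcases h.hend with ⟨h1, h2⟩ | ⟨h1, h2⟩
  · obtain ⟨e, he1, he2⟩ := exists_anti_section (continuous_Xk lam d k) h.lt.le h1 h2
    refine ⟨fun j => e (2 * Real.cos ((j + 1 / 2) * Real.pi / a)), ?_, ?_, ?_⟩
    · intro j hj
      obtain ⟨m1, m2⟩ := he1 _ (hcosmem j)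
      have := h.node hlam ha hj m1 m2
      exact ⟨m1, this.2.2, this.2.1⟩
    · intro i j hij hj
      apply he2 (hcosmem j) (hcosmem i)
      have := cos_node_anti ha hij hj
      linarith
    · intro j hj
      obtain ⟨m1, m2⟩ := he1 _ (hcosmem j)
      obtain ⟨m3, m4⟩ := he1 _ (hcosmem (j + 1))
      exact halt j (j + 1) _ _ (Or.inr rfl) (by omega) hj m1 m3 m2 m4
  · obtain ⟨e, he1, he2⟩ := exists_mono_section (continuous_Xk lam d k) h.lt.le h1 h2
    refine ⟨fun j => e (2 * Real.cos (((a - 1 - j : ℕ) + 1 / 2) * Real.pi / a)), ?_, ?_, ?_⟩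
    · intro j hj
      obtain ⟨m1, m2⟩ := he1 _ (hcosmem (a - 1 - j))
      have := h.node hlam ha (show a - 1 - j < d k by omega) m1 m2
      exact ⟨m1, this.2.2, this.2.1⟩
    · intro i j hij hj
      apply he2 (hcosmem _) (hcosmem _)
      have := cos_node_anti ha (show a - 1 - j < a - 1 - i by omega) (by omega)
      linarith
    · intro j hj
      obtain ⟨m1, m2⟩ := he1 _ (hcosmem (a - 1 - j))
      obtain ⟨m3, m4⟩ := he1 _ (hcosmem (a - 1 - (j + 1)))
      exact halt (a - 1 - j) (a - 1 - (j + 1)) _ _ (Or.inl (by omega)) (by omega) (by omega)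
        m1 m3 m2 m4

/-- Sub-bands of a band. -/
lemma Band.exists_subbands {lam : ℝ} (hlam : 4 < lam) {d : ℕ → ℕ} {k : ℕ} {l r : ℝ}
    (h : Band lam d k l r) (ha : 1 ≤ d k) :
    ∃ l' r' : ℕ → ℝ, (∀ j, j + 1 < d k → Band lam d (k + 1) (l' j) (r' j) ∧
        l ≤ l' j ∧ r' j ≤ r) ∧
      (∀ i j, i < j → j + 1 < d k → ∃ s, Esc lam d (k + 1) s ∧ r' i < s ∧ s < l' j) := by
  obtain ⟨u, hu1, hu2, hu3⟩ := h.exists_nodes hlam ha
  have hsub : ∀ j : ℕ, ∃ lr : ℝ × ℝ, j + 1 < d k →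
      (u j < lr.1 ∧ lr.1 < lr.2 ∧ lr.2 < u (j + 1) ∧
        (∀ E ∈ Icc lr.1 lr.2, |Tk E lam d k (d k)| ≤ 2) ∧
        ((Tk lr.1 lam d k (d k) = 2 ∧ Tk lr.2 lam d k (d k) = -2) ∨
          (Tk lr.1 lam d k (d k) = -2 ∧ Tk lr.2 lam d k (d k) = 2))) := by
    intro j
    by_cases hj : j + 1 < d k
    · obtain ⟨l', r', h1, h2, h3, h4, h5⟩ := exists_subband (continuous_Tk lam d k (d k))
        (hu2 j (j + 1) (by omega) hj).le (hu1 j (by omega)).2.1 (hu1 (j + 1) hj).2.1 (hu3 j hj)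
      exact ⟨(l', r'), fun _ => ⟨h1, h2, h3, h4, h5⟩⟩
    · exact ⟨(0, 0), fun hc => absurd hc hj⟩
  choose lr hlr using hsub
  have hin : ∀ j, j + 1 < d k → ∀ E ∈ Icc (lr j).1 (lr j).2, E ∈ Icc l r := by
    intro j hj E hE
    obtain ⟨h1, h2, h3, h4, h5⟩ := hlr j hj
    have a1 := (hu1 j (by omega)).1.1
    have a2 := (hu1 (j + 1) hj).1.2
    exact ⟨by linarith [hE.1], by linarith [hE.2]⟩
  refine ⟨fun j => (lr j).1, fun j => (lr j).2, ?_, ?_⟩
  · intro j hj
    obtain ⟨h1, h2, h3, h4, h5⟩ := hlr j hj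
    have hl := hin j hj (lr j).1 ⟨le_refl _, h2.le⟩
    have hr := hin j hj (lr j).2 ⟨h2.le, le_refl _⟩
    refine ⟨⟨h2, h4, fun E hE => ?_, h5⟩, hl.1, hr.2⟩
    rw [Yk_succ]
    exact h.hX E (hin j hj E hE)
  · intro i j hij hj
    obtain ⟨h1, h2, h3, h4, h5⟩ := hlr i (by omega)
    obtain ⟨g1, g2, g3, g4, g5⟩ := hlr j hj
    -- the point r' i and the node u (i+1)
    have hi : i + 1 < d k := by omega
    have hr' := hin i hi (lr i).2 ⟨h2.le, le_refl _⟩
    have habs : |Tk (lr i).2 lam d k (d k)| = 2 := by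
      rcases h5 with ⟨_, h5⟩ | ⟨_, h5⟩ <;> rw [h5] <;> norm_num
    have hbig : 2 < |Tk (lr i).2 lam d k (d k + 1)| := by
      rcases FV_big (p := d k) hlam (h.hX _ hr') with h6 | h6
      · rw [habs] at h6; exact absurd h6 (lt_irrefl _)
      · exact h6
    set f : ℝ → ℝ := fun E => |Tk E lam d k (d k + 1)| - |Tk E lam d k (d k)| with hf
    have hfc : Continuous f :=
      (continuous_Tk lam d k (d k + 1)).abs.sub (continuous_Tk lam d k (d k)).abs
    have hf1 : 0 < f (lr i).2 := by simp only [hf]; linarith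
    have hf2 : f (u (i + 1)) < 0 := by
      have := (hu1 (i + 1) hi).2.2
      simp only [hf]; linarith
    have h0 : (0 : ℝ) ∈ Icc (f (u (i + 1))) (f (lr i).2) := ⟨hf2.le, hf1.le⟩
    obtain ⟨s, hs, hfs⟩ := intermediate_value_Icc' h3.le hfc.continuousOn h0
    have hs1 : (lr i).2 < s := by
      rcases hs.1.lt_or_eq with h | h
      · exact h
      · rw [← h] at hfs; linarith
    have hs2 : s < u (i + 1) := by
      rcases hs.2.lt_or_eq with h | h
      · exact h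
      · rw [h] at hfs; linarith
    have hsmem : s ∈ Icc l r := by
      have a1 := (hu1 (i + 1) hi).1.2
      exact ⟨by linarith [hr'.1], by linarith⟩
    have heq : |Tk s lam d k (d k + 1)| = |Tk s lam d k (d k)| := by
      simp only [hf] at hfs; linarith
    have hb : 2 < |Tk s lam d k (d k)| := by
      rcases FV_big (p := d k) hlam (h.hX s hsmem) with h6 | h6
      · exact h6
      · rw [← heq]; exact h6
    refine ⟨s, ⟨hb, ?_, ?_⟩, hs1, ?_⟩
    · rw [Zk_succ, heq]; exact hb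
    · rw [Zk_succ, Yk_succ, heq]
      exact lt_of_le_of_lt (h.hX s hsmem) hb
    · have : u (i + 1) ≤ u j := by
        rcases Nat.lt_or_ge (i + 1) j with h | h
        · exact (hu2 _ _ h (by omega)).le
        · have : i + 1 = j := by omega
          rw [this]
      linarith

/-- A separated family of `n` bands at level `k`. -/
def BandFam (lam : ℝ) (d : ℕ → ℕ) (k n : ℕ) : Prop :=
  ∃ l r : Fin n → ℝ, (∀ i, Band lam d k (l i) (r i)) ∧
    ∀ i j, i ≠ j → ∃ s, Esc lam d k s ∧ ((r i < s ∧ s < l j) ∨ (r j < s ∧ s < l i))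

lemma bandFam_zero {lam : ℝ} (d : ℕ → ℕ) : BandFam lam d 0 1 := by
  refine ⟨fun _ => -2, fun _ => 2, fun i => ⟨by norm_num, ?_, ?_, ?_⟩, ?_⟩
  · intro E hE; simpa [abs_le] using hE
  · intro E hE; simp
  · right; simp
  · intro i j hij; exact absurd (Subsingleton.elim i j) hij

lemma BandFam.succ {lam : ℝ} (hlam : 4 < lam) {d : ℕ → ℕ} {k n : ℕ} (h : BandFam lam d k n)
    (ha : 1 ≤ d k) : BandFam lam d (k + 1) (n * (d k - 1)) := by
  obtain ⟨l, r, h1, h2⟩ := h
  choose l' r' hb hs using fun i => (h1 i).exists_subbands hlam ha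
  let e : Fin n × Fin (d k - 1) ≃ Fin (n * (d k - 1)) := finProdFinEquiv
  refine ⟨fun i => l' (e.symm i).1 (e.symm i).2, fun i => r' (e.symm i).1 (e.symm i).2, ?_, ?_⟩
  · intro i
    exact (hb (e.symm i).1 (e.symm i).2 (by have := (e.symm i).2.2; omega)).1
  · intro i j hij
    set p := e.symm i with hp
    set q := e.symm j with hq
    have hpq : p ≠ q := fun h => hij (e.symm.injective h)
    have hp2 : (p.2 : ℕ) + 1 < d k := by have := p.2.2; omega
    have hq2 : (q.2 : ℕ) + 1 < d k := by have := q.2.2; omega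
    by_cases h3 : p.1 = q.1
    · have h4 : (p.2 : ℕ) ≠ q.2 := by
        intro h5
        exact hpq (Prod.ext h3 (Fin.ext h5))
      rcases lt_or_gt_of_ne h4 with h5 | h5
      · obtain ⟨s, s1, s2, s3⟩ := hs p.1 p.2 q.2 h5 hq2
        refine ⟨s, s1, Or.inl ⟨s2, ?_⟩⟩
        change s < l' q.1 q.2
        rw [← h3]; exact s3
      · obtain ⟨s, s1, s2, s3⟩ := hs p.1 q.2 p.2 h5 hp2
        refine ⟨s, s1, Or.inr ⟨?_, s3⟩⟩
        change r' q.1 q.2 < s
        rw [← h3]; exact s2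
    · obtain ⟨s, s1, s2⟩ := h2 p.1 q.1 h3
      refine ⟨s, s1.succ ha, ?_⟩
      obtain ⟨b1, b2, b3⟩ := hb p.1 p.2 hp2
      obtain ⟨c1, c2, c3⟩ := hb q.1 q.2 hq2
      rcases s2 with ⟨s2, s3⟩ | ⟨s2, s3⟩
      · exact Or.inl ⟨by linarith, by linarith⟩
      · exact Or.inr ⟨by linarith, by linarith⟩

end Pool.Agent.Hhelper97.Sturm
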