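import Pool.Agent.Hhelper97.Sturm.Magic

set_option autoImplicit false

namespace Pool.Agent.Hhelper97.Sturm

open Matrix

lemma norm_le_sum_of_support {G : L2} {S : Finset ℤ} (h : ∀ n ∉ S, G n = 0) :
    ‖G‖ ≤ ∑ n ∈ S, ‖G n‖ := by
  have h1 : G = ∑ n ∈ S, lp.single 2 n (G n) := by
    ext m
    rw [lp.coeFn_sum, Finset.sum_apply]
    by_cases hm : m ∈ S
    · rw [Finset.sum_eq_single m]
      · rw [lp.single_apply_self]
      · intro b _ hb
        exact lp.single_apply_ne _ _ _ (Ne.symm hb)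
      · intro h; exact absurd hm h
    · rw [h m hm, Finset.sum_eq_zero]
      intro b hb
      exact lp.single_apply_ne _ _ _ (fun hc => hm (hc ▸ hb))
  calc ‖G‖ = ‖∑ n ∈ S, lp.single 2 n (G n)‖ := by rw [← h1]
    _ ≤ ∑ n ∈ S, ‖lp.single (E := fun _ : ℤ => ℂ) 2 n (G n)‖ := norm_sum_le _ _
    _ = ∑ n ∈ S, ‖G n‖ := by
      apply Finset.sum_congr rfl
      intro n _
      exact lp.norm_single (E := fun _ : ℤ => ℂ) (p := 2) (by norm_num) n (G n)

lemma sum_sq_le_norm_sq (v : L2) {ι : Type*} (s : Finset ι) (g : ι → ℤ)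
    (hg : Set.InjOn g s) : ∑ j ∈ s, ‖v (g j)‖ ^ 2 ≤ ‖v‖ ^ 2 := by
  classical
  have h1 := lp.sum_rpow_le_norm_rpow (E := fun _ : ℤ => ℂ) two_toReal_pos v (s.image g)
  rw [Finset.sum_image hg] at h1
  have h2 : ((2 : ENNReal).toReal) = (2 : ℝ) := by norm_num
  simp only [h2, Real.rpow_two] at h1
  exact h1

lemma exists_unimodular (x : ℝ) (hx : |x| ≤ 2) :
    ∃ ζ : ℂ, ‖ζ‖ = 1 ∧ ζ ^ 2 - (x : ℂ) * ζ + 1 = 0 := by
  have hx2 : x ^ 2 ≤ 4 := by
    have := abs_le.mp hx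
    nlinarith
  have hs : (Real.sqrt (1 - x ^ 2 / 4)) ^ 2 = 1 - x ^ 2 / 4 := Real.sq_sqrt (by linarith)
  refine ⟨⟨x / 2, Real.sqrt (1 - x ^ 2 / 4)⟩, ?_, ?_⟩
  · rw [Complex.norm_def, Complex.normSq_mk]
    rw [show x / 2 * (x / 2) + √(1 - x ^ 2 / 4) * √(1 - x ^ 2 / 4)
      = x ^ 2 / 4 + (√(1 - x ^ 2 / 4)) ^ 2 by ring, hs]
    simp
  · apply Complex.ext
    · have hs' : √(1 - x * x / 4) * √(1 - x * x / 4) = 1 - x * x / 4 :=
        Real.mul_self_sqrt (by nlinarith)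
      simp [sq]
      rw [hs']
      ring
    · simp [sq]
      ring

lemma exists_floquet (M : Matrix (Fin 2) (Fin 2) ℂ) (hdet : M.det = 1) (x : ℝ)
    (htr : M.trace = (x : ℂ)) (hx : |x| ≤ 2) :
    ∃ (ζ : ℂ) (w : Fin 2 → ℂ), ‖ζ‖ = 1 ∧ w ≠ 0 ∧ M *ᵥ w = ζ • w := by
  obtain ⟨ζ, hζ1, hζ2⟩ := exists_unimodular x hx
  have h0 : (M - ζ • (1 : Matrix (Fin 2) (Fin 2) ℂ)).det = 0 := by
    rw [det_fin_two] at hdet ⊢
    rw [trace_fin_two] at htr
    simp
    rw [← hζ2, ← htr]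
    linear_combination hdet
  obtain ⟨w, hw0, hw⟩ := exists_mulVec_eq_zero_iff.mpr h0
  refine ⟨ζ, w, hζ1, hw0, ?_⟩
  rw [sub_mulVec, smul_mulVec, one_mulVec, sub_eq_zero] at hw
  exact hw

lemma bloch {V V' : ℤ → ℝ} {C₀ : ℝ} (hV : ∀ n, |V n| ≤ C₀) {q : ℕ} (hq : 1 ≤ q)
    (hper : ∀ n, V' (n + q) = V' n) {E x : ℝ} (hx : |x| ≤ 2)
    (htr : (Pm (E : ℂ) (fun n => ((V' n : ℝ) : ℂ)) 0 q).trace = (x : ℂ))
    {m : ℕ} (hm : 2 ≤ m) {n₀ : ℤ} (hwin : ∀ i : ℕ, i < m * q → V (n₀ + i) = V' i) :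
    ∃ v : L2, v ≠ 0 ∧ ‖HV V hV v - (E : ℂ) • v‖ ≤ 4 / Real.sqrt m * ‖v‖ := by
  set Vc : ℤ → ℂ := fun n => ((V' n : ℝ) : ℂ) with hVc
  obtain ⟨ζ, w, hζ, hw0, hw⟩ := exists_floquet _ (det_Pm (E : ℂ) Vc 0 q) x htr hx
  set ψ2 : ℕ → Fin 2 → ℂ := fun n => Pm (E : ℂ) Vc 0 n *ᵥ w with hψ2
  have hstep0 : ∀ n, ψ2 (n + 1) 0 = ((E : ℂ) - Vc n) * ψ2 n 0 - ψ2 n 1 := by
    intro n
    simp only [hψ2, Pm_succ]
    rw [← mulVec_mulVec]
    simp [Tm, mulVec, dotProduct, Fin.sum_univ_two, sub_eq_add_neg]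
  have hstep1 : ∀ n, ψ2 (n + 1) 1 = ψ2 n 0 := by
    intro n
    simp only [hψ2, Pm_succ]
    rw [← mulVec_mulVec]
    simp [Tm, mulVec, dotProduct, Fin.sum_univ_two]
  have hVcper : ∀ n, Vc (n + q) = Vc n := fun n => by simp only [hVc, hper]
  have hjq : ∀ j : ℕ, ψ2 (j * q) = ζ ^ j • w := by
    intro j
    simp only [hψ2]
    rw [Pm_pow _ _ _ _ _ hVcper]
    induction j with
    | zero => simp
    | succ j ih => rw [pow_succ, ← mulVec_mulVec, hw, mulVec_smul, ih, smul_smul, pow_succ']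
  have hjqn : ∀ (j : ℕ) (i : Fin 2), ‖ψ2 (j * q) i‖ = ‖w i‖ := by
    intro j i
    rw [hjq, Pi.smul_apply, norm_smul, norm_pow, hζ, one_pow, one_mul]
  set N := m * q with hN
  have hN2 : 2 ≤ N := by nlinarith
  -- the truncated solution
  set F : ℤ → ℂ := fun n => if 0 ≤ n - n₀ ∧ n - n₀ < N then ψ2 (n - n₀).toNat 0 else 0 with hF
  have hFin : ∀ j : ℕ, j < N → F (n₀ + j) = ψ2 j 0 := by
    intro j hj
    simp only [hF]
    rw [if_pos ⟨by omega, by omega⟩]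
    congr 2
    omega
  have hFout : ∀ i : ℤ, (i < 0 ∨ (N : ℤ) ≤ i) → F (n₀ + i) = 0 := by
    intro i hi
    simp only [hF]
    rw [if_neg]
    rintro ⟨h1, h2⟩
    omega
  have hFmem : Memℓp F 2 := by
    refine (memℓp_zero ?_).of_exponent_ge (zero_le (a := (2 : ENNReal)))
    apply (Set.finite_Ico n₀ (n₀ + N)).subset
    intro n hn
    by_contra hcon
    apply hn
    have := hFout (n - n₀) (by
      simp only [Set.mem_Ico, not_and_or, not_le, not_lt] at hcon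
      omega)
    rwa [add_sub_cancel] at this
  set v : L2 := ⟨F, hFmem⟩ with hv
  have hvF : ∀ n, v n = F n := fun n => rfl
  -- lower bounds
  have hinj0 : Set.InjOn (fun j : ℕ => n₀ + ((j * q : ℕ) : ℤ)) (Finset.range m) := by
    intro a _ b _ hab
    simp only at hab
    have h1 : ((a * q : ℕ) : ℤ) = ((b * q : ℕ) : ℤ) := by linarith
    have h2 : a * q = b * q := by exact_mod_cast h1
    exact Nat.eq_of_mul_eq_mul_right hq h2
  have hinj1 : Set.InjOn (fun j : ℕ => n₀ + (((j + 1) * q - 1 : ℕ) : ℤ)) (Finset.range m) := by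
    intro a _ b _ hab
    simp only at hab
    have h1 : (((a + 1) * q - 1 : ℕ) : ℤ) = (((b + 1) * q - 1 : ℕ) : ℤ) := by linarith
    have h2 : (a + 1) * q - 1 = (b + 1) * q - 1 := by exact_mod_cast h1
    have ha : 1 ≤ (a + 1) * q := by nlinarith
    have hb : 1 ≤ (b + 1) * q := by nlinarith
    have h3 : (a + 1) * q = (b + 1) * q := by omega
    have := Nat.eq_of_mul_eq_mul_right hq h3
    omega
  have hlow0 : (m : ℝ) * ‖w 0‖ ^ 2 ≤ ‖v‖ ^ 2 := by
    have h1 := sum_sq_le_norm_sq v (Finset.range m) _ hinj0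
    refine le_trans (le_of_eq ?_) h1
    rw [Finset.sum_congr rfl (g := fun _ => ‖w 0‖ ^ 2)]
    · simp
    · intro j hj
      have hj' := Finset.mem_range.mp hj
      rw [hvF, hFin (j * q) (by rw [hN]; exact Nat.mul_lt_mul_of_pos_right hj' hq), hjqn]
  have hlow1 : (m : ℝ) * ‖w 1‖ ^ 2 ≤ ‖v‖ ^ 2 := by
    have h1 := sum_sq_le_norm_sq v (Finset.range m) _ hinj1
    refine le_trans (le_of_eq ?_) h1
    rw [Finset.sum_congr rfl (g := fun _ => ‖w 1‖ ^ 2)]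
    · simp
    · intro j hj
      have hj' := Finset.mem_range.mp hj
      have h3 : 1 ≤ (j + 1) * q := by nlinarith
      have h4 : (j + 1) * q ≤ N := by rw [hN]; exact Nat.mul_le_mul_right q hj'
      rw [hvF, hFin ((j + 1) * q - 1) (by omega), ← hstep1, Nat.sub_add_cancel h3, hjqn]
  -- the error
  set G : L2 := HV V hV v - (E : ℂ) • v with hG
  have hGapp : ∀ n, G n = F (n + 1) + F (n - 1) + ((V n : ℂ) - E) * F n := by
    intro n
    change HV V hV v n - (E : ℂ) * v n = _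
    rw [HV_apply, hvF, hvF, hvF]
    ring
  have hVwin : ∀ i : ℕ, i < N → ((V (n₀ + i) : ℝ) : ℂ) = Vc i := fun i hi => by
    rw [hwin i hi]
  have hG1 : G (n₀ - 1) = w 0 := by
    rw [hGapp]
    have e1 := hFin 0 (by omega)
    have e2 := hFout (-2) (Or.inl (by norm_num))
    have e3 := hFout (-1) (Or.inl (by norm_num))
    rw [show n₀ - 1 + 1 = n₀ + ((0 : ℕ) : ℤ) by push_cast; ring, e1,
      show n₀ - 1 - 1 = n₀ + (-2) by ring, e2, show n₀ - 1 = n₀ + (-1) by ring, e3]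
    simp [hψ2]
  have hG2 : G n₀ = - w 1 := by
    rw [hGapp]
    have e1 := hFin 1 (by omega)
    have e2 := hFout (-1) (Or.inl (by norm_num))
    have e3 := hFin 0 (by omega)
    have e4 := hVwin 0 (by omega)
    rw [Nat.cast_zero, add_zero] at e3 e4
    rw [Nat.cast_one] at e1
    rw [e1, show n₀ - 1 = n₀ + (-1) by ring, e2, e3, e4]
    have e5 := hstep0 0
    rw [zero_add] at e5
    rw [e5]
    simp [hψ2]
    ring
  have hG3 : ‖G (n₀ + N - 1)‖ = ‖w 0‖ := by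
    rw [hGapp]
    obtain ⟨M, hM⟩ : ∃ M, N = M + 2 := ⟨N - 2, by omega⟩
    have e1 := hFout N (Or.inr (le_refl _))
    have e2 := hFin M (by omega)
    have e3 := hFin (M + 1) (by omega)
    have e4 := hVwin (M + 1) (by omega)
    rw [show n₀ + (N : ℤ) - 1 + 1 = n₀ + N by ring, e1,
      show n₀ + (N : ℤ) - 1 - 1 = n₀ + (M : ℕ) by rw [hM]; push_cast; ring, e2,
      show n₀ + (N : ℤ) - 1 = n₀ + ((M + 1 : ℕ) : ℤ) by rw [hM]; push_cast; ring, e3, e4]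
    have e5 := hstep0 (M + 1)
    rw [hstep1 M] at e5
    have e6 : (0 : ℂ) + ψ2 M 0 + (Vc ((M + 1 : ℕ) : ℤ) - E) * ψ2 (M + 1) 0 = - ψ2 (M + 1 + 1) 0 := by
      rw [e5]; ring
    rw [e6, norm_neg, show M + 1 + 1 = m * q by omega, hjqn]
  have hG4 : ‖G (n₀ + N)‖ = ‖w 1‖ := by
    rw [hGapp]
    obtain ⟨M, hM⟩ : ∃ M, N = M + 2 := ⟨N - 2, by omega⟩
    have e1 := hFout (N + 1) (Or.inr (by omega))
    have e2 := hFin (M + 1) (by omega)
    have e3 := hFout N (Or.inr (le_refl _))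
    rw [show n₀ + (N : ℤ) + 1 = n₀ + (N + 1) by ring, e1,
      show n₀ + (N : ℤ) - 1 = n₀ + ((M + 1 : ℕ) : ℤ) by rw [hM]; push_cast; ring, e2, e3,
      ← hstep1, show M + 1 + 1 = m * q by omega]
    simp [hjqn]
  have hG0 : ∀ n ∉ ({n₀ - 1, n₀, n₀ + N - 1, n₀ + N} : Finset ℤ), G n = 0 := by
    intro n hn
    simp only [Finset.mem_insert, Finset.mem_singleton, not_or] at hn
    obtain ⟨h1, h2, h3, h4⟩ := hn
    rw [hGapp]
    rcases lt_or_ge n n₀ with h5 | h5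
    · have e1 := hFout (n + 1 - n₀) (Or.inl (by omega))
      have e2 := hFout (n - 1 - n₀) (Or.inl (by omega))
      have e3 := hFout (n - n₀) (Or.inl (by omega))
      rw [add_sub_cancel] at e1 e2 e3
      rw [e1, e2, e3]; ring
    · rcases lt_or_ge n (n₀ + N) with h6 | h6
      · obtain ⟨j, hj⟩ : ∃ j : ℕ, n = n₀ + ((j + 1 : ℕ) : ℤ) :=
          ⟨(n - n₀ - 1).toNat, by push_cast; omega⟩
        have hjN : j + 2 < N := by rw [hj] at h3 h6; push_cast at h3 h6; omega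
        have e1 := hFin (j + 2) hjN
        have e2 := hFin j (by omega)
        have e3 := hFin (j + 1) (by omega)
        have e4 := hVwin (j + 1) (by omega)
        rw [hj, show n₀ + ((j + 1 : ℕ) : ℤ) + 1 = n₀ + ((j + 2 : ℕ) : ℤ) by push_cast; ring, e1,
          show n₀ + ((j + 1 : ℕ) : ℤ) - 1 = n₀ + (j : ℤ) by push_cast; ring, e2, e3, e4]
        have e5 := hstep0 (j + 1)
        rw [hstep1 j] at e5
        rw [show j + 2 = j + 1 + 1 from rfl, e5]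
        ring
      · have e1 := hFout (n + 1 - n₀) (Or.inr (by omega))
        have e2 := hFout (n - 1 - n₀) (Or.inr (by omega))
        have e3 := hFout (n - n₀) (Or.inr (by omega))
        rw [add_sub_cancel] at e1 e2 e3
        rw [e1, e2, e3]; ring
  have hGnorm : ‖G‖ ≤ 2 * (‖w 0‖ + ‖w 1‖) := by
    refine (norm_le_sum_of_support hG0).trans (le_of_eq ?_)
    rw [Finset.sum_insert, Finset.sum_insert, Finset.sum_insert, Finset.sum_singleton, hG1, hG2,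
      hG3, hG4, norm_neg]
    · ring
    · simp only [Finset.mem_singleton]; omega
    · simp only [Finset.mem_insert, Finset.mem_singleton, not_or]
      constructor <;> omega
    · simp only [Finset.mem_insert, Finset.mem_singleton, not_or]
      refine ⟨?_, ?_, ?_⟩ <;> omega
  have hmpos : (0 : ℝ) < m := by positivity
  have hsm : 0 < Real.sqrt m := Real.sqrt_pos.mpr hmpos
  have hk : ∀ i : Fin 2, (m : ℝ) * ‖w i‖ ^ 2 ≤ ‖v‖ ^ 2 → ‖w i‖ ≤ ‖v‖ / Real.sqrt m := by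
    intro i hi
    rw [le_div_iff₀ hsm]
    have : (‖w i‖ * Real.sqrt m) ^ 2 ≤ ‖v‖ ^ 2 := by
      rw [mul_pow, Real.sq_sqrt hmpos.le]; linarith
    exact (sq_le_sq₀ (by positivity) (norm_nonneg _)).mp this
  refine ⟨v, ?_, ?_⟩
  · intro h0
    rw [h0, norm_zero] at hlow0 hlow1
    apply hw0
    ext i
    fin_cases i
    · have : ‖w 0‖ ^ 2 ≤ 0 := by nlinarith
      have : ‖w 0‖ = 0 := by nlinarith [norm_nonneg (w 0)]
      simpa using this
    · have : ‖w 1‖ ^ 2 ≤ 0 := by nlinarith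
      have : ‖w 1‖ = 0 := by nlinarith [norm_nonneg (w 1)]
      simpa using this
  · have h1 := hk 0 hlow0
    have h2 := hk 1 hlow1
    calc ‖G‖ ≤ 2 * (‖w 0‖ + ‖w 1‖) := hGnorm
      _ ≤ 2 * (‖v‖ / Real.sqrt m + ‖v‖ / Real.sqrt m) := by gcongr
      _ = 4 / Real.sqrt m * ‖v‖ := by ring

end Pool.Agent.Hhelper97.Sturm
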