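import Pool.Agent.Hhelper97.Sturm.Words

set_option autoImplicit false

namespace Pool.Agent.Hhelper97.Sturm

open Filter Topology

/-- convergent `p_k / q_k` -/
noncomputable def rk (d : ℕ → ℕ) (k : ℕ) : ℝ := ((pp d k).2 : ℝ) / ((qq d k).2 : ℝ)

lemma qq_pos' (d : ℕ → ℕ) (hd : ∀ i, 1 ≤ d i) (k : ℕ) : (0 : ℝ) < ((qq d k).2 : ℝ) := by
  exact_mod_cast qq_pos d hd k

lemma qq_ge (d : ℕ → ℕ) (hd : ∀ i, 1 ≤ d i) (k : ℕ) : k ≤ (qq d k).2 := by
  induction k with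
  | zero => simp
  | succ k ih =>
    cases k with
    | zero => exact qq_pos d hd 1
    | succ k =>
      have h1 : (qq d (k + 1 + 1)).2 = d (k + 1) * (qq d (k + 1)).2 + (qq d (k + 1)).1 := rfl
      have h2 := qq_fst_pos d hd k
      have h3 := hd (k + 1)
      rw [h1]
      nlinarith

lemma rk_sub (d : ℕ → ℕ) (hd : ∀ i, 1 ≤ d i) (k : ℕ) :
    rk d (k + 1) - rk d k = (-1) ^ k / (((qq d k).2 : ℝ) * ((qq d (k + 1)).2 : ℝ)) := by
  have h1 := qq_pos' d hd k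
  have h2 := qq_pos' d hd (k + 1)
  have h3 := pq_det d (k + 1)
  have h4 : ((pp d (k + 1)).1 : ℤ) = (pp d k).2 := rfl
  have h5 : ((qq d (k + 1)).1 : ℤ) = (qq d k).2 := rfl
  rw [h4, h5] at h3
  have h6 : (((pp d k).2 : ℝ) * (qq d (k + 1)).2 - (pp d (k + 1)).2 * (qq d k).2)
      = (-1) ^ (k + 1) := by exact_mod_cast h3
  unfold rk
  rw [div_sub_div _ _ h2.ne' h1.ne', div_eq_div_iff (by positivity) (by positivity)]
  rw [pow_succ] at h6
  have h7 : ((pp d (k + 1)).2 : ℝ) * (qq d k).2 - (qq d (k + 1)).2 * (pp d k).2 = (-1) ^ k := by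
    linarith
  rw [h7]; ring

lemma qq_lt (d : ℕ → ℕ) (hd : ∀ i, 1 ≤ d i) (k : ℕ) :
    ((qq d (k + 1)).2 : ℝ) < ((qq d (k + 2)).2 : ℝ) := by
  have h1 : (qq d (k + 2)).2 = d (k + 1) * (qq d (k + 1)).2 + (qq d (k + 1)).1 := rfl
  have h2 := qq_fst_pos d hd k
  have h3 := hd (k + 1)
  have : (qq d (k + 1)).2 < (qq d (k + 2)).2 := by rw [h1]; nlinarith
  exact_mod_cast this

/-- `r_{k+2} - r_k` has sign `(-1)^k` -/
lemma rk_two (d : ℕ → ℕ) (hd : ∀ i, 1 ≤ d i) (k : ℕ) :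
    0 < (-1) ^ k * (rk d (k + 2) - rk d k) := by
  have h1 := rk_sub d hd k
  have h2 := rk_sub d hd (k + 1)
  have q0 := qq_pos' d hd k
  have q1 := qq_pos' d hd (k + 1)
  have q2 := qq_pos' d hd (k + 2)
  have hle : ((qq d k).2 : ℝ) < ((qq d (k + 2)).2 : ℝ) := by
    have h5 : (qq d (k + 1)).1 = (qq d k).2 := rfl
    have h6 := qq_fst_le d hd (k + 1)
    rw [h5] at h6
    have h7 : ((qq d k).2 : ℝ) ≤ ((qq d (k + 1)).2 : ℝ) := by exact_mod_cast h6
    exact lt_of_le_of_lt h7 (qq_lt d hd k)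
  have h3 : rk d (k + 2) - rk d k = (rk d (k + 1 + 1) - rk d (k + 1)) + (rk d (k + 1) - rk d k) := by
    ring_nf
  rw [h3, h1, h2]
  have hsq : ((-1 : ℝ) ^ k) * ((-1) ^ k) = 1 := by rw [← mul_pow]; simp
  have h4 : (-1 : ℝ) ^ k * ((-1) ^ (k + 1) / (((qq d (k + 1)).2 : ℝ) * ((qq d (k + 1 + 1)).2 : ℝ))
      + (-1) ^ k / (((qq d k).2 : ℝ) * ((qq d (k + 1)).2 : ℝ)))
      = ((-1 : ℝ) ^ k * (-1) ^ k) * (1 / (((qq d k).2 : ℝ) * ((qq d (k + 1)).2 : ℝ))
        - 1 / (((qq d (k + 1)).2 : ℝ) * ((qq d (k + 2)).2 : ℝ))) := by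
    rw [pow_succ]; ring
  rw [h4, hsq, one_mul, sub_pos]
  apply one_div_lt_one_div_of_lt (by positivity)
  nlinarith

lemma rk_even_mono (d : ℕ → ℕ) (hd : ∀ i, 1 ≤ d i) : StrictMono (fun j => rk d (2 * j)) := by
  apply strictMono_nat_of_lt_succ
  intro j
  have := rk_two d hd (2 * j)
  rw [Even.neg_one_pow ⟨j, by ring⟩, one_mul] at this
  have h2 : 2 * (j + 1) = 2 * j + 2 := by ring
  rw [h2]; linarith

lemma rk_odd_anti (d : ℕ → ℕ) (hd : ∀ i, 1 ≤ d i) : StrictAnti (fun j => rk d (2 * j + 1)) := by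
  apply strictAnti_nat_of_succ_lt
  intro j
  have := rk_two d hd (2 * j + 1)
  rw [Odd.neg_one_pow ⟨j, by ring⟩] at this
  have h2 : 2 * (j + 1) + 1 = 2 * j + 1 + 2 := by ring
  rw [h2]; linarith

lemma rk_even_lt_odd (d : ℕ → ℕ) (hd : ∀ i, 1 ≤ d i) (i j : ℕ) :
    rk d (2 * i) < rk d (2 * j + 1) := by
  have h1 : rk d (2 * i) ≤ rk d (2 * (max i j)) :=
    (rk_even_mono d hd).monotone (le_max_left i j)
  have h2 : rk d (2 * (max i j) + 1) ≤ rk d (2 * j + 1) :=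
    (rk_odd_anti d hd).antitone (le_max_right i j)
  have h3 := rk_sub d hd (2 * max i j)
  rw [Even.neg_one_pow ⟨max i j, by ring⟩] at h3
  have q0 := qq_pos' d hd (2 * max i j)
  have q1 := qq_pos' d hd (2 * max i j + 1)
  have h4 : 0 < rk d (2 * max i j + 1) - rk d (2 * max i j) := by rw [h3]; positivity
  linarith

/-- The number with digits `d`. -/
noncomputable def cfv (d : ℕ → ℕ) : ℝ := ⨆ j, rk d (2 * j)

lemma cfv_even (d : ℕ → ℕ) (hd : ∀ i, 1 ≤ d i) (j : ℕ) : rk d (2 * j) < cfv d := by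
  have hb : BddAbove (Set.range fun j => rk d (2 * j)) :=
    ⟨rk d 1, by rintro _ ⟨i, rfl⟩; exact (rk_even_lt_odd d hd i 0).le⟩
  calc rk d (2 * j) < rk d (2 * (j + 1)) := rk_even_mono d hd (Nat.lt_succ_self j)
    _ ≤ cfv d := le_ciSup hb (j + 1)

lemma cfv_odd (d : ℕ → ℕ) (hd : ∀ i, 1 ≤ d i) (j : ℕ) : cfv d < rk d (2 * j + 1) := by
  calc cfv d ≤ rk d (2 * (j + 1) + 1) := ciSup_le (fun i => (rk_even_lt_odd d hd i (j + 1)).le)
    _ < rk d (2 * j + 1) := rk_odd_anti d hd (Nat.lt_succ_self j)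

/-- position of `cfv d` relative to the convergents -/
lemma cfv_approx (d : ℕ → ℕ) (hd : ∀ i, 1 ≤ d i) (k : ℕ) :
    0 < (-1) ^ k * (cfv d - rk d k) ∧
      (-1) ^ k * (cfv d - rk d k) < 1 / (((qq d k).2 : ℝ) * ((qq d (k + 1)).2 : ℝ)) := by
  have h := rk_sub d hd k
  rcases Nat.even_or_odd k with he | ho
  · obtain ⟨j, hj⟩ := he
    have hj' : k = 2 * j := by omega
    have h1 := cfv_even d hd j
    have h2 := cfv_odd d hd j
    rw [Even.neg_one_pow ⟨j, hj⟩] at h ⊢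
    rw [← hj'] at h1 h2
    rw [one_mul]
    constructor
    · linarith
    · rw [← h]; linarith
  · obtain ⟨j, hj⟩ := ho
    have h1 := cfv_even d hd (j + 1)
    have h2 := cfv_odd d hd j
    rw [Odd.neg_one_pow ⟨j, hj⟩] at h ⊢
    rw [← hj] at h2
    rw [show 2 * (j + 1) = k + 1 by omega] at h1
    constructor
    · linarith
    · have : 1 / (((qq d k).2 : ℝ) * ((qq d (k + 1)).2 : ℝ))
          = -((-1) / (((qq d k).2 : ℝ) * ((qq d (k + 1)).2 : ℝ))) := by ring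
      rw [this, ← h]; linarith

lemma cfv_mem (d : ℕ → ℕ) (hd : ∀ i, 1 ≤ d i) : cfv d ∈ Set.Ioo (0 : ℝ) 1 := by
  have h1 := cfv_even d hd 0
  have h2 := cfv_odd d hd 0
  constructor
  · simpa [rk, pp, qq] using h1
  · refine h2.trans_le ?_
    simp only [rk, pp, qq]
    have : (1 : ℝ) ≤ d 0 := by exact_mod_cast hd 0
    simp
    rw [inv_le_one₀ (by linarith)]
    exact this

lemma tendsto_rk (d : ℕ → ℕ) (hd : ∀ i, 1 ≤ d i) : Tendsto (rk d) atTop (𝓝 (cfv d)) := by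
  rw [tendsto_iff_dist_tendsto_zero]
  have h1 : ∀ k, dist (rk d k) (cfv d) ≤ 1 / ((k : ℝ) + 1) := by
    intro k
    obtain ⟨h1, h2⟩ := cfv_approx d hd k
    rw [Real.dist_eq, abs_sub_comm]
    have h3 : |cfv d - rk d k| = (-1) ^ k * (cfv d - rk d k) := by
      have : |(-1) ^ k * (cfv d - rk d k)| = |cfv d - rk d k| := by
        rw [abs_mul, abs_pow]; simp
      rw [← this, abs_of_pos h1]
    rw [h3]
    refine h2.le.trans ?_
    apply one_div_le_one_div_of_le (by positivity)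
    have q0 : (1 : ℝ) ≤ ((qq d k).2 : ℝ) := by exact_mod_cast qq_pos d hd k
    have q1 : ((k : ℝ) + 1) ≤ ((qq d (k + 1)).2 : ℝ) := by exact_mod_cast qq_ge d hd (k + 1)
    nlinarith
  exact squeeze_zero (fun k => dist_nonneg) h1 tendsto_one_div_add_atTop_nhds_zero_nat

lemma irrational_cfv (d : ℕ → ℕ) (hd : ∀ i, 1 ≤ d i) : Irrational (cfv d) := by
  rintro ⟨x, hx⟩
  -- x = a / b
  set b : ℕ := x.den with hb
  have hbpos : (0 : ℝ) < b := by exact_mod_cast x.den_pos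
  have hxb : cfv d * b = x.num := by
    rw [← hx]
    exact_mod_cast Rat.mul_den_eq_num x
  obtain ⟨h1, h2⟩ := cfv_approx d hd b
  have q0 := qq_pos' d hd b
  have q1 := qq_pos' d hd (b + 1)
  have hq1 : ((b : ℝ) + 1) ≤ ((qq d (b + 1)).2 : ℝ) := by exact_mod_cast qq_ge d hd (b + 1)
  -- the integer N = (-1)^b (x.num q - p b)
  set N : ℤ := (-1) ^ b * (x.num * (qq d b).2 - (pp d b).2 * b) with hN
  have hNr : (N : ℝ) = ((-1) ^ b * (cfv d - rk d b)) * (((qq d b).2 : ℝ) * b) := by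
    rw [hN]
    push_cast
    rw [← hxb, rk]
    field_simp
  have hNpos : (0 : ℝ) < N := by rw [hNr]; positivity
  have hNlt : (N : ℝ) < 1 := by
    rw [hNr]
    calc ((-1) ^ b * (cfv d - rk d b)) * (((qq d b).2 : ℝ) * b)
        < 1 / (((qq d b).2 : ℝ) * ((qq d (b + 1)).2 : ℝ)) * (((qq d b).2 : ℝ) * b) := by
          apply mul_lt_mul_of_pos_right h2; positivity
      _ = b / ((qq d (b + 1)).2 : ℝ) := by field_simp
      _ < 1 := by rw [div_lt_one q1]; linarith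
  have h3 : 0 < N := by exact_mod_cast hNpos
  have h4 : N < 1 := by exact_mod_cast hNlt
  omega

/-! ### tail recursion -/

lemma pq_shift (d : ℕ → ℕ) (k : ℕ) :
    (pp d (k + 1)).2 = (qq (fun i => d (i + 1)) k).2 ∧
    (pp d (k + 1)).1 = (qq (fun i => d (i + 1)) k).1 ∧
    (qq d (k + 1)).2 = d 0 * (qq (fun i => d (i + 1)) k).2 + (pp (fun i => d (i + 1)) k).2 ∧
    (qq d (k + 1)).1 = d 0 * (qq (fun i => d (i + 1)) k).1 + (pp (fun i => d (i + 1)) k).1 := by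
  induction k with
  | zero => simp [pp, qq]
  | succ k ih =>
    obtain ⟨h1, h2, h3, h4⟩ := ih
    refine ⟨?_, ?_, ?_, ?_⟩
    · have : (pp d (k + 1 + 1)).2 = d (k + 1) * (pp d (k + 1)).2 + (pp d (k + 1)).1 := rfl
      rw [this, h1, h2]; rfl
    · have : (pp d (k + 1 + 1)).1 = (pp d (k + 1)).2 := rfl
      rw [this, h1]; rfl
    · have e1 : (qq d (k + 1 + 1)).2 = d (k + 1) * (qq d (k + 1)).2 + (qq d (k + 1)).1 := rfl
      have e2 : (qq (fun i => d (i + 1)) (k + 1)).2 = d (k + 1) * (qq (fun i => d (i + 1)) k).2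
        + (qq (fun i => d (i + 1)) k).1 := rfl
      have e3 : (pp (fun i => d (i + 1)) (k + 1)).2 = d (k + 1) * (pp (fun i => d (i + 1)) k).2
        + (pp (fun i => d (i + 1)) k).1 := rfl
      rw [e1, e2, e3, h3, h4]; ring
    · have : (qq d (k + 1 + 1)).1 = (qq d (k + 1)).2 := rfl
      rw [this, h3]; rfl

lemma rk_shift (d : ℕ → ℕ) (hd : ∀ i, 1 ≤ d i) (k : ℕ) :
    rk d (k + 1) = 1 / (d 0 + rk (fun i => d (i + 1)) k) := by
  obtain ⟨h1, -, h3, -⟩ := pq_shift d k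
  have hq := qq_pos' (fun i => d (i + 1)) (fun i => hd _) k
  have hd0 : (1 : ℝ) ≤ d 0 := by exact_mod_cast hd 0
  have hp : (0 : ℝ) ≤ ((pp (fun i => d (i + 1)) k).2 : ℝ) := by positivity
  unfold rk
  rw [h1, h3]
  push_cast
  rw [div_eq_div_iff (by positivity) (by positivity)]
  field_simp

lemma cfv_shift (d : ℕ → ℕ) (hd : ∀ i, 1 ≤ d i) :
    cfv d = 1 / (d 0 + cfv (fun i => d (i + 1))) := by
  have h1 := (tendsto_rk d hd).comp (tendsto_add_atTop_nat 1)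
  have h2 := tendsto_rk (fun i => d (i + 1)) (fun i => hd _)
  have hpos : 0 < (d 0 : ℝ) + cfv (fun i => d (i + 1)) := by
    have := (cfv_mem (fun i => d (i + 1)) (fun i => hd _)).1
    positivity
  have h3 : Tendsto (fun k => 1 / ((d 0 : ℝ) + rk (fun i => d (i + 1)) k)) atTop
      (𝓝 (1 / (d 0 + cfv (fun i => d (i + 1))))) :=
    tendsto_const_nhds.div (tendsto_const_nhds.add h2) hpos.ne'
  have h4 : (rk d ∘ fun a => a + 1) = fun k => 1 / ((d 0 : ℝ) + rk (fun i => d (i + 1)) k) := by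
    ext k
    exact rk_shift d hd k
  rw [h4] at h1
  exact tendsto_nhds_unique h1 h3

/-! ### floors and potentials -/

lemma floor_eq_ediv {p q n : ℤ} (hq : 0 < q) {γ : ℝ} (h1 : 0 ≤ n * (γ - (p : ℝ) / q))
    (h2 : n * (γ - (p : ℝ) / q) < 1 / q) : ⌊(n : ℝ) * γ⌋ = (n * p) / q := by
  have hq' : (0 : ℝ) < q := by exact_mod_cast hq
  have e1 := Int.mul_ediv_add_emod (n * p) q
  have e2 := Int.emod_nonneg (n * p) hq.ne'
  have e3 := Int.emod_lt_of_pos (n * p) hq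
  set m := (n * p) / q
  set r := (n * p) % q
  have e1' : (q : ℝ) * m + r = n * p := by exact_mod_cast e1
  have e2' : (0 : ℝ) ≤ r := by exact_mod_cast e2
  have e3' : (r : ℝ) + 1 ≤ q := by exact_mod_cast e3
  have h3 : (n : ℝ) * γ = m + r / q + n * (γ - (p : ℝ) / q) := by
    field_simp
    linarith
  rw [Int.floor_eq_iff, h3]
  constructor
  · have : 0 ≤ (r : ℝ) / q := by positivity
    linarith
  · have : (r : ℝ) / q + 1 / q ≤ 1 := by
      rw [← add_div, div_le_one hq']; exact e3'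
    linarith

/-- The Sturmian potential, as in the problem statement. -/
noncomputable def Va (lam γ : ℝ) (n : ℤ) : ℝ :=
  lam * (if 1 - γ ≤ Int.fract ((n : ℝ) * γ) then (1 : ℝ) else 0)

lemma Va_bound (lam γ : ℝ) (hlam : 0 ≤ lam) (n : ℤ) : |Va lam γ n| ≤ lam := by
  unfold Va
  split_ifs
  · simp [abs_of_nonneg hlam]
  · simpa using hlam

lemma Va_eq (lam : ℝ) {γ : ℝ} (h0 : 0 < γ) (h1 : γ < 1) (n : ℤ) :
    Va lam γ n = lam * (((⌊((n + 1 : ℤ) : ℝ) * γ⌋ - ⌊(n : ℝ) * γ⌋ : ℤ)) : ℝ) := by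
  unfold Va
  congr 1
  have hf0 := Int.fract_nonneg ((n : ℝ) * γ)
  have hf1 := Int.fract_lt_one ((n : ℝ) * γ)
  have hfl := Int.floor_add_fract ((n : ℝ) * γ)
  have he : ((n + 1 : ℤ) : ℝ) * γ = ⌊(n : ℝ) * γ⌋ + (Int.fract ((n : ℝ) * γ) + γ) := by
    push_cast
    linarith
  rw [he, Int.floor_intCast_add]
  split_ifs with h
  · have : ⌊Int.fract ((n : ℝ) * γ) + γ⌋ = 1 := by
      rw [Int.floor_eq_iff]; push_cast; constructor <;> linarith
    rw [this]; push_cast; ring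
  · push Not at h
    have : ⌊Int.fract ((n : ℝ) * γ) + γ⌋ = 0 := by
      rw [Int.floor_eq_iff]; push_cast; constructor <;> linarith
    rw [this]; push_cast; ring

/-- window lemma -/
lemma Va_window (lam : ℝ) (d : ℕ → ℕ) (hd : ∀ i, 1 ≤ d i) (k : ℕ) :
    ∃ n₀ : ℤ, ∀ i : ℕ, i < d k * (qq d k).2 → Va lam (cfv d) (n₀ + i) = Vk lam d k i := by
  obtain ⟨hm0, hm1⟩ := cfv_mem d hd
  obtain ⟨a1, a2⟩ := cfv_approx d hd k
  have hq : (0 : ℤ) < (qq d k).2 := by exact_mod_cast qq_pos d hd k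
  have hqr := qq_pos' d hd k
  have hqr1 := qq_pos' d hd (k + 1)
  have hle : ((d k * (qq d k).2 : ℕ) : ℝ) ≤ ((qq d (k + 1)).2 : ℝ) := by
    have : d k * (qq d k).2 ≤ (qq d (k + 1)).2 := by
      have : (qq d (k + 1)).2 = d k * (qq d k).2 + (qq d k).1 := rfl
      omega
    exact_mod_cast this
  -- floor at multiples
  have key : ∀ n : ℤ, 0 ≤ (-1) ^ k * (n : ℝ) →
      (-1) ^ k * (n : ℝ) ≤ ((d k * (qq d k).2 : ℕ) : ℝ) →
      ⌊(n : ℝ) * cfv d⌋ = (n * ((pp d k).2 : ℤ)) / ((qq d k).2 : ℤ) := by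
    intro n hn1 hn2
    have hsq : ((-1 : ℝ) ^ k) * ((-1) ^ k) = 1 := by rw [← mul_pow]; simp
    have hrk : ((((pp d k).2 : ℕ) : ℤ) : ℝ) / ((((qq d k).2 : ℕ) : ℤ) : ℝ) = rk d k := by
      simp [rk]
    have e : (n : ℝ) * (cfv d - rk d k)
        = ((-1) ^ k * (n : ℝ)) * ((-1) ^ k * (cfv d - rk d k)) := by
      calc (n : ℝ) * (cfv d - rk d k) = ((-1 : ℝ) ^ k * (-1) ^ k) * ((n : ℝ) * (cfv d - rk d k)) := by
            rw [hsq, one_mul]
        _ = _ := by ring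
    apply floor_eq_ediv hq
    · rw [hrk, e]; exact mul_nonneg hn1 a1.le
    · rw [hrk, e]
      rcases hn1.lt_or_eq with h | h
      · calc ((-1) ^ k * (n : ℝ)) * ((-1) ^ k * (cfv d - rk d k))
            < ((-1) ^ k * (n : ℝ)) * (1 / (((qq d k).2 : ℝ) * ((qq d (k + 1)).2 : ℝ))) :=
              mul_lt_mul_of_pos_left a2 h
          _ ≤ ((qq d (k + 1)).2 : ℝ) * (1 / (((qq d k).2 : ℝ) * ((qq d (k + 1)).2 : ℝ))) := by
              apply mul_le_mul_of_nonneg_right (hn2.trans hle); positivity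
          _ = 1 / ((((qq d k).2 : ℕ) : ℤ) : ℝ) := by push_cast; field_simp
      · rw [← h, zero_mul]
        have : (0 : ℝ) < ((((qq d k).2 : ℕ) : ℤ) : ℝ) := by exact_mod_cast hq
        positivity
  rcases Nat.even_or_odd k with he | ho
  · refine ⟨0, fun i hi => ?_⟩
    rw [he.neg_one_pow] at key
    rw [zero_add, Va_eq lam hm0 hm1, key _ (by push_cast; positivity) (by
        rw [one_mul]; exact_mod_cast hi),
      key _ (by push_cast; positivity) (by rw [one_mul]; exact_mod_cast hi.le)]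
    rfl
  · refine ⟨-((d k * (qq d k).2 : ℕ) : ℤ), fun i hi => ?_⟩
    rw [ho.neg_one_pow] at key
    have hir : (i : ℝ) + 1 ≤ ((d k * (qq d k).2 : ℕ) : ℝ) := by exact_mod_cast hi
    rw [Va_eq lam hm0 hm1, key _ (by push_cast at hir ⊢; linarith) (by push_cast; linarith),
      key _ (by push_cast at hir ⊢; linarith) (by push_cast; linarith)]
    have := Vr_period ((pp d k).2 : ℤ) ((qq d k).2 : ℤ) (i : ℤ) (-(d k : ℤ)) hq
    unfold Vk
    rw [← this]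
    unfold Vr
    rw [show (i : ℤ) + -(d k : ℤ) * ((qq d k).2 : ℤ)
      = -((d k * (qq d k).2 : ℕ) : ℤ) + i by push_cast; ring]

/-- pointwise convergence of the floors -/
lemma floor_eventually (d : ℕ → ℕ) (hd : ∀ i, 1 ≤ d i) (n : ℤ) :
    ∀ᶠ k in atTop, ⌊(n : ℝ) * cfv d⌋ = (n * ((pp d k).2 : ℤ)) / ((qq d k).2 : ℤ) := by
  have hfl : ∀ k, (n * ((pp d k).2 : ℤ)) / ((qq d k).2 : ℤ) = ⌊(n : ℝ) * rk d k⌋ := by
    intro k
    have hq : (0 : ℤ) < (qq d k).2 := by exact_mod_cast qq_pos d hd k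
    have hq' : (0 : ℝ) < ((((qq d k).2 : ℕ) : ℤ) : ℝ) := by exact_mod_cast hq
    symm
    apply floor_eq_ediv hq
    · simp [rk]
    · simp only [rk]
      push_cast
      rw [sub_self, mul_zero]
      positivity
  simp_rw [hfl]
  rcases eq_or_ne n 0 with rfl | hn
  · simp
  · have hirr : Irrational ((n : ℝ) * cfv d) := (irrational_cfv d hd).intCast_mul hn
    have h1 : Tendsto (fun k => (n : ℝ) * rk d k) atTop (𝓝 ((n : ℝ) * cfv d)) :=
      (tendsto_rk d hd).const_mul _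
    have h2 : (⌊(n : ℝ) * cfv d⌋ : ℝ) < (n : ℝ) * cfv d :=
      lt_of_le_of_ne (Int.floor_le _) (fun h => hirr ⟨(⌊(n : ℝ) * cfv d⌋ : ℚ), by rw [← h]; simp⟩)
    have h3 : (n : ℝ) * cfv d < ⌊(n : ℝ) * cfv d⌋ + 1 := Int.lt_floor_add_one _
    filter_upwards [h1.eventually (Ioo_mem_nhds h2 h3)] with k hk
    symm
    rw [Int.floor_eq_iff]
    exact ⟨hk.1.le, hk.2⟩

lemma Va_eventually (lam : ℝ) (d : ℕ → ℕ) (hd : ∀ i, 1 ≤ d i) (F : Finset ℤ) :
    ∀ᶠ k in atTop, ∀ n ∈ F, Va lam (cfv d) n = Vk lam d k n := by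
  obtain ⟨hm0, hm1⟩ := cfv_mem d hd
  rw [Filter.eventually_all_finset]
  intro n _
  filter_upwards [floor_eventually d hd n, floor_eventually d hd (n + 1)] with k h1 h2
  rw [Va_eq lam hm0 hm1, h1, h2]
  rfl

end Pool.Agent.Hhelper97.Sturm
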