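import Pool.Agent.Hhelper97.Sturm.SpecCF

set_option autoImplicit false

namespace Pool.Agent.Hhelper97.Sturm

open Filter Topology

/-- Chain lemma. -/
lemma chain {S : Set ℝ} {Pr : ℝ → Prop} {η : ℝ} (hη : 0 < η)
    (hloc : ∀ y ∈ S, ∀ y' ∈ S, |y - y'| ≤ 3 * η → (Pr y ↔ Pr y')) {r e : ℝ} (hre : r ≤ e)
    (hdense : ∀ t ∈ Set.Icc r e, ∃ y ∈ S, |y - t| < η) :
    ∀ y ∈ S, ∀ y' ∈ S, |y - r| < η → |y' - e| < η → (Pr y ↔ Pr y') := by
  have key : ∀ n : ℕ, ∀ e' ∈ Set.Icc r e, e' - r ≤ n * η →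
      ∀ y ∈ S, ∀ y' ∈ S, |y - r| < η → |y' - e'| < η → (Pr y ↔ Pr y') := by
    intro n
    induction n with
    | zero =>
      intro e' he' hn y hy y' hy' h1 h2
      have : e' = r := by
        have := he'.1
        simp at hn
        linarith
      rw [this] at h2
      apply hloc y hy y' hy'
      rw [abs_lt] at h1 h2
      rw [abs_le]
      constructor <;> linarith
    | succ n ih =>
      intro e' he' hn y hy y' hy' h1 h2
      have hm : max r (e' - η) ∈ Set.Icc r e := ⟨le_max_left _ _, max_le hre (by linarith [he'.2])⟩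
      obtain ⟨y'', hy'', h3⟩ := hdense _ hm
      have h4 : max r (e' - η) - r ≤ n * η := by
        rw [sub_le_iff_le_add]
        apply max_le
        · have : 0 ≤ (n : ℝ) * η := by positivity
          linarith
        · push_cast at hn
          linarith
      rw [ih _ hm h4 y hy y'' hy'' h1 h3]
      apply hloc y'' hy'' y' hy'
      have h5 : e' - η ≤ max r (e' - η) := le_max_right _ _
      have h6 : max r (e' - η) ≤ e' := max_le he'.1 (by linarith)
      rw [abs_lt] at h2 h3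
      rw [abs_le]
      constructor <;> linarith
  obtain ⟨n, hn⟩ := exists_nat_ge ((e - r) / η)
  rw [div_le_iff₀ hη] at hn
  exact key n e ⟨hre, le_refl _⟩ hn

/-- left endpoint of a component of `{|f| ≤ 2}` -/
lemma exists_left_endpoint {f : ℝ → ℝ} (hf : Continuous f) {e : ℝ} (he : |f e| ≤ 2)
    (hleft : ∃ t ≤ e, 2 < |f t|) :
    ∃ ρ ≤ e, |f ρ| = 2 ∧ ∀ t ∈ Set.Icc ρ e, |f t| ≤ 2 := by
  set S : Set ℝ := {t | t ≤ e ∧ 2 ≤ |f t|} with hS
  have hSc : IsClosed S := isClosed_Iic.inter (isClosed_le continuous_const hf.abs)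
  obtain ⟨t₀, ht₀, ht₀'⟩ := hleft
  have hSn : S.Nonempty := ⟨t₀, ht₀, ht₀'.le⟩
  have hSb : BddAbove S := ⟨e, fun t ht => ht.1⟩
  obtain ⟨hρ1, hρ2⟩ := hSc.csSup_mem hSn hSb
  set ρ := sSup S with hρ
  have hlt : ∀ t, ρ < t → t ≤ e → |f t| < 2 := by
    intro t h1 h2
    by_contra h
    push Not at h
    have : t ≤ ρ := le_csSup hSb ⟨h2, h⟩
    linarith
  have hρeq : |f ρ| = 2 := by
    apply le_antisymm _ hρ2
    by_contra h
    push Not at h
    have hmem : (2 : ℝ) ∈ Set.Icc (|f e|) (|f ρ|) := ⟨he, h.le⟩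
    obtain ⟨t, ht, hft⟩ := intermediate_value_Icc' hρ1 hf.abs.continuousOn hmem
    have hft' : |f t| = 2 := hft
    have : t ≤ ρ := le_csSup hSb ⟨ht.2, hft'.ge⟩
    have : t = ρ := le_antisymm this ht.1
    rw [this] at hft'
    linarith
  refine ⟨ρ, hρ1, hρeq, ?_⟩
  intro t ht
  rcases ht.1.lt_or_eq with h | h
  · exact (hlt t h ht.2).le
  · rw [← h, hρeq]

/-- far to the left the trace is large -/
lemma exists_left_big {lam : ℝ} (hlam : 0 ≤ lam) {d : ℕ → ℕ} (hd : ∀ i, 1 ≤ d i) (k : ℕ) (e : ℝ) :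
    ∃ t ≤ e, 2 < |Xk t lam d k| := by
  refine ⟨min e (-3), min_le_left _ _, ?_⟩
  have h3 : min e (-3) ≤ -3 := min_le_right _ _
  have : Esc lam d 0 (min e (-3)) := by
    refine ⟨?_, ?_, ?_⟩
    · rw [Xk_zero, abs_of_neg (by linarith)]; linarith
    · rw [Zk_zero, abs_of_neg (by linarith)]; linarith
    · rw [Zk_zero, Yk_zero, abs_of_neg (show min e (-3) - lam < 0 by linarith)]
      norm_num; linarith
  exact (this.of_le hd (Nat.zero_le k)).1

/-- The root assignment. -/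
lemma root_assign {lam : ℝ} (hlam : 0 ≤ lam) {d : ℕ → ℕ} (hd : ∀ i, 1 ≤ d i) (k : ℕ) {η : ℝ}
    (hη : 0 < η)
    (hdense : ∀ e, |Xk e lam d k| ≤ 2 → ∃ y ∈ Sp lam d, |y - e| < η)
    (hcov : ∀ y ∈ Sp lam d, ∃ e, |y - e| < η ∧
        (|Xk e lam d k| ≤ 2 ∨ (Xk e lam d k) ^ 2 = 4 + lam ^ 2))
    {y : ℝ} (hy : y ∈ Sp lam d) :
    ∃ ρ : ℝ, ((Xk ρ lam d k) ^ 2 = 4 ∨ (Xk ρ lam d k) ^ 2 = 4 + lam ^ 2) ∧
      (∃ y' ∈ Sp lam d, |y' - ρ| < η) ∧
      ∀ Pr : ℝ → Prop, (∀ z ∈ Sp lam d, ∀ z' ∈ Sp lam d, |z - z'| ≤ 3 * η → (Pr z ↔ Pr z')) →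
        ∀ y' ∈ Sp lam d, |y' - ρ| < η → (Pr y' ↔ Pr y) := by
  obtain ⟨e, he1, he2⟩ := hcov y hy
  rcases he2 with he2 | he2
  · obtain ⟨ρ, hρ1, hρ2, hρ3⟩ := exists_left_endpoint (continuous_Xk lam d k) he2
      (exists_left_big hlam hd k e)
    refine ⟨ρ, Or.inl ?_, hdense ρ hρ2.le, ?_⟩
    · rw [← sq_abs, hρ2]; norm_num
    · intro Pr hPr y' hy' h1
      exact chain hη hPr hρ1 (fun t ht => hdense t (hρ3 t ht)) y' hy' y hy h1 he1
  · refine ⟨e, Or.inr he2, ⟨y, hy, he1⟩, ?_⟩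
    intro Pr hPr y' hy' h1
    apply hPr y' hy' y hy
    rw [abs_lt] at h1 he1
    rw [abs_le]
    constructor <;> linarith

/-- The main counting argument at one scale. -/
lemma no_lipschitz_at_scale {lam : ℝ} (hlam : 0 ≤ lam) {a b : ℕ → ℕ} (ha : ∀ i, 1 ≤ a i)
    (hb : ∀ i, 1 ≤ b i) (k : ℕ) {n : ℕ} (hn : 4 * (qq b k).2 < n)
    {l : Fin n → ℝ} {δ : ℝ} 
    (hl : ∀ i, |Xk (l i) lam a k| ≤ 2)
    (hsep : ∀ i j, i ≠ j → ∃ s, (∀ t, |t - s| < δ → Esc lam a k t) ∧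
        ((l i < s ∧ s < l j) ∨ (l j < s ∧ s < l i)))
    (hda : ∀ e, |Xk e lam a k| ≤ 2 → ∃ y ∈ Sp lam a, |y - e| < δ)
    {η : ℝ} (hη : 0 < η)
    (hdb : ∀ e, |Xk e lam b k| ≤ 2 → ∃ y ∈ Sp lam b, |y - e| < η)
    (hcov : ∀ y ∈ Sp lam b, ∃ e, |y - e| < η ∧
        (|Xk e lam b k| ≤ 2 ∨ (Xk e lam b k) ^ 2 = 4 + lam ^ 2))
    {L : ℝ} (hLη : 3 * η * L < 2 * δ) {g : ℝ → ℝ}
    (hg : ∀ y ∈ Sp lam b, ∀ y' ∈ Sp lam b, |g y - g y'| ≤ L * |y - y'|)
    (hL : 0 ≤ L)
    (himg : g '' (Sp lam b) = Sp lam a) : False := by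
  classical
  choose e he1 he2 using fun i => hda (l i) (hl i)
  have hpre : ∀ i, ∃ y ∈ Sp lam b, g y = e i := by
    intro i
    have := he1 i
    rw [← himg] at this
    exact this
  choose y hy1 hy2 using hpre
  choose ρ hρ1 hρ2 hρ3 using fun i => root_assign hlam hb k hη hdb hcov (hy1 i)
  obtain ⟨S, hS1, hS2⟩ := exists_roots lam b hb k
  have hmaps : ∀ i ∈ (Finset.univ : Finset (Fin n)), ρ i ∈ S := fun i _ => hS2 _ (hρ1 i)
  have hcard : S.card < (Finset.univ : Finset (Fin n)).card := by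
    rw [Finset.card_univ, Fintype.card_fin]; omega
  obtain ⟨i, -, j, -, hij, hρij⟩ := Finset.exists_ne_map_eq_of_card_lt_of_maps_to hcard hmaps
  obtain ⟨s, hs1, hs2⟩ := hsep i j hij
  -- points of Sp a avoid (s - δ, s + δ)
  have havoid : ∀ t ∈ Sp lam a, δ ≤ |t - s| := by
    intro t ht
    by_contra hlt
    push Not at hlt
    exact not_mem_of_esc hlam ha (hs1 t hlt) ht
  have hlavoid : ∀ i, δ ≤ |l i - s| := by
    intro i
    by_contra hlt
    push Not at hlt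
    have := (hs1 _ hlt).1
    linarith [hl i]
  have hloc : ∀ z ∈ Sp lam b, ∀ z' ∈ Sp lam b, |z - z'| ≤ 3 * η → (g z < s ↔ g z' < s) := by
    have haux : ∀ z ∈ Sp lam b, ∀ z' ∈ Sp lam b, |z - z'| ≤ 3 * η → g z < s → g z' < s := by
      intro z hz z' hz' hzz h1
      by_contra h2
      push Not at h2
      have m1 : g z ∈ Sp lam a := by rw [← himg]; exact ⟨z, hz, rfl⟩
      have m2 : g z' ∈ Sp lam a := by rw [← himg]; exact ⟨z', hz', rfl⟩
      have a1 := havoid _ m1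
      have a2 := havoid _ m2
      rw [abs_of_neg (by linarith)] at a1
      rw [abs_of_nonneg (by linarith)] at a2
      have a3 := hg z hz z' hz'
      have a4 : |g z - g z'| ≤ L * (3 * η) := a3.trans (mul_le_mul_of_nonneg_left hzz hL)
      rw [abs_of_neg (by linarith)] at a4
      linarith
    intro z hz z' hz' hzz
    exact ⟨haux z hz z' hz' hzz, haux z' hz' z hz (by rw [abs_sub_comm]; exact hzz)⟩
  -- sides
  obtain ⟨y', hy', hy'ρ⟩ := hρ2 i
  have c1 := hρ3 i (fun z => g z < s) hloc y' hy' hy'ρ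
  have c2 := hρ3 j (fun z => g z < s) hloc y' hy' (by rw [← hρij]; exact hy'ρ)
  rw [hy2] at c1 c2
  have hside : ∀ i, (l i < s → e i < s) ∧ (s < l i → s < e i) := by
    intro i
    have b1 := hlavoid i
    have b2 := he2 i
    have b3 := havoid _ (he1 i)
    constructor
    · intro h
      rw [abs_of_neg (by linarith)] at b1
      rw [abs_lt] at b2
      linarith
    · intro h
      rw [abs_of_pos (by linarith)] at b1
      rw [abs_lt] at b2
      linarith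
  rcases hs2 with ⟨h1, h2⟩ | ⟨h1, h2⟩
  · have d1 := (hside i).1 h1
    have d2 := (hside j).2 h2
    have := c2.mp (c1.mpr d1)
    linarith
  · have d1 := (hside j).1 h1
    have d2 := (hside i).2 h2
    have := c1.mp (c2.mpr d1)
    linarith

/-- number of bands -/
def nn (d : ℕ → ℕ) : ℕ → ℕ
  | 0 => 1
  | (k + 1) => nn d k * (d k - 1)

lemma bandFam_nn {lam : ℝ} (hlam : 4 < lam) {d : ℕ → ℕ} (hd : ∀ i, 1 ≤ d i) (k : ℕ) :
    BandFam lam d k (nn d k) := by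
  induction k with
  | zero => exact bandFam_zero d
  | succ k ih => exact ih.succ hlam (hd k)

/-- replace the zeroth digit -/
def rep (a : ℕ) (c : ℕ → ℕ) : ℕ → ℕ := fun i => if i = 0 then a else c i

lemma nn_gt (c : ℕ → ℕ) (hc : ∀ i, 2 ^ (i + 5) ≤ c i) (k : ℕ) :
    (4 * 2 ^ k + 1) * (qq (rep 1 c) (k + 1)).2 ≤ 2 ^ k * nn (rep 6 c) (k + 1) := by
  have hb : ∀ i, 1 ≤ rep 1 c i := by
    intro i
    unfold rep
    split_ifs
    · exact le_refl _
    · exact (Nat.one_le_two_pow).trans (hc i)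
  induction k with
  | zero => simp [qq, nn, rep]
  | succ k ih =>
    have h1 : (qq (rep 1 c) (k + 1 + 1)).2 = c (k + 1) * (qq (rep 1 c) (k + 1)).2
      + (qq (rep 1 c) (k + 1)).1 := by
      simp [qq, rep]
    have h2 : nn (rep 6 c) (k + 1 + 1) = nn (rep 6 c) (k + 1) * (c (k + 1) - 1) := by
      simp [nn, rep]
    have h3 := qq_fst_le (rep 1 c) hb (k + 1)
    have h4 := hc (k + 1)
    set Q := (qq (rep 1 c) (k + 1)).2
    set N := nn (rep 6 c) (k + 1)
    obtain ⟨m, hm⟩ : ∃ m, c (k + 1) = m + 1 := ⟨c (k + 1) - 1, by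
      have : 1 ≤ 2 ^ (k + 1 + 5) := Nat.one_le_two_pow
      omega⟩
    rw [h1, h2, hm, Nat.add_sub_cancel]
    have hT : 2 ^ (k + 1 + 5) = 64 * 2 ^ k := by rw [pow_add, pow_add]; ring
    rw [hT, hm] at h4
    have hpow : 2 ^ (k + 1) = 2 * 2 ^ k := by rw [pow_succ]; ring
    rw [hpow]
    have h1k : 1 ≤ 2 ^ k := Nat.one_le_two_pow
    generalize 2 ^ k = T at *
    -- (8T+1)((m+1)Q + q') ≤ (8T+1)(m+2) Q ≤ 2 (4T+1) m Q ≤ 2 T N m
    have s1 : (4 * (2 * T) + 1) * ((m + 1) * Q + (qq (rep 1 c) (k + 1)).1)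
        ≤ (8 * T + 1) * ((m + 2) * Q) := by
      have : (m + 1) * Q + (qq (rep 1 c) (k + 1)).1 ≤ (m + 2) * Q := by nlinarith
      calc (4 * (2 * T) + 1) * ((m + 1) * Q + (qq (rep 1 c) (k + 1)).1)
          ≤ (4 * (2 * T) + 1) * ((m + 2) * Q) := Nat.mul_le_mul_left _ this
        _ = _ := by ring
    have s2 : (8 * T + 1) * (m + 2) ≤ (8 * T + 2) * m := by nlinarith
    have s3 : (8 * T + 1) * ((m + 2) * Q) ≤ (8 * T + 2) * m * Q := by
      calc (8 * T + 1) * ((m + 2) * Q) = ((8 * T + 1) * (m + 2)) * Q := by ring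
        _ ≤ ((8 * T + 2) * m) * Q := Nat.mul_le_mul_right _ s2
    have s4 : (8 * T + 2) * m * Q ≤ 2 * T * (N * m) := by
      calc (8 * T + 2) * m * Q = 2 * m * ((4 * T + 1) * Q) := by ring
        _ ≤ 2 * m * (T * N) := Nat.mul_le_mul_left _ ih
        _ = _ := by ring
    exact s1.trans (s3.trans s4)

lemma nn_gt' (c : ℕ → ℕ) (hc : ∀ i, 2 ^ (i + 5) ≤ c i) (k : ℕ) :
    4 * (qq (rep 1 c) (k + 1)).2 < nn (rep 6 c) (k + 1) := by
  have h1 := nn_gt c hc k
  have hb : ∀ i, 1 ≤ rep 1 c i := by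
    intro i
    unfold rep
    split_ifs
    · exact le_refl _
    · exact (Nat.one_le_two_pow).trans (hc i)
  have h2 := qq_pos (rep 1 c) hb (k + 1)
  have h3 : 0 < 2 ^ k := by positivity
  by_contra hcon
  push Not at hcon
  have : 2 ^ k * nn (rep 6 c) (k + 1) ≤ 2 ^ k * (4 * (qq (rep 1 c) (k + 1)).2) :=
    Nat.mul_le_mul_left _ hcon
  nlinarith

/-- diagonal construction -/
lemma exists_digits (B : ℕ → ℕ) (Q : (ℕ → ℕ) → ℕ → Prop)
    (h : ∀ (c : ℕ → ℕ) (k : ℕ), (∀ i, B i ≤ c i) → ∃ M, ∀ c' : ℕ → ℕ, (∀ i < k, c' i = c i) →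
      (∀ i, B i ≤ c' i) → M ≤ c' k → Q c' k) :
    ∃ c : ℕ → ℕ, (∀ i, B i ≤ c i) ∧ ∀ k, Q c k := by
  classical
  have h' : ∀ (c : ℕ → ℕ) (k : ℕ), ∃ M, (∀ i, B i ≤ c i) → ∀ c' : ℕ → ℕ, (∀ i < k, c' i = c i) →
      (∀ i, B i ≤ c' i) → M ≤ c' k → Q c' k := by
    intro c k
    by_cases hc : ∀ i, B i ≤ c i
    · obtain ⟨M, hM⟩ := h c k hc
      exact ⟨M, fun _ => hM⟩
    · exact ⟨0, fun hh => absurd hh hc⟩
  choose M hM using h'
  let s : ℕ → (ℕ → ℕ) := fun k => Nat.rec B (fun k sk => Function.update sk k (max (B k) (M sk k))) k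
  have hs : ∀ k, s (k + 1) = Function.update (s k) k (max (B k) (M (s k) k)) := fun k => rfl
  have hsB : ∀ k i, B i ≤ s k i := by
    intro k
    induction k with
    | zero => intro i; exact le_refl _
    | succ k ih =>
      intro i
      rw [hs]
      by_cases hik : i = k
      · subst hik; rw [Function.update_self]; exact le_max_left _ _
      · rw [Function.update_of_ne hik]; exact ih i
  have hstab : ∀ i k, i < k → s k i = s (i + 1) i := by
    intro i k hik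
    induction k, hik using Nat.le_induction with
    | base => rfl
    | succ k hk ih =>
      rw [hs, Function.update_of_ne (by omega)]
      exact ih
  refine ⟨fun k => s (k + 1) k, fun i => hsB (i + 1) i, fun k => ?_⟩
  apply hM (s k) k (hsB k)
  · intro i hi
    exact (hstab i k hi).symm
  · intro i; exact hsB (i + 1) i
  · rw [hs, Function.update_self]
    exact le_max_right _ _

/-- The key existence statement. -/
lemma exists_tail {lam : ℝ} (hlam : 4 < lam) :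
    ∃ c : ℕ → ℕ, (∀ i, 1 ≤ c i) ∧ ∀ (g : ℝ → ℝ) (L : ℝ), 0 ≤ L →
      (∀ y ∈ Sp lam (rep 1 c), ∀ y' ∈ Sp lam (rep 1 c), |g y - g y'| ≤ L * |y - y'|) →
      g '' (Sp lam (rep 1 c)) ≠ Sp lam (rep 6 c) := by
  have hlam0 : 0 ≤ lam := by linarith
  have hrep : ∀ (a : ℕ) (c : ℕ → ℕ), 1 ≤ a → (∀ i, 2 ^ (i + 5) ≤ c i) → ∀ i, 1 ≤ rep a c i := by
    intro a c ha hc i
    unfold rep
    split_ifs
    · exact ha
    · exact (Nat.one_le_two_pow).trans (hc i)
  obtain ⟨c, hc1, hc2⟩ := exists_digits (fun i => 2 ^ (i + 5))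
    (fun c k => 1 ≤ k → ∀ (g : ℝ → ℝ) (L : ℝ), 0 ≤ L → L ≤ k →
      (∀ y ∈ Sp lam (rep 1 c), ∀ y' ∈ Sp lam (rep 1 c), |g y - g y'| ≤ L * |y - y'|) →
      g '' (Sp lam (rep 1 c)) ≠ Sp lam (rep 6 c)) (by
    intro c k hc
    rcases Nat.eq_zero_or_pos k with hk | hk
    · exact ⟨0, fun _ _ _ _ h => absurd h (by omega)⟩
    -- gap data for a
    obtain ⟨l, δ, hδ, hl, hsep⟩ := (bandFam_nn hlam (hrep 6 c (by norm_num) hc) k).exists_gap
    set η : ℝ := δ / (3 * k) with hη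
    have hk' : (0 : ℝ) < k := by exact_mod_cast hk
    have hηpos : 0 < η := by positivity
    obtain ⟨P, hP⟩ := exists_covering hlam0 (d := rep 1 c) k hηpos
    -- size for density
    obtain ⟨M₁, hM₁⟩ := exists_nat_gt ((4 / η) ^ 2)
    refine ⟨max P (max M₁ 2), ?_⟩
    intro c' hc' hcB hM hk1 g L hL hLk hg himg
    have hk0 : k ≠ 0 := by omega
    have hagree : ∀ a : ℕ, ∀ i < k, rep a c' i = rep a c i := by
      intro a i hi
      unfold rep
      split_ifs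
      · rfl
      · exact hc' i hi
    have hrk : ∀ a : ℕ, rep a c' k = c' k := by
      intro a; unfold rep; rw [if_neg hk0]
    have hPc : P ≤ c' k := (le_max_left _ _).trans hM
    have hMc : M₁ ≤ c' k := (le_max_left _ _).trans ((le_max_right _ _).trans hM)
    have h2c : 2 ≤ c' k := (le_max_right _ _).trans ((le_max_right _ _).trans hM)
    have hsqrt : 4 / Real.sqrt (c' k) < η := by
      have h1 : (4 / η) ^ 2 < (c' k : ℝ) := by
        have : (M₁ : ℝ) ≤ c' k := by exact_mod_cast hMc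
        linarith
      have h2 : 4 / η < Real.sqrt (c' k) := by
        rw [Real.lt_sqrt (by positivity)]; exact h1
      have h3 : 0 < Real.sqrt (c' k) := lt_trans (by positivity) h2
      rw [div_lt_iff₀ h3]
      rw [div_lt_iff₀ hηpos] at h2
      linarith
    have hηδ : η ≤ δ := by
      rw [hη, div_le_iff₀ (by positivity)]
      have : (1 : ℝ) ≤ k := by exact_mod_cast hk
      nlinarith
    obtain ⟨k₁, rfl⟩ : ∃ k₁, k = k₁ + 1 := ⟨k - 1, by omega⟩
    have hnn : 4 * (qq (rep 1 c') (k₁ + 1)).2 < nn (rep 6 c) (k₁ + 1) := by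
      rw [qq_congr (rep 1 c') (rep 1 c) _ (hagree 1)]
      exact nn_gt' c hc k₁
    have hb' := hrep 1 c' (by norm_num) hcB
    have ha' := hrep 6 c' (by norm_num) hcB
    refine no_lipschitz_at_scale hlam0 ha' hb' (k₁ + 1) hnn (l := l) (δ := δ) ?_ ?_ ?_ hηpos ?_ ?_
      (L := L) ?_ hg hL himg
    · intro i
      rw [Xk_congr _ lam _ _ _ (hagree 6)]
      exact hl i
    · intro i j hij
      obtain ⟨s, hs1, hs2⟩ := hsep i j hij
      refine ⟨s, fun t ht => ?_, hs2⟩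
      have := hs1 t ht
      unfold Esc at this ⊢
      rw [Xk_congr _ lam _ _ _ (hagree 6), Yk_congr _ lam _ _ _ (hagree 6),
        Zk_congr _ lam _ _ _ (hagree 6)]
      exact this
    · intro e he
      exact exists_near_of_band hlam0 ha' (by rw [hrk]; exact h2c) he
        (by rw [hrk]; exact lt_of_lt_of_le hsqrt hηδ)
    · intro e he
      exact exists_near_of_band hlam0 hb' (by rw [hrk]; exact h2c) he (by rw [hrk]; exact hsqrt)
    · intro y hy
      obtain ⟨e, he1, he2⟩ := hP (rep 1 c') (hagree 1) hb' (by rw [hrk]; exact hPc) y hy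
      refine ⟨e, he1, ?_⟩
      rw [Xk_congr _ lam _ _ _ (hagree 1)]
      exact he2
    · rw [hη]
      have : 3 * (δ / (3 * ((k₁ + 1 : ℕ) : ℝ))) * L = δ * (L / ((k₁ + 1 : ℕ) : ℝ)) := by
        field_simp
      rw [this]
      have h4 : L / ((k₁ + 1 : ℕ) : ℝ) ≤ 1 := by rw [div_le_one hk']; exact hLk
      nlinarith)
  refine ⟨c, fun i => (Nat.one_le_two_pow).trans (hc1 i), ?_⟩
  intro g L hL hg himg
  obtain ⟨k, hk⟩ := exists_nat_ge L
  exact hc2 (k + 1) (by omega) g L hL (by push_cast; linarith) hg himg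

/-! ### tail equality -/

lemma tail_eq {a b : ℕ} (ha : 1 ≤ a) (hb : 1 ≤ b) {ξ : ℝ} (h0 : 0 < ξ) (h1 : ξ < 1) (i : ℕ) :
    Stream'.Seq.get? (GenContFract.of (1 / ((b : ℝ) + ξ))).partDens (i + 2)
      = Stream'.Seq.get? (GenContFract.of (1 / ((a : ℝ) + ξ))).partDens (i + 2) := by
  have key : ∀ a : ℕ, 1 ≤ a → Stream'.Seq.get? (GenContFract.of (1 / ((a : ℝ) + ξ))).partDens (i + 2)
      = Option.map GenContFract.Pair.b ((GenContFract.of ξ⁻¹).s.get? i) := by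
    intro a ha
    have ha' : (1 : ℝ) ≤ a := by exact_mod_cast ha
    have hx0 : 0 < 1 / ((a : ℝ) + ξ) := by positivity
    have hx1 : 1 / ((a : ℝ) + ξ) < 1 := by
      rw [div_lt_one (by positivity)]; linarith
    have hfr : Int.fract (1 / ((a : ℝ) + ξ)) = 1 / ((a : ℝ) + ξ) :=
      Int.fract_eq_self.mpr ⟨hx0.le, hx1⟩
    have hfr2 : Int.fract ((a : ℝ) + ξ) = ξ := by
      rw [Int.fract_natCast_add]
      exact Int.fract_eq_self.mpr ⟨h0.le, h1⟩
    unfold GenContFract.partDens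
    rw [Stream'.Seq.map_get?, GenContFract.of_s_succ, hfr, one_div, inv_inv,
      GenContFract.of_s_succ, hfr2]
  rw [key a ha, key b hb]

end Pool.Agent.Hhelper97.Sturm
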