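import Mathlib

set_option autoImplicit false

namespace Pool.Agent.Hhelper97.Sturm

open scoped ENNReal

section general

variable {H : Type*} [NormedAddCommGroup H] [InnerProductSpace ℂ H] [CompleteSpace H]

/-- A self-adjoint operator that is bounded below is invertible. -/
lemma isUnit_of_bounded_below {T : H →L[ℂ] H} (hT : IsSelfAdjoint T) {c : ℝ} (hc : 0 < c)
    (h : ∀ v, c * ‖v‖ ≤ ‖T v‖) : IsUnit T := by
  rw [ContinuousLinearMap.isUnit_iff_bijective,
    ContinuousLinearMap.bijective_iff_dense_range_and_antilipschitz]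
  constructor
  · rw [Submodule.topologicalClosure_eq_top_iff]
    have : T.rangeᗮ = T.ker := by
      have hn : IsStarNormal T := hT.isStarNormal
      exact ContinuousLinearMap.IsStarNormal.orthogonal_range hn
    rw [this, Submodule.eq_bot_iff]
    intro v hv
    have hv0 : T v = 0 := hv
    have := h v
    rw [hv0, norm_zero] at this
    have h3 : ‖v‖ ≤ 0 := by
      by_contra hcon
      push Not at hcon
      nlinarith
    exact norm_le_zero_iff.mp h3
  · refine ⟨⟨c⁻¹, by positivity⟩, ?_⟩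
    apply ContinuousLinearMap.antilipschitz_of_bound
    intro v
    have := h v
    change ‖v‖ ≤ c⁻¹ * ‖T v‖
    rw [inv_mul_eq_div, le_div_iff₀ hc]
    linarith

/-- Approximate eigenvectors give nearby real spectrum. -/
lemma exists_spectrum_near [Nontrivial H] {T : H →L[ℂ] H} (hT : IsSelfAdjoint T) {E ε ε' : ℝ}
    (hε : ε < ε') (hε0 : 0 ≤ ε) {v : H} (hv : v ≠ 0) (h : ‖T v - (E : ℂ) • v‖ ≤ ε * ‖v‖) :
    ∃ E' : ℝ, (E' : ℂ) ∈ spectrum ℂ T ∧ |E' - E| < ε' := by
  by_contra hcon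
  push Not at hcon
  have hε' : 0 < ε' := lt_of_le_of_lt hε0 hε
  set A : H →L[ℂ] H := T - algebraMap ℂ (H →L[ℂ] H) (E : ℂ) with hA
  have hAsa : IsSelfAdjoint A := by
    refine hT.sub ?_
    rw [IsSelfAdjoint, ← algebraMap_star_comm]
    simp
  have hE : (E : ℂ) ∉ spectrum ℂ T := by
    intro hE
    have := hcon E hE
    simp at this
    linarith
  have hunit : IsUnit A := by
    rw [spectrum.notMem_iff] at hE
    have h2 : A = -(algebraMap ℂ (H →L[ℂ] H) (E : ℂ) - T) := by rw [hA]; abel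
    rw [h2]
    exact hE.neg
  obtain ⟨u, hu⟩ := hunit
  set R : H →L[ℂ] H := ↑u⁻¹ with hR
  have hRsa : IsSelfAdjoint R := by
    have h1 : star (u : H →L[ℂ] H) = u := by rw [hu]; exact hAsa
    have h2 : star u = u := Units.ext h1
    have : star (u⁻¹) = u⁻¹ := by rw [star_inv, h2]
    have h3 := congrArg Units.val this
    exact h3
  have hspec : ∀ k ∈ spectrum ℂ R, ‖k‖ ≤ 1 / ε' := by
    intro k hk
    have hk0 : k ≠ 0 := spectrum.ne_zero_of_mem_of_unit hk
    have hk1 : k⁻¹ ∈ spectrum ℂ (u : H →L[ℂ] H) :=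
      (spectrum.inv₀_mem_iff (r := k) (a := u)).mpr hk
    rw [hu] at hk1
    have hk2 : k⁻¹ + (E : ℂ) ∈ spectrum ℂ T := by
      rw [spectrum.mem_iff] at hk1 ⊢
      intro h1
      apply hk1
      convert h1 using 1
      rw [hA, map_add]
      abel
    have hre := hT.mem_spectrum_eq_re hk2
    have hk3 := hcon ((k⁻¹ + (E : ℂ)).re) (by rw [← hre]; exact hk2)
    have hk4 : ‖k⁻¹‖ = |(k⁻¹ + (E : ℂ)).re - E| := by
      have : k⁻¹ = (((k⁻¹ + (E : ℂ)).re - E : ℝ) : ℂ) := by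
        push_cast
        rw [← hre]
        ring
      calc ‖k⁻¹‖ = ‖(((k⁻¹ + (E : ℂ)).re - E : ℝ) : ℂ)‖ := congrArg norm this
        _ = _ := by rw [Complex.norm_real, Real.norm_eq_abs]
    rw [← hk4, norm_inv] at hk3
    have hkpos : 0 < ‖k‖ := norm_pos_iff.mpr hk0
    rw [le_div_iff₀ hε']
    rw [le_inv_comm₀ hε' hkpos] at hk3
    calc ‖k‖ * ε' ≤ ε'⁻¹ * ε' := by gcongr
      _ = 1 := inv_mul_cancel₀ hε'.ne'
  have hRnorm : ‖R‖ ≤ 1 / ε' := by
    have h1 := hRsa.spectralRadius_eq_nnnorm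
    have h2 : spectralRadius ℂ R ≤ ENNReal.ofReal (1 / ε') := by
      unfold spectralRadius
      apply iSup₂_le
      intro k hk
      have := hspec k hk
      change ‖k‖ₑ ≤ _
      rw [← ofReal_norm]
      exact ENNReal.ofReal_le_ofReal this
    rw [h1] at h2
    have h3 : ENNReal.ofReal ‖R‖ ≤ ENNReal.ofReal (1 / ε') := by
      rw [ofReal_norm]; exact h2
    exact (ENNReal.ofReal_le_ofReal_iff (by positivity)).mp h3
  have hRA : R (A v) = v := by
    have : (↑u⁻¹ * ↑u : H →L[ℂ] H) v = v := by rw [Units.inv_mul]; rfl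
    rw [hu] at this
    exact this
  have hAv : ‖A v‖ ≤ ε * ‖v‖ := by
    have : A v = T v - (E : ℂ) • v := by
      rw [hA, sub_apply, Algebra.algebraMap_eq_smul_one]
      rfl
    rw [this]; exact h
  have hvpos : 0 < ‖v‖ := norm_pos_iff.mpr hv
  have h1 : ‖v‖ ≤ 1 / ε' * (ε * ‖v‖) := by
    calc ‖v‖ = ‖R (A v)‖ := by rw [hRA]
      _ ≤ ‖R‖ * ‖A v‖ := R.le_opNorm _
      _ ≤ 1 / ε' * (ε * ‖v‖) := by gcongr
  have h2 : 1 / ε' * (ε * ‖v‖) = (ε / ε') * ‖v‖ := by ring
  rw [h2] at h1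
  have h3 : ε / ε' < 1 := (div_lt_one hε').mpr hε
  nlinarith

end general

end Pool.Agent.Hhelper97.Sturm
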