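import Pool.Agent.Hhelper97.Sturm.TraceMap

set_option autoImplicit false

namespace Pool.Agent.Hhelper97.Sturm

open Polynomial

/-- `(q_{k-1}, q_k)` -/
def qq (d : ℕ → ℕ) : ℕ → ℕ × ℕ
  | 0 => (0, 1)
  | (k + 1) => ((qq d k).2, d k * (qq d k).2 + (qq d k).1)

/-- `(p_{k-1}, p_k)` -/
def pp (d : ℕ → ℕ) : ℕ → ℕ × ℕ
  | 0 => (1, 0)
  | (k + 1) => ((pp d k).2, d k * (pp d k).2 + (pp d k).1)

lemma qq_congr (d d' : ℕ → ℕ) (k : ℕ) (h : ∀ i < k, d i = d' i) : qq d k = qq d' k := by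
  induction k with
  | zero => rfl
  | succ k ih =>
    have ih' := ih (fun i hi => h i (Nat.lt_succ_of_lt hi))
    simp only [qq, ih', h k (Nat.lt_succ_self k)]

lemma qq_pos (d : ℕ → ℕ) (hd : ∀ i, 1 ≤ d i) (k : ℕ) : 1 ≤ (qq d k).2 := by
  induction k with
  | zero => simp [qq]
  | succ k ih =>
    simp only [qq]
    have := hd k
    nlinarith

lemma tt_monic {x y z : ℝ[X]} {a b : ℕ} (ha : 1 ≤ a) (hx : x.Monic) (hxa : x.natDegree = a)
    (hz : z.Monic) (hzb : z.natDegree = b) (hy : y.natDegree < a + b) (p : ℕ) :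
    (tt x y z (p + 1)).Monic ∧ (tt x y z (p + 1)).natDegree = p * a + b ∧
      (tt x y z p).natDegree < a + (p * a + b) := by
  induction p with
  | zero => simpa using ⟨hz, hzb, hy⟩
  | succ p ih =>
    obtain ⟨h1, h2, h3⟩ := ih
    have hm : (x * tt x y z (p + 1)).Monic := hx.mul h1
    have hmd : (x * tt x y z (p + 1)).natDegree = a + (p * a + b) := by
      rw [hx.natDegree_mul h1, hxa, h2]
    have hlt : (tt x y z p).natDegree < (x * tt x y z (p + 1)).natDegree := by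
      rw [hmd]; exact h3
    have hdeg : (tt x y z p).degree < (x * tt x y z (p + 1)).degree := degree_lt_degree hlt
    refine ⟨?_, ?_, ?_⟩
    · rw [show p + 1 + 1 = p + 2 from rfl, tt_add_two]
      exact hm.sub_of_left hdeg
    · rw [show p + 1 + 1 = p + 2 from rfl, tt_add_two,
        natDegree_sub_eq_left_of_natDegree_lt hlt, hmd]
      ring
    · rw [h2]
      have : (p + 1) * a = p * a + a := by ring
      omega

lemma XYZ_monic (lam : ℝ) (d : ℕ → ℕ) (hd : ∀ i, 1 ≤ d i) (k : ℕ) :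
    (Xk (X : ℝ[X]) (C lam) d k).Monic ∧ (Xk (X : ℝ[X]) (C lam) d k).natDegree = (qq d k).2 ∧
    (Zk (X : ℝ[X]) (C lam) d k).Monic ∧
      (Zk (X : ℝ[X]) (C lam) d k).natDegree = (qq d k).2 + (qq d k).1 ∧
      (Yk (X : ℝ[X]) (C lam) d k).natDegree = (qq d k).1 := by
  induction k with
  | zero =>
    refine ⟨?_, ?_, ?_, ?_, ?_⟩
    · simpa using monic_X
    · simp [qq]
    · simpa using monic_X_sub_C lam
    · simp [qq]
    · simp [qq]
  | succ k ih =>
    obtain ⟨h1, h2, h3, h4, h5⟩ := ih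
    have hq := qq_pos d hd k
    have key := fun p => tt_monic hq h1 h2 h3 h4 (y := Yk (X : ℝ[X]) (C lam) d k)
      (by rw [h5]; omega) p
    obtain ⟨m, hm⟩ : ∃ m, d k = m + 1 := ⟨d k - 1, by have := hd k; omega⟩
    refine ⟨?_, ?_, ?_, ?_, ?_⟩
    · rw [Xk_succ, Tk, hm]; exact (key m).1
    · rw [Xk_succ, Tk, hm, (key m).2.1]; simp only [qq, hm]; ring
    · rw [Zk_succ, Tk]; exact (key (d k)).1
    · rw [Zk_succ, Tk, (key (d k)).2.1]; simp only [qq]; ring
    · rw [Yk_succ, h2]; simp only [qq]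

lemma eval_Xk (lam E : ℝ) (d : ℕ → ℕ) (k : ℕ) :
    (Xk (X : ℝ[X]) (C lam) d k).eval E = Xk E lam d k := by
  have := map_Xk (evalRingHom E) (X : ℝ[X]) (C lam) d k
  simpa using this

/-- There are at most `4 q_k` energies with `x_k² = 4` or `x_k² = 4 + λ²`. -/
lemma exists_roots (lam : ℝ) (d : ℕ → ℕ) (hd : ∀ i, 1 ≤ d i) (k : ℕ) :
    ∃ S : Finset ℝ, S.card ≤ 4 * (qq d k).2 ∧
      ∀ E : ℝ, ((Xk E lam d k) ^ 2 = 4 ∨ (Xk E lam d k) ^ 2 = 4 + lam ^ 2) → E ∈ S := by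
  classical
  obtain ⟨h1, h2, -⟩ := XYZ_monic lam d hd k
  set P : ℝ[X] := Xk (X : ℝ[X]) (C lam) d k with hP
  have hq := qq_pos d hd k
  have hdeg : ∀ c : ℝ, (P ^ 2 - C c).natDegree = 2 * (qq d k).2 := by
    intro c
    rw [natDegree_sub_C, h1.natDegree_pow, h2]
  have hne : ∀ c : ℝ, P ^ 2 - C c ≠ 0 := by
    intro c h0
    have := hdeg c
    rw [h0] at this
    simp at this
    omega
  set Qp : ℝ[X] := (P ^ 2 - C 4) * (P ^ 2 - C (4 + lam ^ 2)) with hQp
  have hQne : Qp ≠ 0 := mul_ne_zero (hne _) (hne _)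
  refine ⟨Qp.roots.toFinset, ?_, ?_⟩
  · calc Qp.roots.toFinset.card ≤ Multiset.card Qp.roots := Multiset.toFinset_card_le _
      _ ≤ Qp.natDegree := card_roots' _
      _ = 4 * (qq d k).2 := by
        rw [hQp, natDegree_mul (hne _) (hne _), hdeg, hdeg]; ring
  · intro E hE
    rw [Multiset.mem_toFinset, mem_roots hQne, IsRoot.def, hQp, eval_mul, eval_sub, eval_sub,
      eval_pow, eval_C, eval_C, hP, eval_Xk]
    rcases hE with h | h <;> simp [h]

end Pool.Agent.Hhelper97.Sturm
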