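import Pool.Agent.Hhelper97.Sturm.TraceMap
import Pool.Agent.Hhelper97.Sturm.Poly

set_option autoImplicit false

namespace Pool.Agent.Hhelper97.Sturm

open Matrix

/-! ### Integer floor lemmas -/

lemma ediv_eq_of_bounds {a b m : ℤ} (hb : 0 < b) (h1 : m * b ≤ a) (h2 : a < (m + 1) * b) :
    a / b = m := by
  apply le_antisymm
  · have := Int.ediv_lt_of_lt_mul hb h2
    omega
  · exact Int.le_ediv_of_mul_le hb h1

/-- mechanical word potential of slope `p/q` -/
def Vr (p q n : ℤ) : ℤ := ((n + 1) * p) / q - (n * p) / q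

lemma fl_period (p q n j : ℤ) (hq : 0 < q) : ((n + j * q) * p) / q = (n * p) / q + j * p := by
  rw [show (n + j * q) * p = n * p + (j * p) * q by ring, Int.add_mul_ediv_right _ _ hq.ne']

lemma Vr_period (p q n j : ℤ) (hq : 0 < q) : Vr p q (n + j * q) = Vr p q n := by
  unfold Vr
  rw [show n + j * q + 1 = (n + 1) + j * q by ring, fl_period p q (n + 1) j hq,
    fl_period p q n j hq]
  ring

/-- case `p' q - p q' = 1` -/
lemma fl_plus {p q p' q' a : ℤ} (hq : 0 < q) (hq'' : 0 < a * q + q')
    (h : p' * q - p * q' = 1) {n : ℤ} (hn : 0 ≤ n) (hn2 : n < a * q + q') :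
    (n * (a * p + p')) / (a * q + q') = (n * p) / q := by
  apply ediv_eq_of_bounds hq''
  · have e1 := Int.mul_ediv_add_emod (n * p) q
    have e2 := Int.emod_nonneg (n * p) hq.ne'
    set m := (n * p) / q
    set r := (n * p) % q
    have key : q * (n * (a * p + p') - m * (a * q + q')) = r * (a * q + q') + n := by
      have : q * (a * p + p') = p * (a * q + q') + 1 := by linear_combination h
      calc q * (n * (a * p + p') - m * (a * q + q'))
          = n * (q * (a * p + p')) - q * m * (a * q + q') := by ring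
        _ = (n * p - q * m) * (a * q + q') + n := by rw [this]; ring
        _ = r * (a * q + q') + n := by rw [show n * p - q * m = r by linarith]
    have h2 : 0 ≤ q * (n * (a * p + p') - m * (a * q + q')) := by
      rw [key]; positivity
    have := nonneg_of_mul_nonneg_right h2 hq
    linarith
  · have e1 := Int.mul_ediv_add_emod (n * p) q
    have e2 := Int.emod_lt_of_pos (n * p) hq
    set m := (n * p) / q
    set r := (n * p) % q
    have key : q * ((m + 1) * (a * q + q') - n * (a * p + p'))
        = (q - r) * (a * q + q') - n := by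
      have : q * (a * p + p') = p * (a * q + q') + 1 := by linear_combination h
      calc q * ((m + 1) * (a * q + q') - n * (a * p + p'))
          = (q * m + q) * (a * q + q') - n * (q * (a * p + p')) := by ring
        _ = (q - (n * p - q * m)) * (a * q + q') - n := by rw [this]; ring
        _ = (q - r) * (a * q + q') - n := by rw [show n * p - q * m = r by linarith]
    have h2 : 0 < q * ((m + 1) * (a * q + q') - n * (a * p + p')) := by
      rw [key]
      have : 1 ≤ q - r := by linarith
      nlinarith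
    have := (mul_pos_iff_of_pos_left hq).mp h2
    linarith

/-- lower neighbour: floors of `p'/q'` and `p/q` agree on `[0, q')` when `p' q - p q' = 1` -/
lemma fl_plus' {p q p' q' : ℤ} (hq : 0 < q) (hq' : 0 < q')
    (h : p' * q - p * q' = 1) {n : ℤ} (hn : 0 ≤ n) (hn2 : n < q') :
    (n * p') / q' = (n * p) / q := by
  have := fl_plus (a := 0) hq (by simpa using hq') h hn (by simpa using hn2)
  simpa using this

/-- case `p' q - p q' = -1`, first part -/
lemma fl_minus1 {p q p' q' a : ℤ} (hq : 0 < q) (hq' : 0 < q') (hqq : q' ≤ q) (ha : 0 ≤ a)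
    (h : p' * q - p * q' = -1) {n : ℤ} (hn : 0 ≤ n) (hn2 : n ≤ q') :
    (n * (a * p + p')) / (a * q + q') = (n * p') / q' := by
  have hq'' : 0 < a * q + q' := by positivity
  have hna : n * a < a * q + q' := by nlinarith
  apply ediv_eq_of_bounds hq''
  · have e1 := Int.mul_ediv_add_emod (n * p') q'
    have e2 := Int.emod_nonneg (n * p') hq'.ne'
    set m := (n * p') / q'
    set r := (n * p') % q'
    have key : q' * (n * (a * p + p') - m * (a * q + q')) = r * (a * q + q') + n * a := by
      have : q' * (a * p + p') = p' * (a * q + q') + a := by linear_combination (-a) * h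
      calc q' * (n * (a * p + p') - m * (a * q + q'))
          = n * (q' * (a * p + p')) - q' * m * (a * q + q') := by ring
        _ = (n * p' - q' * m) * (a * q + q') + n * a := by rw [this]; ring
        _ = r * (a * q + q') + n * a := by rw [show n * p' - q' * m = r by linarith]
    have h2 : 0 ≤ q' * (n * (a * p + p') - m * (a * q + q')) := by
      rw [key]; positivity
    have := nonneg_of_mul_nonneg_right h2 hq'
    linarith
  · have e1 := Int.mul_ediv_add_emod (n * p') q'
    have e2 := Int.emod_lt_of_pos (n * p') hq'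
    set m := (n * p') / q'
    set r := (n * p') % q'
    have key : q' * ((m + 1) * (a * q + q') - n * (a * p + p'))
        = (q' - r) * (a * q + q') - n * a := by
      have : q' * (a * p + p') = p' * (a * q + q') + a := by linear_combination (-a) * h
      calc q' * ((m + 1) * (a * q + q') - n * (a * p + p'))
          = (q' * m + q') * (a * q + q') - n * (q' * (a * p + p')) := by ring
        _ = (q' - (n * p' - q' * m)) * (a * q + q') - n * a := by rw [this]; ring
        _ = (q' - r) * (a * q + q') - n * a := by rw [show n * p' - q' * m = r by linarith]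
    have h2 : 0 < q' * ((m + 1) * (a * q + q') - n * (a * p + p')) := by
      rw [key]
      have : 1 ≤ q' - r := by linarith
      nlinarith
    have := (mul_pos_iff_of_pos_left hq').mp h2
    linarith

/-- case `p' q - p q' = -1`, second part -/
lemma fl_minus2 {p q p' q' a : ℤ} (hq : 0 < q) (hq' : 0 < q') (ha : 0 ≤ a)
    (h : p' * q - p * q' = -1) {n : ℤ} (hn : 0 ≤ n) (hn2 : n ≤ a * q) :
    ((q' + n) * (a * p + p')) / (a * q + q') = p' + (n * p) / q := by
  have hq'' : 0 < a * q + q' := by positivity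
  apply ediv_eq_of_bounds hq''
  · have e1 := Int.mul_ediv_add_emod (n * p) q
    have e2 := Int.emod_nonneg (n * p) hq.ne'
    set m := (n * p) / q
    set r := (n * p) % q
    have key : q * ((q' + n) * (a * p + p') - (p' + m) * (a * q + q'))
        = r * (a * q + q') + (a * q - n) := by
      have h1 : q * (a * p + p') = p * (a * q + q') - 1 := by linear_combination h
      have h2 : q' * (a * p + p') = p' * (a * q + q') + a := by linear_combination (-a) * h
      calc q * ((q' + n) * (a * p + p') - (p' + m) * (a * q + q'))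
          = q * (q' * (a * p + p')) + n * (q * (a * p + p'))
              - (q * p' + q * m) * (a * q + q') := by ring
        _ = (n * p - q * m) * (a * q + q') + (a * q - n) := by rw [h1, h2]; ring
        _ = r * (a * q + q') + (a * q - n) := by rw [show n * p - q * m = r by linarith]
    have h2 : 0 ≤ q * ((q' + n) * (a * p + p') - (p' + m) * (a * q + q')) := by
      rw [key]
      have : 0 ≤ a * q - n := by linarith
      positivity
    have := nonneg_of_mul_nonneg_right h2 hq
    linarith
  · have e1 := Int.mul_ediv_add_emod (n * p) q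
    have e2 := Int.emod_lt_of_pos (n * p) hq
    set m := (n * p) / q
    set r := (n * p) % q
    have key : q * ((p' + m + 1) * (a * q + q') - (q' + n) * (a * p + p'))
        = (q - r) * (a * q + q') - (a * q - n) := by
      have h1 : q * (a * p + p') = p * (a * q + q') - 1 := by linear_combination h
      have h2 : q' * (a * p + p') = p' * (a * q + q') + a := by linear_combination (-a) * h
      calc q * ((p' + m + 1) * (a * q + q') - (q' + n) * (a * p + p'))
          = (q * p' + q * m + q) * (a * q + q') - q * (q' * (a * p + p'))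
              - n * (q * (a * p + p')) := by ring
        _ = (q - (n * p - q * m)) * (a * q + q') - (a * q - n) := by rw [h1, h2]; ring
        _ = (q - r) * (a * q + q') - (a * q - n) := by rw [show n * p - q * m = r by linarith]
    have h2 : 0 < q * ((p' + m + 1) * (a * q + q') - (q' + n) * (a * p + p')) := by
      rw [key]
      have : 1 ≤ q - r := by linarith
      nlinarith
    have := (mul_pos_iff_of_pos_left hq).mp h2
    linarith

/-! ### Words -/

lemma Vr_plus1 {p q p' q' a : ℤ} (hq : 0 < q) (hq' : 0 < q') (ha : 0 ≤ a)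
    (h : p' * q - p * q' = 1) {n : ℤ} (hn : 0 ≤ n) (hn2 : n < a * q) :
    Vr (a * p + p') (a * q + q') n = Vr p q n := by
  unfold Vr
  rw [fl_plus hq (by positivity) h (by omega) (by omega),
    fl_plus hq (by positivity) h (by omega) (by omega)]

lemma Vr_plus2 {p q p' q' a : ℤ} (hq : 0 < q) (hq' : 0 < q') (ha : 0 ≤ a)
    (h : p' * q - p * q' = 1) {m : ℤ} (hm : 0 ≤ m) (hm2 : m < q') :
    Vr (a * p + p') (a * q + q') (a * q + m) = Vr p' q' m := by
  -- floor values at `a q + m`
  have hpos : 0 ≤ a * q := by positivity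
  have key : ∀ m : ℤ, 0 ≤ m → m ≤ q' →
      ((a * q + m) * (a * p + p')) / (a * q + q') = a * p + (m * p') / q' := by
    intro m hm hm2
    rcases hm2.lt_or_eq with h1 | h1
    · rw [fl_plus hq (by positivity) h (by omega) (by omega), fl_plus' hq hq' h hm h1,
        show a * q + m = m + a * q by ring, fl_period p q m a hq]
      ring
    · rw [h1, Int.mul_ediv_cancel_left _ (by positivity : a * q + q' ≠ 0),
        Int.mul_ediv_cancel_left _ hq'.ne']
  unfold Vr
  rw [show a * q + m + 1 = a * q + (m + 1) by ring, key (m + 1) (by omega) (by omega),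
    key m hm hm2.le]
  ring

lemma Vr_minus1 {p q p' q' a : ℤ} (hq : 0 < q) (hq' : 0 < q') (hqq : q' ≤ q) (ha : 0 ≤ a)
    (h : p' * q - p * q' = -1) {n : ℤ} (hn : 0 ≤ n) (hn2 : n < q') :
    Vr (a * p + p') (a * q + q') n = Vr p' q' n := by
  unfold Vr
  rw [fl_minus1 hq hq' hqq ha h (by omega) (by omega),
    fl_minus1 hq hq' hqq ha h (by omega) (by omega)]

lemma Vr_minus2 {p q p' q' a : ℤ} (hq : 0 < q) (hq' : 0 < q') (ha : 0 ≤ a)
    (h : p' * q - p * q' = -1) {n : ℤ} (hn : 0 ≤ n) (hn2 : n < a * q) :
    Vr (a * p + p') (a * q + q') (q' + n) = Vr p q n := by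
  unfold Vr
  rw [show q' + n + 1 = q' + (n + 1) by ring, fl_minus2 hq hq' ha h (by omega) (by omega),
    fl_minus2 hq hq' ha h hn hn2.le]
  ring

/-! ### Transfer matrices -/

section matrix
variable {R : Type*} [CommRing R]

/-- one-step transfer matrix -/
def Tm (E v : R) : Matrix (Fin 2) (Fin 2) R := !![E - v, -1; 1, 0]

/-- transfer matrix over `[a, a+n)` -/
def Pm (E : R) (V : ℤ → R) (a : ℤ) : ℕ → Matrix (Fin 2) (Fin 2) R
  | 0 => 1
  | (n + 1) => Tm E (V (a + n)) * Pm E V a n

@[simp] lemma Pm_zero (E : R) (V : ℤ → R) (a : ℤ) : Pm E V a 0 = 1 := rfl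
lemma Pm_succ (E : R) (V : ℤ → R) (a : ℤ) (n : ℕ) :
    Pm E V a (n + 1) = Tm E (V (a + n)) * Pm E V a n := rfl

lemma det_Tm (E v : R) : (Tm E v).det = 1 := by simp [Tm, det_fin_two]

lemma det_Pm (E : R) (V : ℤ → R) (a : ℤ) (n : ℕ) : (Pm E V a n).det = 1 := by
  induction n with
  | zero => simp
  | succ n ih => rw [Pm_succ, det_mul, det_Tm, ih, one_mul]

lemma Pm_add (E : R) (V : ℤ → R) (a : ℤ) (m n : ℕ) :
    Pm E V a (m + n) = Pm E V (a + m) n * Pm E V a m := by
  induction n with
  | zero => simp
  | succ n ih =>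
    rw [← add_assoc, Pm_succ, ih, Pm_succ, Matrix.mul_assoc]
    congr 3
    push_cast; ring

lemma Pm_congr (E : R) (V V' : ℤ → R) (a b : ℤ) (n : ℕ)
    (h : ∀ i : ℕ, i < n → V (a + i) = V' (b + i)) : Pm E V a n = Pm E V' b n := by
  induction n with
  | zero => rfl
  | succ n ih =>
    rw [Pm_succ, Pm_succ, ih (fun i hi => h i (Nat.lt_succ_of_lt hi)), h n (Nat.lt_succ_self n)]

lemma Pm_pow (E : R) (V : ℤ → R) (a : ℤ) (q m : ℕ) (hV : ∀ n, V (n + q) = V n) :
    Pm E V a (m * q) = (Pm E V a q) ^ m := by
  induction m with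
  | zero => simp
  | succ m ih =>
    rw [show (m + 1) * q = q + m * q by ring, Pm_add, pow_succ]
    congr 1
    rw [← ih]
    apply Pm_congr
    intro i _
    rw [show a + (q : ℤ) + i = (a + i) + q by ring, hV]

/-- Cayley-Hamilton for 2x2 matrices with determinant one. -/
lemma sq_eq_of_det_one (B : Matrix (Fin 2) (Fin 2) R) (h : B.det = 1) :
    B ^ 2 = B.trace • B - 1 := by
  rw [det_fin_two] at h
  ext i j
  fin_cases i <;> fin_cases j <;>
    simp [sq, mul_apply, Fin.sum_univ_two, trace_fin_two]
  · linear_combination (-1 : R) * h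
  · ring
  · ring
  · linear_combination (-1 : R) * h

lemma trace_mul_pow (A B : Matrix (Fin 2) (Fin 2) R) (h : B.det = 1) (p : ℕ) :
    tt B.trace A.trace (A * B).trace p = (A * B ^ p).trace := by
  induction p using Nat.twoStepInduction with
  | zero => simp
  | one => simp
  | more n ih1 ih2 =>
    rw [tt_add_two, ih1, ih2]
    have : A * B ^ (n + 2) = B.trace • (A * B ^ (n + 1)) - A * B ^ n := by
      rw [pow_add, sq_eq_of_det_one B h, mul_sub, mul_smul_comm, mul_one, mul_sub, mul_smul_comm,
        pow_succ]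
    rw [this, trace_sub, trace_smul, smul_eq_mul]

/-- the matrix `M_{-1}` -/
def Am (lam : R) : Matrix (Fin 2) (Fin 2) R := !![1, -lam; 0, 1]

/-- The potential of the rational frequency `p_k/q_k`. -/
def Vk (lam : R) (d : ℕ → ℕ) (k : ℕ) (n : ℤ) : R :=
  lam * ((Vr (pp d k).2 (qq d k).2 n : ℤ) : R)

/-- period transfer matrix of `p_k/q_k` -/
def Mk (E lam : R) (d : ℕ → ℕ) (k : ℕ) : Matrix (Fin 2) (Fin 2) R :=
  Pm E (Vk lam d k) 0 (qq d k).2

/-- previous matrix -/
def Mprev (E lam : R) (d : ℕ → ℕ) : ℕ → Matrix (Fin 2) (Fin 2) R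
  | 0 => Am lam
  | (k + 1) => Mk E lam d k

end matrix

lemma pq_det (d : ℕ → ℕ) (k : ℕ) :
    ((pp d k).1 : ℤ) * (qq d k).2 - (pp d k).2 * (qq d k).1 = (-1) ^ k := by
  induction k with
  | zero => simp [pp, qq]
  | succ k ih =>
    simp only [pp, qq]
    push_cast
    rw [pow_succ, ← ih]
    ring

lemma qq_fst_le (d : ℕ → ℕ) (hd : ∀ i, 1 ≤ d i) (k : ℕ) : (qq d k).1 ≤ (qq d k).2 := by
  cases k with
  | zero => simp [qq]
  | succ k =>
    simp only [qq]
    have := hd k
    nlinarith [Nat.zero_le (qq d k).1, Nat.zero_le (qq d k).2]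

lemma qq_fst_pos (d : ℕ → ℕ) (hd : ∀ i, 1 ≤ d i) (k : ℕ) : 1 ≤ (qq d (k + 1)).1 := by
  simp only [qq]; exact qq_pos d hd k

section matrix2
variable {R : Type*} [CommRing R]

lemma Vk_period (lam : R) (d : ℕ → ℕ) (hd : ∀ i, 1 ≤ d i) (k : ℕ) (n : ℤ) :
    Vk lam d k (n + (qq d k).2) = Vk lam d k n := by
  have hq : (0 : ℤ) < (qq d k).2 := by exact_mod_cast qq_pos d hd k
  have := Vr_period (pp d k).2 (qq d k).2 n 1 hq
  rw [one_mul] at this
  unfold Vk
  rw [this]

lemma Mk_succ (E lam : R) (d : ℕ → ℕ) (hd : ∀ i, 1 ≤ d i) (k : ℕ) :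
    Mk E lam d (k + 1) = Mprev E lam d k * (Mk E lam d k) ^ (d k) ∨
    Mk E lam d (k + 1) = (Mk E lam d k) ^ (d k) * Mprev E lam d k := by
  cases k with
  | zero =>
    left
    obtain ⟨m, hm⟩ : ∃ m, d 0 = m + 1 := ⟨d 0 - 1, by have := hd 0; omega⟩
    -- M_1 = T(λ) T(0)^m
    have hM0 : Mk E lam d 0 = Tm E 0 := by
      simp [Mk, qq, Pm, Vk, Vr, pp]
    have hAm : Am lam * Tm E 0 = Tm E lam := by
      ext i j
      fin_cases i <;> fin_cases j <;> simp [Am, Tm, mul_apply, Fin.sum_univ_two, sub_eq_add_neg]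
    have hword : Mk E lam d 1 = Tm E lam * (Tm E 0) ^ m := by
      have hq1 : (qq d 1).2 = m + 1 := by simp [qq, hm]
      have hp1 : (pp d 1).2 = 1 := by simp [pp]
      unfold Mk
      rw [hq1, Pm_succ]
      have hV1 : Vk lam d 1 (0 + (m : ℤ)) = lam := by
        simp only [Vk, hq1, hp1, Vr]
        have e1 : ((0 + (m : ℤ) + 1) * ((1 : ℕ) : ℤ)) / ((m + 1 : ℕ) : ℤ) = 1 := by
          rw [show (0 + (m : ℤ) + 1) * ((1 : ℕ) : ℤ) = ((m + 1 : ℕ) : ℤ) by push_cast; ring]
          exact Int.ediv_self (by positivity)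
        have e2 : ((0 + (m : ℤ)) * ((1 : ℕ) : ℤ)) / ((m + 1 : ℕ) : ℤ) = 0 := by
          apply Int.ediv_eq_zero_of_lt
          · positivity
          · push_cast; linarith
        rw [e1, e2]; simp
      rw [hV1]
      congr 1
      have h0 : Pm E (Vk lam d 1) 0 m = Pm E (fun _ => (0 : R)) 0 m := by
        apply Pm_congr
        intro i hi
        simp only [Vk, hq1, hp1, Vr]
        have e1 : ((0 + (i : ℤ) + 1) * ((1 : ℕ) : ℤ)) / ((m + 1 : ℕ) : ℤ) = 0 := by
          apply Int.ediv_eq_zero_of_lt
          · positivity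
          · push_cast; have : (i : ℤ) < m := by exact_mod_cast hi
            linarith
        have e2 : ((0 + (i : ℤ)) * ((1 : ℕ) : ℤ)) / ((m + 1 : ℕ) : ℤ) = 0 := by
          apply Int.ediv_eq_zero_of_lt
          · positivity
          · push_cast; have : (i : ℤ) < m := by exact_mod_cast hi
            linarith
        rw [e1, e2]; simp
      rw [h0]
      have := Pm_pow E (fun _ => (0 : R)) 0 1 m (fun _ => rfl)
      rw [mul_one] at this
      rw [this]
      simp [Pm]
    rw [show (0 + 1 : ℕ) = 1 from rfl, hword]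
    simp only [Mprev]
    rw [hM0, hm, pow_succ', ← Matrix.mul_assoc, hAm]
  | succ k =>
    set k1 := k + 1 with hk1
    have hq : (0 : ℤ) < (qq d k1).2 := by exact_mod_cast qq_pos d hd k1
    have hq' : (0 : ℤ) < (qq d k1).1 := by exact_mod_cast qq_fst_pos d hd k
    have hqq : ((qq d k1).1 : ℤ) ≤ (qq d k1).2 := by exact_mod_cast qq_fst_le d hd k1
    have ha : (0 : ℤ) ≤ d k1 := by positivity
    have hdet := pq_det d k1
    have hmp : Mprev E lam d k1 = Mk E lam d k := rfl
    have hV' : ∀ n, Vk lam d k n = lam * ((Vr (pp d k1).1 (qq d k1).1 n : ℤ) : R) := by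
      intro n; rfl
    have hV'' : ∀ n, Vk lam d (k1 + 1) n = lam *
        ((Vr (d k1 * (pp d k1).2 + (pp d k1).1) (d k1 * (qq d k1).2 + (qq d k1).1) n : ℤ) : R) := by
      intro n
      simp only [Vk, pp, qq]
      push_cast
      rfl
    have hqsucc : (qq d (k1 + 1)).2 = d k1 * (qq d k1).2 + (qq d k1).1 := rfl
    have hpow : Pm E (Vk lam d k1) 0 (d k1 * (qq d k1).2) = (Mk E lam d k1) ^ (d k1) :=
      Pm_pow E _ 0 _ _ (Vk_period lam d hd k1)
    rcases Nat.even_or_odd k1 with hev | hodd
    · left
      rw [hev.neg_one_pow] at hdet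
      rw [hmp, ← hpow]
      unfold Mk
      rw [hqsucc, Pm_add]
      congr 1
      · have hqk : (qq d k).2 = (qq d k1).1 := rfl
        rw [hqk]
        apply Pm_congr
        intro i hi
        rw [hV'', hV']
        have := Vr_plus2 hq hq' ha hdet (m := i) (by positivity) (by exact_mod_cast hi)
        rw [show (0 : ℤ) + ((d k1 * (qq d k1).2 : ℕ) : ℤ) + i = d k1 * (qq d k1).2 + i by
          push_cast; ring, this, zero_add]
      · apply Pm_congr
        intro i hi
        rw [hV'']
        have := Vr_plus1 hq hq' ha hdet (n := i) (by positivity) (by exact_mod_cast hi)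
        rw [zero_add, this]; rfl
    · right
      rw [hodd.neg_one_pow] at hdet
      rw [hmp, ← hpow]
      unfold Mk
      rw [hqsucc, Nat.add_comm (d k1 * (qq d k1).2) (qq d k1).1, Pm_add]
      congr 1
      · apply Pm_congr
        intro i hi
        rw [hV'']
        have := Vr_minus2 hq hq' ha hdet (n := i) (by positivity) (by exact_mod_cast hi)
        rw [show (0 : ℤ) + ((qq d k1).1 : ℤ) + i = (qq d k1).1 + i by ring, this, zero_add]; rfl
      · have hqk : (qq d k).2 = (qq d k1).1 := rfl
        rw [hqk]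
        apply Pm_congr
        intro i hi
        rw [hV'', hV']
        have := Vr_minus1 hq hq' hqq ha hdet (n := i) (by positivity) (by exact_mod_cast hi)
        rw [zero_add, this]

lemma det_Mk (E lam : R) (d : ℕ → ℕ) (k : ℕ) : (Mk E lam d k).det = 1 := det_Pm _ _ _ _

/-- The trace map computes the traces of the period transfer matrices. -/
lemma trace_Mk_aux (E lam : R) (d : ℕ → ℕ) (hd : ∀ i, 1 ≤ d i) (k : ℕ) :
    (Mprev E lam d k).trace = Yk E lam d k ∧ (Mk E lam d k).trace = Xk E lam d k ∧
      (Mprev E lam d k * Mk E lam d k).trace = Zk E lam d k := by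
  induction k with
  | zero =>
    have hM0 : Mk E lam d 0 = Tm E 0 := by
      simp [Mk, qq, Pm, Vk, Vr, pp]
    rw [hM0]
    refine ⟨?_, ?_, ?_⟩
    · simp [Mprev, Am, trace_fin_two]; norm_num
    · simp [Tm, trace_fin_two]
    · simp [Mprev, Am, Tm, trace_fin_two, sub_eq_add_neg]
  | succ k ih =>
    obtain ⟨h1, h2, h3⟩ := ih
    have key := fun p => trace_mul_pow (Mprev E lam d k) (Mk E lam d k) (det_Mk E lam d k) p
    rw [h1, h2, h3] at key
    refine ⟨h2, ?_, ?_⟩
    · rw [Xk_succ, Tk, key]
      rcases Mk_succ E lam d hd k with h | h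
      · rw [h]
      · rw [h, trace_mul_comm]
    · rw [Zk_succ, Tk, key]
      change (Mk E lam d k * Mk E lam d (k + 1)).trace = _
      rcases Mk_succ E lam d hd k with h | h
      · rw [h, trace_mul_comm, Matrix.mul_assoc, ← pow_succ]
      · rw [h, ← Matrix.mul_assoc, ← pow_succ', trace_mul_comm]

lemma trace_Mk (E lam : R) (d : ℕ → ℕ) (hd : ∀ i, 1 ≤ d i) (k : ℕ) :
    (Mk E lam d k).trace = Xk E lam d k := (trace_Mk_aux E lam d hd k).2.1

end matrix2

end Pool.Agent.Hhelper97.Sturm
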