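import Pool.Agent.Hhelper97.Sturm.Operator
import Pool.Agent.Hhelper97.Sturm.Words

set_option autoImplicit false

namespace Pool.Agent.Hhelper97.Sturm

open Polynomial Matrix

section
variable {V : ℤ → ℝ} {C₀ : ℝ} (hV : ∀ n, |V n| ≤ C₀)

/-- polynomial action -/
noncomputable def ap (P : ℂ[X]) (u : L2) : L2 := (aeval (HV V hV) P) u

lemma ap_add (P Q : ℂ[X]) (u : L2) : ap hV (P + Q) u = ap hV P u + ap hV Q u := by
  simp [ap, map_add]

lemma ap_sub (P Q : ℂ[X]) (u : L2) : ap hV (P - Q) u = ap hV P u - ap hV Q u := by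
  simp [ap, map_sub]

lemma ap_mul (P Q : ℂ[X]) (u : L2) : ap hV (P * Q) u = ap hV P (ap hV Q u) := by
  simp [ap, map_mul]

lemma ap_one (u : L2) : ap hV 1 u = u := by simp [ap]

lemma ap_zero (u : L2) : ap hV 0 u = 0 := by simp [ap]

lemma ap_X (u : L2) : ap hV X u = HV V hV u := by simp [ap]

lemma ap_C (c : ℂ) (u : L2) : ap hV (C c) u = c • u := by
  simp [ap, Algebra.algebraMap_eq_smul_one]

/-- the polynomial transfer matrix -/
noncomputable abbrev PP (V : ℤ → ℝ) (a : ℤ) (n : ℕ) : Matrix (Fin 2) (Fin 2) ℂ[X] :=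
  Pm (X : ℂ[X]) (fun n => C ((V n : ℝ) : ℂ)) a n

lemma magic_forward (m : ℕ) : ∀ (u : L2) (n : ℤ),
    u (n + m) = ap hV (PP V n m 0 0) u n + ap hV (PP V n m 0 1) u (n - 1) ∧
    u (n + m - 1) = ap hV (PP V n m 1 0) u n + ap hV (PP V n m 1 1) u (n - 1) := by
  induction m with
  | zero =>
    intro u n
    simp [ap_one, ap_zero]
  | succ m ih =>
    intro u n
    have h00 : PP V n (m + 1) 0 0 = PP V n m 0 0 * (X - C ((V (n + m) : ℝ) : ℂ)) - PP V n m 1 0 := by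
      simp [PP, Pm_succ, Tm, Matrix.mul_apply, Fin.sum_univ_two]; ring
    have h01 : PP V n (m + 1) 0 1 = PP V n m 0 1 * (X - C ((V (n + m) : ℝ) : ℂ)) - PP V n m 1 1 := by
      simp [PP, Pm_succ, Tm, Matrix.mul_apply, Fin.sum_univ_two]; ring
    have h10 : PP V n (m + 1) 1 0 = PP V n m 0 0 := by
      simp [PP, Pm_succ, Tm, Matrix.mul_apply, Fin.sum_univ_two]
    have h11 : PP V n (m + 1) 1 1 = PP V n m 0 1 := by
      simp [PP, Pm_succ, Tm, Matrix.mul_apply, Fin.sum_univ_two]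
    obtain ⟨i1, i2⟩ := ih u n
    obtain ⟨j1, j2⟩ := ih (HV V hV u - ((V (n + m) : ℝ) : ℂ) • u) n
    constructor
    · rw [h00, h01, ap_sub, ap_sub, ap_mul, ap_mul, ap_sub, ap_X, ap_C]
      have e1 : (ap hV (PP V n m 0 0) (HV V hV u - ((V (n + m) : ℝ) : ℂ) • u)
          - ap hV (PP V n m 1 0) u) n
          = ap hV (PP V n m 0 0) (HV V hV u - ((V (n + m) : ℝ) : ℂ) • u) n
            - ap hV (PP V n m 1 0) u n := rfl
      have e2 : (ap hV (PP V n m 0 1) (HV V hV u - ((V (n + m) : ℝ) : ℂ) • u)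
          - ap hV (PP V n m 1 1) u) (n - 1)
          = ap hV (PP V n m 0 1) (HV V hV u - ((V (n + m) : ℝ) : ℂ) • u) (n - 1)
            - ap hV (PP V n m 1 1) u (n - 1) := rfl
      have e3 : (HV V hV u - ((V (n + m) : ℝ) : ℂ) • u : L2) (n + m)
          = u (n + m + 1) + u (n + m - 1) := by
        change HV V hV u (n + m) - ((V (n + m) : ℝ) : ℂ) * u (n + m) = _
        rw [HV_apply]; ring
      rw [e1, e2]
      rw [e3] at j1
      push_cast
      rw [← add_assoc]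
      linear_combination j1 - i2
    · rw [h10, h11]
      push_cast
      rw [show n + ((m : ℤ) + 1) - 1 = n + m by ring]
      exact i1

end

lemma PP_periodic {V : ℤ → ℝ} {q : ℕ} (hper : ∀ n, V (n + q) = V n) (n : ℤ) :
    PP V (n + q) q = PP V n q := by
  apply Pm_congr
  intro i _
  rw [show n + (q : ℤ) + i = (n + i) + q by ring, hper]

lemma trace_PP_succ {V : ℤ → ℝ} {q : ℕ} (hper : ∀ n, V (n + q) = V n) (n : ℤ) :
    (PP V (n + 1) q).trace = (PP V n q).trace := by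
  have h1 : PP V n (q + 1) = Tm X (C ((V (n + q) : ℝ) : ℂ)) * PP V n q := Pm_succ _ _ _ _
  have h2 : PP V n (1 + q) = PP V (n + 1) q * PP V n 1 := by
    have := Pm_add (X : ℂ[X]) (fun n => C ((V n : ℝ) : ℂ)) n 1 q
    simpa using this
  have h3 : PP V n 1 = Tm X (C ((V n : ℝ) : ℂ)) := by
    simp [PP, Pm]
  rw [Nat.add_comm 1 q, h1, h3, hper] at h2
  set T := Tm (X : ℂ[X]) (C ((V n : ℝ) : ℂ)) with hT
  have hTT : T * T.adjugate = 1 := by
    rw [Matrix.mul_adjugate, hT, det_Tm, one_smul]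
  have h4 : PP V (n + 1) q = T * PP V n q * T.adjugate := by
    rw [h2, Matrix.mul_assoc, hTT, Matrix.mul_one]
  rw [h4, Matrix.trace_mul_comm, ← Matrix.mul_assoc, Matrix.adjugate_mul, hT, det_Tm, one_smul,
    Matrix.one_mul]

lemma trace_PP {V : ℤ → ℝ} {q : ℕ} (hper : ∀ n, V (n + q) = V n) (n : ℤ) :
    (PP V n q).trace = (PP V 0 q).trace := by
  induction n using Int.induction_on with
  | zero => rfl
  | succ i ih => rw [trace_PP_succ hper, ih]
  | pred i ih =>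
    rw [← ih]
    have := trace_PP_succ hper (-(i : ℤ) - 1)
    rw [sub_add_cancel] at this
    exact this.symm

/-- Magic formula. -/
lemma magic {V : ℤ → ℝ} {C₀ : ℝ} (hV : ∀ n, |V n| ≤ C₀) {q : ℕ} (hper : ∀ n, V (n + q) = V n) :
    aeval (HV V hV) (PP V 0 q).trace = shiftL q + shiftL (-q) := by
  apply ContinuousLinearMap.ext
  intro u
  ext n
  change ap hV (PP V 0 q).trace u n = u (n + q) + u (n + -q)
  rw [← trace_PP hper n, Matrix.trace_fin_two, ap_add]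
  change ap hV (PP V n q 0 0) u n + ap hV (PP V n q 1 1) u n = _
  obtain ⟨f1, -⟩ := magic_forward hV q u n
  obtain ⟨g1, -⟩ := magic_forward hV q (ap hV (PP V n q 1 1) u) (n - q)
  obtain ⟨-, g2⟩ := magic_forward hV q (ap hV (PP V n q 0 1) u) (n - q)
  have hP : PP V (n - q) q = PP V n q := by
    have := PP_periodic hper (n - q)
    rw [sub_add_cancel] at this
    exact this.symm
  rw [hP, sub_add_cancel] at g1 g2
  have hdet : PP V n q 0 0 * PP V n q 1 1 - PP V n q 1 0 * PP V n q 0 1 = 1 := by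
    have := det_Pm (X : ℂ[X]) (fun n => C ((V n : ℝ) : ℂ)) n q
    rw [Matrix.det_fin_two] at this
    rw [← this]; ring
  have hk : ap hV (PP V n q 0 0) (ap hV (PP V n q 1 1) u) (n - q)
      - ap hV (PP V n q 1 0) (ap hV (PP V n q 0 1) u) (n - q) = u (n - q) := by
    rw [← ap_mul, ← ap_mul]
    have : (ap hV (PP V n q 0 0 * PP V n q 1 1) u - ap hV (PP V n q 1 0 * PP V n q 0 1) u : L2)
        = u := by
      rw [← ap_sub, hdet, ap_one]
    have h2 := congrArg (fun f : L2 => f (n - q)) this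
    exact h2
  have hcomm : ap hV (PP V n q 1 1) (ap hV (PP V n q 0 1) u)
      = ap hV (PP V n q 0 1) (ap hV (PP V n q 1 1) u) := by
    rw [← ap_mul, ← ap_mul, mul_comm]
  rw [hcomm] at g2
  rw [← sub_eq_add_neg n (q : ℤ)]
  linear_combination g1 - g2 - f1 + hk

/-- On the spectrum of a periodic operator the discriminant is at most two. -/
lemma abs_trace_le_two {V : ℤ → ℝ} {C₀ : ℝ} (hV : ∀ n, |V n| ≤ C₀) {q : ℕ}
    (hper : ∀ n, V (n + q) = V n) {E : ℝ} (hE : E ∈ specSet V) :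
    ‖eval (E : ℂ) (PP V 0 q).trace‖ ≤ 2 := by
  rw [mem_specSet_iff V hV] at hE
  have h1 := spectrum.subset_polynomial_aeval (HV V hV) (PP V 0 q).trace ⟨(E : ℂ), hE, rfl⟩
  rw [magic hV hper] at h1
  have h2 := spectrum.norm_le_norm_of_mem h1
  refine h2.trans ?_
  calc ‖shiftL q + shiftL (-q)‖ ≤ ‖shiftL q‖ + ‖shiftL (-q)‖ := norm_add_le _ _
    _ ≤ 1 + 1 := add_le_add (norm_shiftL_le _) (norm_shiftL_le _)
    _ = 2 := by norm_num

lemma eval_trace_Vk (lam E : ℝ) (d : ℕ → ℕ) (hd : ∀ i, 1 ≤ d i) (k : ℕ) :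
    eval (E : ℂ) (PP (Vk lam d k) 0 (qq d k).2).trace = ((Xk E lam d k : ℝ) : ℂ) := by
  have h1 : (fun n => C ((Vk lam d k n : ℝ) : ℂ)) = Vk (C (lam : ℂ)) d k := by
    ext1 n
    simp [Vk]
  have h2 : PP (Vk lam d k) 0 (qq d k).2 = Mk (X : ℂ[X]) (C (lam : ℂ)) d k := by
    unfold PP Mk
    rw [h1]
  rw [h2, trace_Mk _ _ d hd k]
  have h3 := map_Xk (evalRingHom (E : ℂ)) (X : ℂ[X]) (C (lam : ℂ)) d k
  have h4 := map_Xk (algebraMap ℝ ℂ) E lam d k
  simp at h3 h4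
  rw [h3, h4]

lemma Vr_nonneg_le (p q n : ℤ) (hp : 0 ≤ p) (hq : 0 < q) : 0 ≤ Vr p q n ∧ Vr p q n ≤ p := by
  unfold Vr
  have h1 : (n * p) / q ≤ ((n + 1) * p) / q := Int.ediv_le_ediv hq (by nlinarith)
  have h2 : ((n + 1) * p) / q ≤ (n * p + p * q) / q := Int.ediv_le_ediv hq (by nlinarith)
  rw [Int.add_mul_ediv_right _ _ hq.ne'] at h2
  constructor <;> linarith

lemma Vk_bound (lam : ℝ) (hlam : 0 ≤ lam) (d : ℕ → ℕ) (hd : ∀ i, 1 ≤ d i) (k : ℕ) :
    ∃ C, ∀ n, |Vk lam d k n| ≤ C := by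
  refine ⟨lam * ((pp d k).2 : ℝ), fun n => ?_⟩
  have hq : (0 : ℤ) < (qq d k).2 := by exact_mod_cast qq_pos d hd k
  obtain ⟨h1, h2⟩ := Vr_nonneg_le (pp d k).2 (qq d k).2 n (by positivity) hq
  unfold Vk
  have h1' : (0 : ℝ) ≤ ((Vr (pp d k).2 (qq d k).2 n : ℤ) : ℝ) := by exact_mod_cast h1
  have h2' : ((Vr (pp d k).2 (qq d k).2 n : ℤ) : ℝ) ≤ ((pp d k).2 : ℝ) := by exact_mod_cast h2
  rw [abs_of_nonneg (mul_nonneg hlam h1')]
  exact mul_le_mul_of_nonneg_left h2' hlam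

lemma specSet_Vk (lam E : ℝ) (d : ℕ → ℕ) (hd : ∀ i, 1 ≤ d i) (k : ℕ) {C₀ : ℝ}
    (hV : ∀ n, |Vk lam d k n| ≤ C₀)
    (hE : E ∈ specSet (Vk lam d k)) : |Xk E lam d k| ≤ 2 := by
  have := abs_trace_le_two hV (Vk_period lam d hd k) hE
  rw [eval_trace_Vk lam E d hd k, Complex.norm_real] at this
  exact this

end Pool.Agent.Hhelper97.Sturm
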