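import Pool.Agent.Hhelper97.Sturm.Hilbert

set_option autoImplicit false

namespace Pool.Agent.Hhelper97.Sturm

open scoped ENNReal

/-- `ℓ²(ℤ, ℂ)` -/
noncomputable abbrev L2 := lp (fun _ : ℤ => ℂ) 2

lemma two_toReal_pos : 0 < (2 : ℝ≥0∞).toReal := by norm_num

lemma memlp_shift {u : ℤ → ℂ} (hu : Memℓp u 2) (j : ℤ) : Memℓp (fun n => u (n + j)) 2 := by
  apply memℓp_gen
  exact (hu.summable two_toReal_pos).comp_injective (add_left_injective j)

lemma memlp_mul {u : ℤ → ℂ} (hu : Memℓp u 2) {V : ℤ → ℝ} {C : ℝ} (hV : ∀ n, |V n| ≤ C) :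
    Memℓp (fun n => (V n : ℂ) * u n) 2 := by
  have h1 : Memℓp (fun n => (C : ℂ) * u n) 2 := hu.const_mul (C : ℂ)
  refine h1.mono' (fun i => ?_)
  rw [norm_mul, norm_mul, Complex.norm_real, Complex.norm_real, Real.norm_eq_abs,
    Real.norm_eq_abs]
  exact mul_le_mul_of_nonneg_right ((hV i).trans (le_abs_self C)) (norm_nonneg _)

lemma norm_shift (u : L2) (j : ℤ) :
    ‖(⟨fun n => u (n + j), memlp_shift (lp.memℓp u) j⟩ : L2)‖ = ‖u‖ := by
  have h1 := lp.norm_rpow_eq_tsum two_toReal_pos u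
  have h2 := lp.norm_rpow_eq_tsum two_toReal_pos
    (⟨fun n => u (n + j), memlp_shift (lp.memℓp u) j⟩ : L2)
  have h3 : ∑' i : ℤ, ‖u (i + j)‖ ^ (2 : ℝ≥0∞).toReal = ∑' i : ℤ, ‖u i‖ ^ (2 : ℝ≥0∞).toReal :=
    (Equiv.addRight j).tsum_eq (fun i => ‖u i‖ ^ (2 : ℝ≥0∞).toReal)
  have h4 : ‖(⟨fun n => u (n + j), memlp_shift (lp.memℓp u) j⟩ : L2)‖ ^ (2 : ℝ≥0∞).toReal
      = ‖u‖ ^ (2 : ℝ≥0∞).toReal := by
    rw [h1, h2]; exact h3
  exact (Real.rpow_left_inj (norm_nonneg _) (norm_nonneg _) two_toReal_pos.ne').mp h4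

/-- shift operator -/
noncomputable def shiftL (j : ℤ) : L2 →L[ℂ] L2 :=
  LinearMap.mkContinuous
    { toFun := fun u => ⟨fun n => u (n + j), memlp_shift (lp.memℓp u) j⟩
      map_add' := fun u v => by ext n; rfl
      map_smul' := fun c u => by ext n; rfl } 1
    (fun u => by rw [one_mul]; exact (norm_shift u j).le)

@[simp] lemma shiftL_apply (j : ℤ) (u : L2) (n : ℤ) : shiftL j u n = u (n + j) := rfl

lemma norm_shiftL_le (j : ℤ) : ‖shiftL j‖ ≤ 1 :=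
  LinearMap.mkContinuous_norm_le _ zero_le_one _

/-- multiplication operator -/
noncomputable def mulL (V : ℤ → ℝ) {C : ℝ} (hV : ∀ n, |V n| ≤ C) : L2 →L[ℂ] L2 :=
  LinearMap.mkContinuous
    { toFun := fun u => ⟨fun n => (V n : ℂ) * u n, memlp_mul (lp.memℓp u) hV⟩
      map_add' := fun u v => by
        ext n
        change (V n : ℂ) * (u n + v n) = (V n : ℂ) * u n + (V n : ℂ) * v n
        ring
      map_smul' := fun c u => by
        ext n
        change (V n : ℂ) * (c * u n) = c * ((V n : ℂ) * u n)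
        ring } C
    (fun u => by
      have hC : 0 ≤ C := (abs_nonneg _).trans (hV 0)
      have : ‖(⟨fun n => (V n : ℂ) * u n, memlp_mul (lp.memℓp u) hV⟩ : L2)‖ ≤ ‖(C : ℂ) • u‖ := by
        apply lp.norm_mono (by norm_num)
        intro i
        change ‖(V i : ℂ) * u i‖ ≤ ‖(C : ℂ) * u i‖
        rw [norm_mul, norm_mul, Complex.norm_real, Complex.norm_real, Real.norm_eq_abs,
          Real.norm_eq_abs]
        exact mul_le_mul_of_nonneg_right ((hV i).trans (le_abs_self C)) (norm_nonneg _)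
      refine this.trans ?_
      rw [norm_smul, Complex.norm_real, Real.norm_eq_abs, abs_of_nonneg hC])

@[simp] lemma mulL_apply (V : ℤ → ℝ) {C : ℝ} (hV : ∀ n, |V n| ≤ C) (u : L2) (n : ℤ) :
    mulL V hV u n = (V n : ℂ) * u n := rfl

/-- the Schroedinger operator -/
noncomputable def HV (V : ℤ → ℝ) {C : ℝ} (hV : ∀ n, |V n| ≤ C) : L2 →L[ℂ] L2 :=
  shiftL 1 + shiftL (-1) + mulL V hV

lemma HV_apply (V : ℤ → ℝ) {C : ℝ} (hV : ∀ n, |V n| ≤ C) (u : L2) (n : ℤ) :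
    HV V hV u n = u (n + 1) + u (n - 1) + (V n : ℂ) * u n := rfl

lemma inner_shift (j : ℤ) (u v : L2) :
    inner ℂ (shiftL j u) v = inner ℂ u (shiftL (-j) v) := by
  rw [lp.inner_eq_tsum, lp.inner_eq_tsum]
  have := (Equiv.addRight j).tsum_eq (fun n : ℤ => inner ℂ (u n) (shiftL (-j) v n))
  rw [← this]
  congr 1
  ext n
  simp

lemma isSelfAdjoint_HV (V : ℤ → ℝ) {C : ℝ} (hV : ∀ n, |V n| ≤ C) : IsSelfAdjoint (HV V hV) := by
  rw [ContinuousLinearMap.isSelfAdjoint_iff_isSymmetric]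
  intro u v
  change inner ℂ (HV V hV u) v = inner ℂ u (HV V hV v)
  have e1 : HV V hV u = shiftL 1 u + shiftL (-1) u + mulL V hV u := rfl
  have e2 : HV V hV v = shiftL 1 v + shiftL (-1) v + mulL V hV v := rfl
  have e3 : inner ℂ (mulL V hV u) v = inner ℂ u (mulL V hV v) := by
    rw [lp.inner_eq_tsum, lp.inner_eq_tsum]
    congr 1
    ext n
    simp [inner]
    ring
  rw [e1, e2, inner_add_left, inner_add_left, inner_add_right, inner_add_right, inner_shift,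
    inner_shift, e3, neg_neg]
  ring

instance : Nontrivial L2 := by
  refine ⟨⟨lp.single 2 0 1, 0, ?_⟩⟩
  intro h
  have h1 := congrArg (fun f : L2 => f 0) h
  simp at h1

/-- The spectrum, as in the problem statement. -/
def specSet (V : ℤ → ℝ) : Set ℝ :=
  {E | ¬ (∀ u : ℤ → ℂ, Memℓp u 2 → ∃! v : ℤ → ℂ, Memℓp v 2 ∧
    ∀ n : ℤ, v (n + 1) + v (n - 1) + ((V n - E : ℝ) : ℂ) * v n = u n)}

lemma mem_specSet_iff (V : ℤ → ℝ) {C : ℝ} (hV : ∀ n, |V n| ≤ C) (E : ℝ) :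
    E ∈ specSet V ↔ (E : ℂ) ∈ spectrum ℂ (HV V hV) := by
  unfold specSet
  rw [Set.mem_ofPred_eq, spectrum.mem_iff, not_iff_not]
  set A : L2 →L[ℂ] L2 := HV V hV - algebraMap ℂ (L2 →L[ℂ] L2) (E : ℂ) with hA
  have hAapp : ∀ (v : L2) (n : ℤ), A v n = v (n + 1) + v (n - 1) + ((V n - E : ℝ) : ℂ) * v n := by
    intro v n
    have : A v = HV V hV v - (E : ℂ) • v := by
      rw [hA, sub_apply, Algebra.algebraMap_eq_smul_one]; rfl
    rw [this]
    change HV V hV v n - (E : ℂ) * v n = _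
    rw [HV_apply]
    push_cast
    ring
  have h1 : IsUnit (algebraMap ℂ (L2 →L[ℂ] L2) (E : ℂ) - HV V hV) ↔ IsUnit A := by
    rw [show algebraMap ℂ (L2 →L[ℂ] L2) (E : ℂ) - HV V hV = -A by rw [hA]; abel, IsUnit.neg_iff]
  rw [h1, ContinuousLinearMap.isUnit_iff_bijective]
  constructor
  · intro h
    refine ⟨?_, ?_⟩
    · intro v w hvw
      obtain ⟨x, _, hx2⟩ := h (A w) (lp.memℓp (A w))
      have e1 := hx2 v ⟨lp.memℓp v, fun n => by rw [← hAapp, hvw]⟩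
      have e2 := hx2 w ⟨lp.memℓp w, fun n => by rw [← hAapp]⟩
      apply lp.ext
      rw [e1, e2]
    · intro u
      obtain ⟨x, ⟨hx1, hx2⟩, _⟩ := h u (lp.memℓp u)
      refine ⟨⟨x, hx1⟩, ?_⟩
      ext n
      rw [hAapp]
      exact hx2 n
  · intro h u hu
    obtain ⟨x, hx⟩ := h.2 ⟨u, hu⟩
    refine ⟨x, ⟨lp.memℓp x, fun n => ?_⟩, ?_⟩
    · rw [← hAapp, hx]
    · rintro y ⟨hy1, hy2⟩
      have : A ⟨y, hy1⟩ = A x := by
        rw [hx]
        ext n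
        rw [hAapp]
        exact hy2 n
      have h3 := h.1 this
      rw [← h3]

/-- S2 -/
lemma exists_specSet_near {V : ℤ → ℝ} {C : ℝ} (hV : ∀ n, |V n| ≤ C) {E ε ε' : ℝ}
    (hε : ε < ε') (hε0 : 0 ≤ ε) {v : L2} (hv : v ≠ 0)
    (h : ‖HV V hV v - (E : ℂ) • v‖ ≤ ε * ‖v‖) :
    ∃ E' ∈ specSet V, |E' - E| < ε' := by
  obtain ⟨E', h1, h2⟩ := exists_spectrum_near (isSelfAdjoint_HV V hV) hε hε0 hv h
  exact ⟨E', (mem_specSet_iff V hV E').mpr h1, h2⟩

/-- S1 -/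
lemma exists_approx_eigenvector {V : ℤ → ℝ} {C : ℝ} (hV : ∀ n, |V n| ≤ C) {E ε : ℝ}
    (hE : E ∈ specSet V) (hε : 0 < ε) :
    ∃ (v : L2) (F : Finset ℤ), (∀ n ∉ F, v n = 0) ∧
      ‖HV V hV v - (E : ℂ) • v‖ < ε * ‖v‖ := by
  rw [mem_specSet_iff V hV, spectrum.mem_iff] at hE
  set A : L2 →L[ℂ] L2 := HV V hV - algebraMap ℂ (L2 →L[ℂ] L2) (E : ℂ) with hA
  have hAapp : ∀ (v : L2), A v = HV V hV v - (E : ℂ) • v := by
    intro v
    rw [hA, sub_apply, Algebra.algebraMap_eq_smul_one]; rfl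
  have hAsa : IsSelfAdjoint A := by
    refine (isSelfAdjoint_HV V hV).sub ?_
    rw [IsSelfAdjoint, ← algebraMap_star_comm]
    simp
  have hnu : ¬ IsUnit A := by
    intro h
    apply hE
    rw [show algebraMap ℂ (L2 →L[ℂ] L2) (E : ℂ) - HV V hV = -A by rw [hA]; abel]
    exact h.neg
  have h1 : ∃ v : L2, ‖A v‖ < ε * ‖v‖ := by
    by_contra hcon
    push Not at hcon
    exact hnu (isUnit_of_bounded_below hAsa hε hcon)
  obtain ⟨v, hv⟩ := h1
  have hsum := lp.hasSum_single (E := fun _ : ℤ => ℂ) (p := 2) (by norm_num) v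
  have hcont : Continuous (fun w : L2 => ε * ‖w‖ - ‖A w‖) := by fun_prop
  have h2 : Filter.Tendsto (fun F : Finset ℤ => ε * ‖∑ i ∈ F, lp.single 2 i (v i)‖
      - ‖A (∑ i ∈ F, lp.single 2 i (v i))‖) Filter.atTop (nhds (ε * ‖v‖ - ‖A v‖)) :=
    (hcont.tendsto v).comp hsum
  have h3 : ∀ᶠ F : Finset ℤ in Filter.atTop, 0 < ε * ‖∑ i ∈ F, lp.single 2 i (v i)‖
      - ‖A (∑ i ∈ F, lp.single 2 i (v i))‖ :=
    h2.eventually (lt_mem_nhds (by linarith))
  obtain ⟨F, hF⟩ := h3.exists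
  refine ⟨∑ i ∈ F, lp.single 2 i (v i), F, ?_, ?_⟩
  · intro n hn
    rw [lp.coeFn_sum, Finset.sum_apply]
    apply Finset.sum_eq_zero
    intro i hi
    apply lp.single_apply_ne
    intro h
    exact hn (h ▸ hi)
  · rw [← hAapp]; linarith

/-- If two potentials agree on the support of an approximate eigenvector, we may change it. -/
lemma HV_congr {V V' : ℤ → ℝ} {C C' : ℝ} (hV : ∀ n, |V n| ≤ C) (hV' : ∀ n, |V' n| ≤ C')
    {v : L2} {F : Finset ℤ} (hF : ∀ n ∉ F, v n = 0) (h : ∀ n ∈ F, V n = V' n) :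
    HV V hV v = HV V' hV' v := by
  ext n
  rw [HV_apply, HV_apply]
  by_cases hn : n ∈ F
  · rw [h n hn]
  · rw [hF n hn]; simp

end Pool.Agent.Hhelper97.Sturm
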