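import Pool.Agent.Hhelper97.Sturm.Bloch
import Pool.Agent.Hhelper97.Sturm.CF
import Pool.Agent.Hhelper97.Sturm.Bands

set_option autoImplicit false

namespace Pool.Agent.Hhelper97.Sturm

open Filter Topology

/-- spectrum of the Sturmian operator with digits `d` -/
abbrev Sp (lam : ℝ) (d : ℕ → ℕ) : Set ℝ := specSet (Va lam (cfv d))

/-- Escaping energies are not in the spectrum. -/
lemma not_mem_of_esc {lam : ℝ} (hlam : 0 ≤ lam) {d : ℕ → ℕ} (hd : ∀ i, 1 ≤ d i) {k : ℕ} {E : ℝ}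
    (h : Esc lam d k E) : E ∉ Sp lam d := by
  intro hE
  obtain ⟨ε, hε, hball⟩ := Metric.isOpen_iff.mp (isOpen_Esc lam d k) E h
  obtain ⟨v, F, hF, hv⟩ := exists_approx_eigenvector (Va_bound lam (cfv d) hlam) hE
    (half_pos hε)
  obtain ⟨l, hl1, hl2⟩ := ((Va_eventually lam d hd F).and (eventually_ge_atTop k)).exists
  obtain ⟨C, hC⟩ := Vk_bound lam hlam d hd l
  rw [HV_congr (Va_bound lam (cfv d) hlam) hC hF hl1] at hv
  have hv0 : v ≠ 0 := by
    rintro rfl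
    simp at hv
  obtain ⟨E', hE', hEE⟩ := exists_specSet_near hC (half_lt_self hε) (half_pos hε).le hv0 hv.le
  have h1 : Esc lam d k E' := hball (by rw [Metric.mem_ball, Real.dist_eq]; exact hEE)
  have h2 := (h1.of_le hd hl2).1
  have h3 := specSet_Vk lam E' d hd l hC hE'
  linarith

/-- Density in the bands. -/
lemma exists_near_of_band {lam : ℝ} (hlam : 0 ≤ lam) {d : ℕ → ℕ} (hd : ∀ i, 1 ≤ d i) {k : ℕ}
    (hdk : 2 ≤ d k) {E : ℝ} (h : |Xk E lam d k| ≤ 2) {ε : ℝ} (hε : 4 / Real.sqrt (d k) < ε) :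
    ∃ E' ∈ Sp lam d, |E' - E| < ε := by
  obtain ⟨n₀, hn₀⟩ := Va_window lam d hd k
  have htr : (Pm (E : ℂ) (fun n => ((Vk lam d k n : ℝ) : ℂ)) 0 (qq d k).2).trace
      = ((Xk E lam d k : ℝ) : ℂ) := by
    have h1 : (fun n => ((Vk lam d k n : ℝ) : ℂ)) = Vk (lam : ℂ) d k := by
      ext n
      simp [Vk]
    rw [h1]
    have h2 := trace_Mk (E : ℂ) (lam : ℂ) d hd k
    have h4 := map_Xk (algebraMap ℝ ℂ) E lam d k
    simp at h4
    rw [h4]
    exact h2
  obtain ⟨v, hv0, hv⟩ := bloch (Va_bound lam (cfv d) hlam) (qq_pos d hd k) (Vk_period lam d hd k) h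
    htr hdk hn₀
  exact exists_specSet_near (Va_bound lam (cfv d) hlam) hε (by positivity) hv0 hv

lemma Sp_subset {lam : ℝ} (hlam : 0 ≤ lam) {d : ℕ → ℕ} (hd : ∀ i, 1 ≤ d i) {E : ℝ}
    (hE : E ∈ Sp lam d) : E ∈ Set.Icc (-2) (lam + 2) := by
  by_contra hcon
  have : Esc lam d 0 E := by
    rw [Set.mem_Icc, not_and_or, not_le, not_le] at hcon
    refine ⟨?_, ?_, ?_⟩
    · rw [Xk_zero]
      rcases hcon with h | h
      · rw [abs_of_neg (by linarith)]; linarith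
      · rw [abs_of_pos (by linarith)]; linarith
    · rw [Zk_zero]
      rcases hcon with h | h
      · rw [abs_of_neg (by linarith)]; linarith
      · rw [abs_of_pos (by linarith)]; linarith
    · rw [Zk_zero, Yk_zero]
      norm_num
      rcases hcon with h | h
      · rw [abs_of_neg (by linarith)]; linarith
      · rw [abs_of_pos (by linarith)]; linarith
  exact not_mem_of_esc hlam hd this hE

/-- the spectrum is compact -/
lemma isCompact_Sp {lam : ℝ} (hlam : 0 ≤ lam) {d : ℕ → ℕ} (hd : ∀ i, 1 ≤ d i) :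
    IsCompact (Sp lam d) := by
  apply Metric.isCompact_of_isClosed_isBounded
  · have h1 : Sp lam d = (fun x : ℝ => (x : ℂ)) ⁻¹' (spectrum ℂ (HV _ (Va_bound lam (cfv d) hlam))) := by
      ext E
      rw [Set.mem_preimage]
      exact mem_specSet_iff _ (Va_bound lam (cfv d) hlam) E
    rw [h1]
    exact (spectrum.isClosed _).preimage Complex.continuous_ofReal
  · exact (Metric.isBounded_Icc (-2) (lam + 2)).subset (fun E hE => Sp_subset hlam hd hE)

/-- Upper covering: for large next digit the spectrum is close to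
`{|x_k| ≤ 2} ∪ {x_k² = 4 + λ²}`. -/
lemma exists_covering {lam : ℝ} (hlam : 0 ≤ lam) {d : ℕ → ℕ} (k : ℕ) {η : ℝ}
    (hη : 0 < η) :
    ∃ P : ℕ, ∀ d' : ℕ → ℕ, (∀ i < k, d' i = d i) → (∀ i, 1 ≤ d' i) → P ≤ d' k →
      ∀ y ∈ Sp lam d', ∃ e, |y - e| < η ∧
        (|Xk e lam d k| ≤ 2 ∨ (Xk e lam d k) ^ 2 = 4 + lam ^ 2) := by
  set Z : Set ℝ := {e | |Xk e lam d k| ≤ 2 ∨ (Xk e lam d k) ^ 2 = 4 + lam ^ 2} with hZ
  set K : Set ℝ := {E | E ∈ Set.Icc (-2) (lam + 2) ∧ ∀ e ∈ Z, η ≤ |E - e|} with hK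
  have hKc : IsCompact K := by
    have h1 : K = Set.Icc (-2) (lam + 2) ∩ ⋂ e ∈ Z, {E : ℝ | η ≤ |E - e|} := by
      ext E
      simp [hK]
    rw [h1]
    apply isCompact_Icc.inter_right
    apply isClosed_biInter
    intro e _
    exact isClosed_le continuous_const (continuous_id.sub continuous_const).abs
  set O : ℕ → Set ℝ := fun p => {E | 2 < |Xk E lam d k| ∧ 2 < |Tk E lam d k (p + 1)| ∧
    |Tk E lam d k p| < |Tk E lam d k (p + 1)|} with hO
  have hOo : ∀ p, IsOpen (O p) := by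
    intro p
    refine IsOpen.inter ?_ (IsOpen.inter ?_ ?_)
    · exact isOpen_lt continuous_const (continuous_Xk lam d k).abs
    · exact isOpen_lt continuous_const (continuous_Tk lam d k (p + 1)).abs
    · exact isOpen_lt (continuous_Tk lam d k p).abs (continuous_Tk lam d k (p + 1)).abs
  have hOm : Monotone O := by
    intro p q hpq E hE
    obtain ⟨h1, h2, h3⟩ := hE
    have := grow h1 p h2 h3 q hpq
    exact ⟨h1, this.1, this.2⟩
  have hKO : K ⊆ ⋃ p, O p := by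
    intro E hE
    have hEZ : E ∉ Z := by
      intro h
      have := hE.2 E h
      simp at this
      linarith
    simp only [hZ, Set.mem_ofPred_eq, not_or, not_le] at hEZ
    obtain ⟨p, hp1, hp2⟩ := exists_grow hEZ.1 (FV E lam d k) (by
      intro h
      apply hEZ.2
      linarith)
    exact Set.mem_iUnion.mpr ⟨p, hEZ.1, hp1, hp2⟩
  obtain ⟨p, hp⟩ := hKc.elim_directed_cover O hOo hKO (directed_of_isDirected_le hOm)
  refine ⟨p + 1, ?_⟩
  intro d' hd' hd1 hdk y hy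
  by_contra hcon
  push Not at hcon
  have hyK : y ∈ K := by
    refine ⟨Sp_subset hlam hd1 hy, ?_⟩
    intro e he
    by_contra hlt
    push Not at hlt
    obtain ⟨h1, h2⟩ := hcon e hlt
    rcases he with h | h
    · linarith
    · exact h2 h
  obtain ⟨h1, h2, h3⟩ := hp hyK
  have hesc : Esc lam d' (k + 1) y := by
    apply esc_of_grow (p := p)
    · rw [Xk_congr y lam d' d k hd']; exact h1
    · exact hdk
    · rw [Tk_congr y lam d' d k _ hd']; exact h2
    · rw [Tk_congr y lam d' d k _ hd', Tk_congr y lam d' d k _ hd']; exact h3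
  exact not_mem_of_esc hlam hd1 hesc hy

/-- finite quantifier exchange for antitone properties -/
lemma exists_pos_forall {ι : Type*} [Finite ι] {P : ι → ℝ → Prop}
    (hanti : ∀ i δ δ', P i δ → δ' ≤ δ → P i δ') (h : ∀ i, ∃ δ > 0, P i δ) :
    ∃ δ > 0, ∀ i, P i δ := by
  have h1 : ∀ i, ∀ᶠ δ in 𝓝[>] (0 : ℝ), P i δ := by
    intro i
    obtain ⟨δ, hδ, hP⟩ := h i
    filter_upwards [Ioo_mem_nhdsGT hδ] with δ' hδ'
    exact hanti i δ δ' hP hδ'.2.le
  have h2 := (eventually_all.mpr h1).and (self_mem_nhdsWithin (a := (0 : ℝ)) (s := Set.Ioi 0))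
  obtain ⟨δ, hδ1, hδ2⟩ := h2.exists
  exact ⟨δ, hδ2, hδ1⟩

/-- uniform gap size -/
lemma BandFam.exists_gap {lam : ℝ} {d : ℕ → ℕ} {k n : ℕ} (h : BandFam lam d k n) :
    ∃ (l : Fin n → ℝ) (δ : ℝ), 0 < δ ∧ (∀ i, |Xk (l i) lam d k| ≤ 2) ∧
      ∀ i j, i ≠ j → ∃ s, (∀ t, |t - s| < δ → Esc lam d k t) ∧
        ((l i < s ∧ s < l j) ∨ (l j < s ∧ s < l i)) := by
  obtain ⟨l, r, h1, h2⟩ := h
  have h3 : ∀ p : Fin n × Fin n, ∃ δ > 0, (p.1 ≠ p.2 → ∃ s, (∀ t, |t - s| < δ → Esc lam d k t) ∧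
      ((l p.1 < s ∧ s < l p.2) ∨ (l p.2 < s ∧ s < l p.1))) := by
    intro p
    by_cases hp : p.1 = p.2
    · exact ⟨1, one_pos, fun hc => absurd hp hc⟩
    · obtain ⟨s, hs1, hs2⟩ := h2 p.1 p.2 hp
      obtain ⟨ε, hε, hball⟩ := Metric.isOpen_iff.mp (isOpen_Esc lam d k) s hs1
      refine ⟨ε, hε, fun _ => ⟨s, fun t ht => hball (by rw [Metric.mem_ball, Real.dist_eq]; exact ht),
        ?_⟩⟩
      have e1 := (h1 p.1).lt
      have e2 := (h1 p.2).lt
      rcases hs2 with ⟨a, b⟩ | ⟨a, b⟩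
      · left; exact ⟨by linarith, b⟩
      · right; exact ⟨by linarith, b⟩
  obtain ⟨δ, hδ, hall⟩ := exists_pos_forall (fun p δ δ' hP hle hne => by
    obtain ⟨s, hs1, hs2⟩ := hP hne
    exact ⟨s, fun t ht => hs1 t (lt_of_lt_of_le ht hle), hs2⟩) h3
  refine ⟨l, δ, hδ, fun i => (h1 i).hX _ ⟨le_refl _, (h1 i).lt.le⟩, fun i j hij => ?_⟩
  exact hall (i, j) hij

end Pool.Agent.Hhelper97.Sturm
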