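import Mathlib

set_option autoImplicit false

namespace Pool.Agent.Hhelper97.Sturm

/-- Three-term recursion `t (n+2) = x * t (n+1) - t n` with `t 0 = y`, `t 1 = z`. -/
def tt {R : Type*} [CommRing R] (x y z : R) : ℕ → R
  | 0 => y
  | 1 => z
  | (n + 2) => x * tt x y z (n + 1) - tt x y z n

section ring
variable {R : Type*} [CommRing R]

@[simp] lemma tt_zero (x y z : R) : tt x y z 0 = y := rfl
@[simp] lemma tt_one (x y z : R) : tt x y z 1 = z := rfl
lemma tt_add_two (x y z : R) (n : ℕ) :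
    tt x y z (n + 2) = x * tt x y z (n + 1) - tt x y z n := rfl

lemma tt_inv (x y z : R) (n : ℕ) :
    (tt x y z (n + 1)) ^ 2 + (tt x y z n) ^ 2 - x * tt x y z (n + 1) * tt x y z n
      = z ^ 2 + y ^ 2 - x * z * y := by
  induction n with
  | zero => simp
  | succ n ih =>
    rw [← ih, tt_add_two]
    ring

/-- The state `(x_{k-1}, x_k, z_k)` of the trace map at level `k`. -/
def st (E lam : R) (d : ℕ → ℕ) : ℕ → R × R × R
  | 0 => (2, E, E - lam)
  | (k + 1) => ((st E lam d k).2.1,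
      tt (st E lam d k).2.1 (st E lam d k).1 (st E lam d k).2.2 (d k),
      tt (st E lam d k).2.1 (st E lam d k).1 (st E lam d k).2.2 (d k + 1))

/-- `x_{k-1}` -/
def Yk (E lam : R) (d : ℕ → ℕ) (k : ℕ) : R := (st E lam d k).1
/-- `x_k` -/
def Xk (E lam : R) (d : ℕ → ℕ) (k : ℕ) : R := (st E lam d k).2.1
/-- `z_k` -/
def Zk (E lam : R) (d : ℕ → ℕ) (k : ℕ) : R := (st E lam d k).2.2
/-- intermediate traces at level `k` -/
def Tk (E lam : R) (d : ℕ → ℕ) (k p : ℕ) : R :=
  tt (Xk E lam d k) (Yk E lam d k) (Zk E lam d k) p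

@[simp] lemma Yk_zero (E lam : R) (d : ℕ → ℕ) : Yk E lam d 0 = 2 := rfl
@[simp] lemma Xk_zero (E lam : R) (d : ℕ → ℕ) : Xk E lam d 0 = E := rfl
@[simp] lemma Zk_zero (E lam : R) (d : ℕ → ℕ) : Zk E lam d 0 = E - lam := rfl
lemma Yk_succ (E lam : R) (d : ℕ → ℕ) (k : ℕ) : Yk E lam d (k + 1) = Xk E lam d k := rfl
lemma Xk_succ (E lam : R) (d : ℕ → ℕ) (k : ℕ) :
    Xk E lam d (k + 1) = Tk E lam d k (d k) := rfl
lemma Zk_succ (E lam : R) (d : ℕ → ℕ) (k : ℕ) :
    Zk E lam d (k + 1) = Tk E lam d k (d k + 1) := rfl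
@[simp] lemma Tk_zero (E lam : R) (d : ℕ → ℕ) (k : ℕ) : Tk E lam d k 0 = Yk E lam d k := rfl
@[simp] lemma Tk_one (E lam : R) (d : ℕ → ℕ) (k : ℕ) : Tk E lam d k 1 = Zk E lam d k := rfl
lemma Tk_add_two (E lam : R) (d : ℕ → ℕ) (k p : ℕ) :
    Tk E lam d k (p + 2) = Xk E lam d k * Tk E lam d k (p + 1) - Tk E lam d k p := rfl

lemma FV (E lam : R) (d : ℕ → ℕ) (k : ℕ) :
    (Zk E lam d k) ^ 2 + (Yk E lam d k) ^ 2
      - Xk E lam d k * Zk E lam d k * Yk E lam d k = 4 + lam ^ 2 - (Xk E lam d k) ^ 2 := by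
  induction k with
  | zero => simp; ring
  | succ k ih =>
    have h := tt_inv (Xk E lam d k) (Yk E lam d k) (Zk E lam d k) (d k)
    rw [ih] at h
    rw [Yk_succ, Xk_succ, Zk_succ]
    unfold Tk
    linear_combination h

lemma FV' (E lam : R) (d : ℕ → ℕ) (k p : ℕ) :
    (Tk E lam d k (p + 1)) ^ 2 + (Tk E lam d k p) ^ 2
      - Xk E lam d k * Tk E lam d k (p + 1) * Tk E lam d k p
        = 4 + lam ^ 2 - (Xk E lam d k) ^ 2 := by
  rw [← FV]
  exact tt_inv _ _ _ _

lemma map_tt {S : Type*} [CommRing S] (φ : R →+* S) (x y z : R) (n : ℕ) :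
    φ (tt x y z n) = tt (φ x) (φ y) (φ z) n := by
  induction n using Nat.twoStepInduction with
  | zero => rfl
  | one => rfl
  | more n ih1 ih2 => rw [tt_add_two, tt_add_two, map_sub, map_mul, ih1, ih2]

lemma map_XYZ {S : Type*} [CommRing S] (φ : R →+* S) (E lam : R) (d : ℕ → ℕ) (k : ℕ) :
    φ (Yk E lam d k) = Yk (φ E) (φ lam) d k ∧ φ (Xk E lam d k) = Xk (φ E) (φ lam) d k ∧
      φ (Zk E lam d k) = Zk (φ E) (φ lam) d k := by
  induction k with
  | zero => simp [map_ofNat φ 2]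
  | succ k ih =>
    obtain ⟨h1, h2, h3⟩ := ih
    refine ⟨?_, ?_, ?_⟩
    · rw [Yk_succ, Yk_succ, h2]
    · rw [Xk_succ, Xk_succ, Tk, Tk, map_tt, h1, h2, h3]
    · rw [Zk_succ, Zk_succ, Tk, Tk, map_tt, h1, h2, h3]

lemma map_Xk {S : Type*} [CommRing S] (φ : R →+* S) (E lam : R) (d : ℕ → ℕ) (k : ℕ) :
    φ (Xk E lam d k) = Xk (φ E) (φ lam) d k := (map_XYZ φ E lam d k).2.1

end ring

/-- the state depends only on the first `k` digits -/
lemma st_congr {R : Type*} [CommRing R] (E lam : R) (d d' : ℕ → ℕ) (k : ℕ)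
    (h : ∀ i < k, d i = d' i) : st E lam d k = st E lam d' k := by
  induction k with
  | zero => rfl
  | succ k ih =>
    have ih' := ih (fun i hi => h i (Nat.lt_succ_of_lt hi))
    simp only [st, ih', h k (Nat.lt_succ_self k)]

lemma Xk_congr {R : Type*} [CommRing R] (E lam : R) (d d' : ℕ → ℕ) (k : ℕ)
    (h : ∀ i < k, d i = d' i) : Xk E lam d k = Xk E lam d' k := by
  unfold Xk; rw [st_congr E lam d d' k h]
lemma Yk_congr {R : Type*} [CommRing R] (E lam : R) (d d' : ℕ → ℕ) (k : ℕ)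
    (h : ∀ i < k, d i = d' i) : Yk E lam d k = Yk E lam d' k := by
  unfold Yk; rw [st_congr E lam d d' k h]
lemma Zk_congr {R : Type*} [CommRing R] (E lam : R) (d d' : ℕ → ℕ) (k : ℕ)
    (h : ∀ i < k, d i = d' i) : Zk E lam d k = Zk E lam d' k := by
  unfold Zk; rw [st_congr E lam d d' k h]
lemma Tk_congr {R : Type*} [CommRing R] (E lam : R) (d d' : ℕ → ℕ) (k p : ℕ)
    (h : ∀ i < k, d i = d' i) : Tk E lam d k p = Tk E lam d' k p := by
  unfold Tk; rw [Xk_congr E lam d d' k h, Yk_congr E lam d d' k h, Zk_congr E lam d d' k h]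

section real

lemma continuous_tt {α : Type*} [TopologicalSpace α] {x y z : α → ℝ} (hx : Continuous x)
    (hy : Continuous y) (hz : Continuous z) (n : ℕ) :
    Continuous fun a => tt (x a) (y a) (z a) n := by
  induction n using Nat.twoStepInduction with
  | zero => simpa using hy
  | one => simpa using hz
  | more n ih1 ih2 =>
    simp only [tt_add_two]
    exact (hx.mul ih2).sub ih1

lemma continuous_XYZ (lam : ℝ) (d : ℕ → ℕ) (k : ℕ) :
    Continuous (fun E => Yk E lam d k) ∧ Continuous (fun E => Xk E lam d k) ∧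
      Continuous (fun E => Zk E lam d k) := by
  induction k with
  | zero => refine ⟨?_, ?_, ?_⟩ <;> simp <;> fun_prop
  | succ k ih =>
    obtain ⟨h1, h2, h3⟩ := ih
    exact ⟨h2, continuous_tt h2 h1 h3 _, continuous_tt h2 h1 h3 _⟩

lemma continuous_Xk (lam : ℝ) (d : ℕ → ℕ) (k : ℕ) : Continuous (fun E => Xk E lam d k) :=
  (continuous_XYZ lam d k).2.1
lemma continuous_Yk (lam : ℝ) (d : ℕ → ℕ) (k : ℕ) : Continuous (fun E => Yk E lam d k) :=
  (continuous_XYZ lam d k).1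
lemma continuous_Zk (lam : ℝ) (d : ℕ → ℕ) (k : ℕ) : Continuous (fun E => Zk E lam d k) :=
  (continuous_XYZ lam d k).2.2
lemma continuous_Tk (lam : ℝ) (d : ℕ → ℕ) (k p : ℕ) : Continuous (fun E => Tk E lam d k p) :=
  continuous_tt (continuous_Xk lam d k) (continuous_Yk lam d k) (continuous_Zk lam d k) p

/-- Escape at level `k`. -/
def Esc (lam : ℝ) (d : ℕ → ℕ) (k : ℕ) (E : ℝ) : Prop :=
  2 < |Xk E lam d k| ∧ 2 < |Zk E lam d k| ∧ |Yk E lam d k| < |Zk E lam d k|

lemma isOpen_Esc (lam : ℝ) (d : ℕ → ℕ) (k : ℕ) : IsOpen {E | Esc lam d k E} := by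
  unfold Esc
  refine IsOpen.inter ?_ (IsOpen.inter ?_ ?_)
  · exact isOpen_lt continuous_const (continuous_Xk lam d k).abs
  · exact isOpen_lt continuous_const (continuous_Zk lam d k).abs
  · exact isOpen_lt (continuous_Yk lam d k).abs (continuous_Zk lam d k).abs

/-- growth: one step -/
lemma grow_step {x s t : ℝ} (hx : 2 < |x|) (ht : 2 < |t|) (hst : |s| < |t|) :
    2 < |x * t - s| ∧ |t| < |x * t - s| ∧ |x| < |x * t - s| := by
  have h1 : |x| * |t| - |s| ≤ |x * t - s| := by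
    rw [← abs_mul]; exact abs_sub_abs_le_abs_sub _ _
  have h2 : (|x| - 1) * |t| < |x * t - s| := by nlinarith
  refine ⟨by nlinarith, by nlinarith, by nlinarith⟩

lemma grow {x y z : ℝ} (hx : 2 < |x|) (p : ℕ) (h1 : 2 < |tt x y z (p + 1)|)
    (h2 : |tt x y z p| < |tt x y z (p + 1)|) (q : ℕ) (hpq : p ≤ q) :
    2 < |tt x y z (q + 1)| ∧ |tt x y z q| < |tt x y z (q + 1)| := by
  induction q, hpq using Nat.le_induction with
  | base => exact ⟨h1, h2⟩
  | succ q hq ih =>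
    have := grow_step hx ih.1 ih.2
    rw [← tt_add_two] at this
    exact ⟨this.1, this.2.1⟩

/-- If the intermediate traces start growing at step `p+1 ≤ d k`, then we escape at level `k+1`. -/
lemma esc_of_grow {lam : ℝ} {d : ℕ → ℕ} {k : ℕ} {E : ℝ} (hx : 2 < |Xk E lam d k|) {p : ℕ}
    (hp : p + 1 ≤ d k) (h1 : 2 < |Tk E lam d k (p + 1)|)
    (h2 : |Tk E lam d k p| < |Tk E lam d k (p + 1)|) : Esc lam d (k + 1) E := by
  obtain ⟨m, hm⟩ : ∃ m, d k = m + 1 := ⟨d k - 1, by omega⟩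
  have g1 := grow hx p h1 h2 m (by omega)
  have g2 := grow_step hx g1.1 g1.2
  rw [← tt_add_two] at g2
  refine ⟨?_, ?_, ?_⟩
  · rw [Xk_succ, Tk, hm]; exact g1.1
  · rw [Zk_succ, Tk, hm]; exact g2.1
  · rw [Zk_succ, Yk_succ, Tk, hm]; exact g2.2.2

lemma Esc.succ {lam : ℝ} {d : ℕ → ℕ} {k : ℕ} {E : ℝ} (h : Esc lam d k E) (hd : 1 ≤ d k) :
    Esc lam d (k + 1) E := by
  refine esc_of_grow (p := 0) h.1 hd ?_ ?_
  · simpa using h.2.1
  · simpa using h.2.2

lemma Esc.of_le {lam : ℝ} {d : ℕ → ℕ} {k : ℕ} {E : ℝ} (h : Esc lam d k E) (hd : ∀ i, 1 ≤ d i)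
    {l : ℕ} (hl : k ≤ l) : Esc lam d l E := by
  induction l, hl using Nat.le_induction with
  | base => exact h
  | succ l _ ih => exact ih.succ (hd l)

/-- If `|x| > 2` and `x² ≠ 4 + λ²` then the intermediate traces eventually grow. -/
lemma exists_grow {x y z D : ℝ} (hx : 2 < |x|) (hD : z ^ 2 + y ^ 2 - x * z * y = D) (hD0 : D ≠ 0) :
    ∃ p : ℕ, 2 < |tt x y z (p + 1)| ∧ |tt x y z p| < |tt x y z (p + 1)| := by
  by_contra hcon
  push Not at hcon
  -- Step 1 : never increasing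
  have key : ∀ p : ℕ, |tt x y z (p + 1)| ≤ |tt x y z p| := by
    intro p
    by_contra hp
    push Not at hp
    -- grows geometrically
    have hgeo : ∀ n : ℕ, |tt x y z (p + n)| < |tt x y z (p + n + 1)| ∧
        (|x| - 1) ^ n * |tt x y z (p + 1)| ≤ |tt x y z (p + n + 1)| := by
      intro n
      induction n with
      | zero => simpa using hp
      | succ n ih =>
        obtain ⟨i1, i2⟩ := ih
        have h1 : |x| * |tt x y z (p + n + 1)| - |tt x y z (p + n)|
            ≤ |tt x y z (p + n + 2)| := by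
          rw [tt_add_two, ← abs_mul]; exact abs_sub_abs_le_abs_sub _ _
        have hpos : 0 < |tt x y z (p + n + 1)| := lt_of_le_of_lt (abs_nonneg _) i1
        have h2 : (|x| - 1) * |tt x y z (p + n + 1)| < |tt x y z (p + n + 2)| := by nlinarith
        refine ⟨?_, ?_⟩
        · have : |tt x y z (p + n + 1)| < |tt x y z (p + n + 2)| := by nlinarith
          simpa [add_assoc] using this
        · have h3 : (|x| - 1) ^ (n + 1) * |tt x y z (p + 1)|
              ≤ (|x| - 1) * |tt x y z (p + n + 1)| := by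
            rw [pow_succ]
            have : 0 < |x| - 1 := by linarith
            nlinarith
          have h4 := h3.trans h2.le
          simpa [add_assoc] using h4
    have hpos : 0 < |tt x y z (p + 1)| := lt_of_le_of_lt (abs_nonneg _) hp
    obtain ⟨n, hn⟩ := pow_unbounded_of_one_lt (2 / |tt x y z (p + 1)|)
      (show (1 : ℝ) < |x| - 1 by linarith)
    have h5 := hgeo n
    rw [div_lt_iff₀ hpos] at hn
    have h6 : 2 < |tt x y z (p + n + 1)| := lt_of_lt_of_le hn h5.2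
    exact absurd h5.1 (not_lt.mpr (hcon (p + n) h6))
  -- Step 2 : decays geometrically
  have hdec : ∀ n : ℕ, (|x| - 1) ^ n * |tt x y z (n)| ≤ |tt x y z 0| := by
    intro n
    induction n with
    | zero => simp
    | succ n ih =>
      have h1 : |x| * |tt x y z (n + 1)| - |tt x y z (n + 2)| ≤ |tt x y z n| := by
        have : tt x y z n = x * tt x y z (n + 1) - tt x y z (n + 2) := by
          rw [tt_add_two]; ring
        rw [this, ← abs_mul]; exact abs_sub_abs_le_abs_sub _ _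
      have h2 := key (n + 1)
      have h3 : (|x| - 1) * |tt x y z (n + 1)| ≤ |tt x y z n| := by
        have : tt x y z (n + 1 + 1) = tt x y z (n + 2) := rfl
        rw [this] at h2
        linarith
      have h4 : 0 ≤ (|x| - 1) ^ n := pow_nonneg (by linarith) _
      calc (|x| - 1) ^ (n + 1) * |tt x y z (n + 1)|
          = (|x| - 1) ^ n * ((|x| - 1) * |tt x y z (n + 1)|) := by ring
        _ ≤ (|x| - 1) ^ n * |tt x y z n| := mul_le_mul_of_nonneg_left h3 h4
        _ ≤ _ := ih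
  -- so |D| ≤ (2 + |x|) |t_n|^2 -> 0
  have hDle : ∀ n : ℕ, |D| ≤ (2 + |x|) * |tt x y z n| ^ 2 := by
    intro n
    rw [← hD, ← tt_inv x y z n]
    have h1 := key n
    have h0 := abs_nonneg (tt x y z (n + 1))
    have h00 := abs_nonneg (tt x y z n)
    have : |tt x y z (n + 1) ^ 2 + tt x y z n ^ 2 - x * tt x y z (n + 1) * tt x y z n|
        ≤ |tt x y z (n + 1)| ^ 2 + |tt x y z n| ^ 2
          + |x| * |tt x y z (n + 1)| * |tt x y z n| := by
      calc _ ≤ |tt x y z (n + 1) ^ 2 + tt x y z n ^ 2|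
            + |x * tt x y z (n + 1) * tt x y z n| := abs_sub _ _
        _ ≤ |tt x y z (n + 1) ^ 2| + |tt x y z n ^ 2|
            + |x * tt x y z (n + 1) * tt x y z n| := by gcongr; exact abs_add_le _ _
        _ = _ := by rw [abs_pow, abs_pow, abs_mul, abs_mul]
    refine this.trans ?_
    have e1 : |tt x y z (n + 1)| ^ 2 ≤ |tt x y z n| ^ 2 := by gcongr
    have e2 : |x| * |tt x y z (n + 1)| * |tt x y z n| ≤ |x| * |tt x y z n| ^ 2 := by
      have : |tt x y z (n + 1)| * |tt x y z n| ≤ |tt x y z n| ^ 2 := by nlinarith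
      nlinarith [abs_nonneg x]
    nlinarith
  have hDpos : 0 < |D| := abs_pos.mpr hD0
  obtain ⟨n, hn⟩ := pow_unbounded_of_one_lt
    ((2 + |x|) * |tt x y z 0| ^ 2 / |D|) (show (1 : ℝ) < (|x| - 1) ^ 2 by nlinarith)
  rw [div_lt_iff₀ hDpos] at hn
  have h1 := hDle n
  have h2 := hdec n
  have h3 : 0 ≤ (|x| - 1) ^ n * |tt x y z n| :=
    mul_nonneg (pow_nonneg (by linarith) _) (abs_nonneg _)
  have h4 : ((|x| - 1) ^ n * |tt x y z n|) ^ 2 ≤ |tt x y z 0| ^ 2 := by gcongr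
  have h5 : ((|x| - 1) ^ 2) ^ n * |D| ≤ (2 + |x|) * ((|x| - 1) ^ n * |tt x y z n|) ^ 2 := by
    calc ((|x| - 1) ^ 2) ^ n * |D| ≤ ((|x| - 1) ^ 2) ^ n * ((2 + |x|) * |tt x y z n| ^ 2) := by
          gcongr
      _ = _ := by rw [mul_pow, ← pow_mul, ← pow_mul, mul_comm 2 n]; ring
  have h6 : (2 + |x|) * ((|x| - 1) ^ n * |tt x y z n|) ^ 2 ≤ (2 + |x|) * |tt x y z 0| ^ 2 := by
    gcongr
  linarith

end real

end Pool.Agent.Hhelper97.Sturm
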